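import Mathlib

/-!
# Abstract computations in the derived subgroup
-/

set_option autoImplicit false

namespace Pool.Agent.Helper721_C

/-- the facts about the action of a generating pair on the (abelian) derived subgroup -/
structure Pr {A : Type} [AddCommGroup A] (z : A) (φ ψ : A →+ A) : Prop where
  comm : ∀ u, φ (ψ u) = ψ (φ u)
  gen : ∀ B : AddSubgroup A, z ∈ B → (∀ b ∈ B, φ b ∈ B) → (∀ b ∈ B, ψ b ∈ B) → ∀ u, u ∈ B
  cov : ∀ u, ∃ (j : ℕ) (v : A), u = (∑ i ∈ Finset.range j, ψ^[i] z) + (φ v - v)

variable {A : Type} [AddCommGroup A]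

/-- if `φ` fixes `z` it is the identity -/
theorem Pr.id_of_fix {z : A} {φ ψ : A →+ A} (h : Pr z φ ψ) (hz : φ z = z) : ∀ u, φ u = u := by
  intro u
  let B : AddSubgroup A :=
    { carrier := {v | φ v = v}
      add_mem' := by
        intro a b ha hb
        change φ (a + b) = a + b
        rw [map_add, ha, hb]
      zero_mem' := map_zero φ
      neg_mem' := by
        intro a ha
        change φ (-a) = -a
        rw [map_neg, ha] }
  exact h.gen B hz (fun b hb => by
      change φ (φ b) = φ b
      rw [show φ b = b from hb, show φ b = b from hb]) (fun b hb => by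
      change φ (ψ b) = ψ b
      rw [h.comm, show φ b = b from hb]) u

/-- the values `φ v - v` lie in a subgroup as soon as `φ z - z` does -/
theorem Pr.sub_mem {z : A} {φ ψ : A →+ A} (h : Pr z φ ψ) (C : AddSubgroup A) (hz : φ z - z ∈ C)
    (h1 : ∀ c ∈ C, φ c ∈ C) (h2 : ∀ c ∈ C, ψ c ∈ C) : ∀ u, φ u - u ∈ C := by
  intro u
  let B : AddSubgroup A :=
    { carrier := {v | φ v - v ∈ C}
      add_mem' := by
        intro a b ha hb
        change φ (a + b) - (a + b) ∈ C
        have : φ (a + b) - (a + b) = (φ a - a) + (φ b - b) := by rw [map_add]; abel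
        rw [this]
        exact C.add_mem ha hb
      zero_mem' := by
        change φ 0 - 0 ∈ C
        rw [map_zero, sub_zero]; exact C.zero_mem
      neg_mem' := by
        intro a ha
        change φ (-a) - (-a) ∈ C
        have : φ (-a) - (-a) = -(φ a - a) := by rw [map_neg]; abel
        rw [this]
        exact C.neg_mem ha }
  exact h.gen B hz (fun b hb => by
      change φ (φ b) - φ b ∈ C
      rw [← map_sub]
      exact h1 _ hb) (fun b hb => by
      change φ (ψ b) - ψ b ∈ C
      rw [h.comm, ← map_sub]
      exact h2 _ hb) u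

/-- the subgroup `{0, c}` -/
def pairS (c : A) (hc : c + c = 0) : AddSubgroup A where
  carrier := {v | v = 0 ∨ v = c}
  add_mem' := by
    rintro a b (rfl | rfl) (rfl | rfl)
    · left; simp
    · right; simp
    · right; simp
    · left; exact hc
  zero_mem' := Or.inl rfl
  neg_mem' := by
    rintro a (rfl | rfl)
    · left; simp
    · right; exact neg_eq_of_add_eq_zero_left hc

theorem mem_pairS {c : A} {hc : c + c = 0} {v : A} : v ∈ pairS c hc ↔ v = 0 ∨ v = c := Iff.rfl

/-- the situation in the critical quotient for `p = 2` -/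
structure TwoCfg (z k : A) (φ ψ : A →+ A) : Prop where
  pr : Pr z φ ψ
  pr2 : Pr z (φ.comp (ψ.comp ψ)) ψ
  pr3 : Pr (-z) ψ φ
  kne : k ≠ 0
  k2 : k + k = 0
  fk : φ k = k
  gk : ψ k = k
  sq : z + z = 0 ∨ z + z = k
  xx : φ (φ z - z) = φ z - z ∨ φ (φ z - z) = φ z - z + k
  yx : ψ (φ z - z) = φ z - z ∨ ψ (φ z - z) = φ z - z + k
  yy : ψ (ψ z - z) = ψ z - z ∨ ψ (ψ z - z) = ψ z - z + k
  nc : ¬ ((φ z - z = 0 ∨ φ z - z = k) ∧ (ψ z - z = 0 ∨ ψ z - z = k))
  ne : z + z = k ∨ φ (φ z - z) = φ z - z + k ∨ ψ (φ z - z) = φ z - z + k ∨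
    ψ (ψ z - z) = ψ z - z + k

namespace TwoCfg
variable {z k : A} {φ ψ : A →+ A} (h : TwoCfg z k φ ψ)
include h

theorem z4 : z + z + (z + z) = 0 := by
  rcases h.sq with h1 | h1 <;> rw [h1]
  · simp
  · exact h.k2

/-- `2a = 0` -/
theorem a2 : (φ z - z) + (φ z - z) = 0 := by
  have h1 : (φ z - z) + (φ z - z) = φ (z + z) - (z + z) := by rw [map_add]; abel
  rw [h1]
  rcases h.sq with h2 | h2 <;> rw [h2]
  · simp
  · rw [h.fk, sub_self]

/-- `2b = 0` -/
theorem b2 : (ψ z - z) + (ψ z - z) = 0 := by
  have h1 : (ψ z - z) + (ψ z - z) = ψ (z + z) - (z + z) := by rw [map_add]; abel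
  rw [h1]
  rcases h.sq with h2 | h2 <;> rw [h2]
  · simp
  · rw [h.gk, sub_self]

/-- `X b = Y a` -/
theorem xb : φ (ψ z - z) - (ψ z - z) = ψ (φ z - z) - (φ z - z) := by
  rw [map_sub, map_sub, h.pr.comm]; abel

end TwoCfg

/-- the sums `S_j` -/
theorem sum_cases {z b c : A} {ψ : A →+ A} (hz : ψ z = z + b) (hb : ψ b = b + c) (hc : ψ c = c)
    (b2 : b + b = 0) (c2 : c + c = 0) (z4 : z + z + (z + z) = 0) (j : ℕ) :
    ((∑ i ∈ Finset.range j, ψ^[i] z) = 0 ∧ ψ^[j] z = z) ∨
    ((∑ i ∈ Finset.range j, ψ^[i] z) = z ∧ ψ^[j] z = z + b) ∨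
    ((∑ i ∈ Finset.range j, ψ^[i] z) = z + z + b ∧ ψ^[j] z = z + c) ∨
    ((∑ i ∈ Finset.range j, ψ^[i] z) = z + z + z + b + c ∧ ψ^[j] z = z + b + c) := by
  induction j with
  | zero => left; simp
  | succ j ih =>
    rw [Finset.sum_range_succ, Function.iterate_succ_apply']
    rcases ih with ⟨h1, h2⟩ | ⟨h1, h2⟩ | ⟨h1, h2⟩ | ⟨h1, h2⟩
    · right; left
      rw [h1, h2, hz]; simp
    · right; right; left
      rw [h1, h2, map_add, hz, hb]
      constructor
      · abel
      · have : z + b + (b + c) = z + c + (b + b) := by abel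
        rw [this, b2, add_zero]
    · right; right; right
      rw [h1, h2, map_add, hz, hc]
      constructor
      · abel
      · abel
    · left
      rw [h1, h2, map_add, map_add, hz, hb, hc]
      constructor
      · have : z + z + z + b + c + (z + b + c) = (z + z + (z + z)) + (b + b) + (c + c) := by abel
        rw [this, z4, b2, c2]; simp
      · have : z + b + (b + c) + c = z + (b + b) + (c + c) := by abel
        rw [this, b2, c2]; simp

namespace TwoCfg
variable {z k : A} {φ ψ : A →+ A} (h : TwoCfg z k φ ψ)
include h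

/-- (LA) -/
theorem la : ¬ (φ z - z = 0 ∨ φ z - z = k) := by
  intro ha
  obtain ⟨b, hbdef⟩ : ∃ b, b = ψ z - z := ⟨_, rfl⟩
  obtain ⟨a, hadef⟩ : ∃ a, a = φ z - z := ⟨_, rfl⟩
  have hz : ψ z = z + b := by rw [hbdef]; abel
  have hza : φ z = z + a := by rw [hadef]; abel
  have hb : ¬ (b = 0 ∨ b = k) := by rw [hbdef]; exact fun hb => h.nc ⟨ha, hb⟩
  have b2 : b + b = 0 := by rw [hbdef]; exact h.b2
  have k2 := h.k2
  have z4 := h.z4
  rw [← hadef] at ha
  have fa : φ a = a := by
    rcases ha with h1 | h1 <;> rw [h1]
    · simp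
    · exact h.fk
  have ga : ψ a = a := by
    rcases ha with h1 | h1 <;> rw [h1]
    · simp
    · exact h.gk
  have fb : φ b = b := by
    have := h.xb
    rw [← hbdef, ← hadef, ga, sub_self] at this
    exact sub_eq_zero.1 this
  have sq := h.sq
  -- `z` is not in `{0, b, k, b + k}`
  have hz0 : ¬ (z = 0 ∨ z = b ∨ z = k ∨ z = b + k) := by
    intro hcon
    apply hb
    have hyy := h.yy
    rw [← hbdef] at hyy
    have e1 : ψ b - b = 0 ∨ ψ b - b = k := by
      rcases hyy with h1 | h1 <;> rw [h1]
      · left; simp
      · right; abel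
    have e2 : ψ z - z = 0 ∨ ψ z - z = ψ b - b := by
      rcases hcon with h1 | h1 | h1 | h1 <;> rw [h1]
      · left; simp
      · right; rfl
      · left; rw [h.gk, sub_self]
      · right; rw [map_add, h.gk]; abel
    rw [← hbdef] at e2
    rcases e2 with e2 | e2
    · exact Or.inl e2
    · rw [e2]; exact e1
  -- a sum `S_j` is never `k`
  have key : ∀ c, ψ b = b + c → ψ c = c → c + c = 0 → (c = 0 ∨ c = k) → ∀ j : ℕ,
      (∑ i ∈ Finset.range j, ψ^[i] z) ≠ k := by
    intro c hbc hc c2 hck j hj
    rcases sum_cases hz hbc hc b2 c2 z4 j with ⟨h1, -⟩ | ⟨h1, -⟩ | ⟨h1, -⟩ | ⟨h1, -⟩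
    · exact h.kne (by rw [← hj, h1])
    · apply hz0; right; right; left; rw [← hj, h1]
    · apply hb
      rw [hj] at h1
      have e : b = k - (z + z) := by rw [h1]; abel
      rcases sq with s | s <;> rw [s] at e
      · right; rw [e]; abel
      · left; rw [e]; abel
    · rw [hj] at h1
      have e : z = k - (z + z) - b - c := by
        have h2 : z = (z + z + z + b + c) - (z + z) - b - c := by abel
        rw [← h1] at h2
        exact h2
      have nb : -b = b := neg_eq_of_add_eq_zero_left b2
      have nk : -k = k := neg_eq_of_add_eq_zero_left k2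
      have kk : k - k = 0 := sub_self k
      apply hz0
      rcases sq with s | s <;> rw [s] at e <;> rcases hck with rfl | rfl
      · right; right; right
        calc z = k - 0 - b - 0 := e
          _ = k + -b := by abel
          _ = b + k := by rw [nb]; abel
      · right; left
        calc z = c - 0 - b - c := e
          _ = -b := by abel
          _ = b := nb
      · right; left
        calc z = k - k - b - 0 := e
          _ = -b := by abel
          _ = b := nb
      · right; right; right
        calc z = c - c - b - c := e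
          _ = -b + -c := by abel
          _ = b + c := by rw [nb, nk]
  have hyy := h.yy
  rw [← hbdef] at hyy
  rcases hyy with hc | hc
  · -- `c = 0`
    have hne := h.ne
    rw [← hadef, ← hbdef, fa, ga, hc] at hne
    have hkk : ∀ u : A, u ≠ u + k := fun u hu => h.kne (by
      have : u + 0 = u + k := by rw [add_zero]; exact hu
      exact (add_left_cancel this).symm)
    have hzz : z + z = k := by
      rcases hne with h1 | h1 | h1 | h1
      · exact h1
      · exact absurd h1 (hkk a)
      · exact absurd h1 (hkk a)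
      · exact absurd h1 (hkk b)
    rcases ha with ha | ha
    · have hid := h.pr.id_of_fix (by rw [hza, ha, add_zero])
      obtain ⟨j, v, hv⟩ := h.pr.cov k
      rw [hid, sub_self, add_zero] at hv
      exact key 0 (by rw [hc, add_zero]) (map_zero ψ) (add_zero 0) (Or.inl rfl) j hv.symm
    · -- use the pair (y, x)
      have hB := h.pr3.sub_mem (pairS b b2) (by
          right
          rw [map_neg, hz]
          have : -(z + b) - -z = -b := by abel
          rw [this]
          exact neg_eq_of_add_eq_zero_left b2) (by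
          rintro c (rfl | rfl)
          · left; exact map_zero ψ
          · right; exact hc) (by
          rintro c (rfl | rfl)
          · left; exact map_zero φ
          · right; exact fb)
      obtain ⟨j, v, hv⟩ := h.pr3.cov k
      have hT : ∀ j : ℕ, ((∑ i ∈ Finset.range j, φ^[i] (-z)) = 0 ∧ φ^[j] (-z) = -z) ∨
          ((∑ i ∈ Finset.range j, φ^[i] (-z)) = -z ∧ φ^[j] (-z) = -z + k) := by
        intro j
        induction j with
        | zero => left; simp
        | succ j ih =>
          rw [Finset.sum_range_succ, Function.iterate_succ_apply']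
          have nk : -k = k := neg_eq_of_add_eq_zero_left k2
          rcases ih with ⟨h1, h2⟩ | ⟨h1, h2⟩
          · right
            rw [h1, h2, map_neg, hza, ha]
            constructor
            · simp
            · have : -(z + k) = -z + -k := by abel
              rw [this, nk]
          · left
            rw [h1, h2, map_add, map_neg, hza, ha, h.fk]
            constructor
            · have : -z + (-z + k) = -(z + z) + k := by abel
              rw [this, hzz]; abel
            · abel
      have nb : -b = b := neg_eq_of_add_eq_zero_left b2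
      have nk : -k = k := neg_eq_of_add_eq_zero_left k2
      rcases hT j with ⟨h1, -⟩ | ⟨h1, -⟩ <;> rw [h1] at hv <;>
        rcases mem_pairS.1 (hB v) with h2 | h2 <;> rw [h2] at hv
      · exact h.kne (by rw [hv]; simp)
      · apply hb; right; rw [hv]; simp
      · apply hz0; right; right; left
        have : z = -k := by rw [hv]; simp
        rw [this, nk]
      · apply hz0; right; right; right
        have : z = b + -k := by rw [hv]; abel
        rw [this, nk]
  · -- `c = k`
    rcases ha with ha | ha
    · have hid := h.pr.id_of_fix (by rw [hza, ha, add_zero])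
      obtain ⟨j, v, hv⟩ := h.pr.cov k
      rw [hid, sub_self, add_zero] at hv
      exact key k hc h.gk k2 (Or.inr rfl) j hv.symm
    · have hid := h.pr2.id_of_fix (by
        change φ (ψ (ψ z)) = z
        rw [hz, map_add, hz, hc]
        have : z + b + (b + k) = z + (b + b) + k := by abel
        rw [this, b2, add_zero, map_add, hza, ha, h.fk, add_assoc, k2, add_zero])
      obtain ⟨j, v, hv⟩ := h.pr2.cov k
      rw [hid, sub_self, add_zero] at hv
      exact key k hc h.gk k2 (Or.inr rfl) j hv.symm

/-- the subgroup of the `v` with `φ v - v` in `{0, k}` -/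
def D : AddSubgroup A where
  carrier := {v | φ v - v = 0 ∨ φ v - v = k}
  add_mem' := by
    intro a b ha hb
    have e : φ (a + b) - (a + b) = (φ a - a) + (φ b - b) := by rw [map_add]; abel
    change φ (a + b) - (a + b) = 0 ∨ φ (a + b) - (a + b) = k
    rw [e]
    exact (pairS k h.k2).add_mem ha hb
  zero_mem' := by left; simp
  neg_mem' := by
    intro a ha
    have e : φ (-a) - (-a) = -(φ a - a) := by rw [map_neg]; abel
    change φ (-a) - (-a) = 0 ∨ φ (-a) - (-a) = k
    rw [e]
    exact (pairS k h.k2).neg_mem ha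

theorem z_not_mem_D : z ∉ h.D := fun hz => h.la hz

theorem k_mem_D : k ∈ h.D := by left; rw [h.fk, sub_self]

theorem zz_mem_D : z + z ∈ h.D := by
  rcases h.sq with h1 | h1 <;> rw [h1]
  · exact h.D.zero_mem
  · exact h.k_mem_D

theorem a_mem_D : φ z - z ∈ h.D := by
  rcases h.xx with h1 | h1
  · left; rw [h1, sub_self]
  · right; rw [h1]; abel

theorem b_mem_D : ψ z - z ∈ h.D := by
  change φ (ψ z - z) - (ψ z - z) = 0 ∨ φ (ψ z - z) - (ψ z - z) = k
  rw [h.xb]
  rcases h.yx with h1 | h1
  · left; rw [h1, sub_self]
  · right; rw [h1]; abel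

/-- (LB) -/
theorem lb (hb : ¬ (ψ z - z = 0 ∨ ψ z - z = k))
    (hab : ¬ ((φ z - z) + (ψ z - z) = 0 ∨ (φ z - z) + (ψ z - z) = k)) :
    ¬ (φ (φ z - z) = φ z - z ∧ ψ (φ z - z) = φ z - z) := by
  rintro ⟨fa, ga⟩
  have hbD := h.b_mem_D
  have haD := h.a_mem_D
  have hzz := h.zz_mem_D
  have hk := h.k_mem_D
  have hzD := h.z_not_mem_D
  have a2 := h.a2
  have b2 := h.b2
  have hxb := h.xb
  have hyy := h.yy
  obtain ⟨b, hbdef⟩ : ∃ b, b = ψ z - z := ⟨_, rfl⟩
  obtain ⟨a, hadef⟩ : ∃ a, a = φ z - z := ⟨_, rfl⟩
  have hz : ψ z = z + b := by rw [hbdef]; abel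
  have hza : φ z = z + a := by rw [hadef]; abel
  rw [← hadef] at fa ga haD a2 hab hxb
  rw [← hbdef] at hb hab hbD b2 hxb hyy
  have k2 := h.k2
  have z4 := h.z4
  have sq := h.sq
  have hXA := h.pr.sub_mem (pairS a a2) (by right; rw [hza]; abel) (by
    rintro c (rfl | rfl)
    · left; exact map_zero φ
    · right; exact fa) (by
    rintro c (rfl | rfl)
    · left; exact map_zero ψ
    · right; exact ga)
  obtain ⟨j, v, hv⟩ := h.pr.cov k
  obtain ⟨c, hc, gc, c2, hck⟩ : ∃ c, ψ b = b + c ∧ ψ c = c ∧ c + c = 0 ∧ (c = 0 ∨ c = k) := by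
    rcases hyy with h1 | h1
    · exact ⟨0, by rw [h1, add_zero], map_zero ψ, add_zero 0, Or.inl rfl⟩
    · exact ⟨k, h1, h.gk, k2, Or.inr rfl⟩
  have hcD : c ∈ h.D := by
    rcases hck with h1 | h1 <;> rw [h1]
    · exact h.D.zero_mem
    · exact hk
  have hla := h.la
  rw [← hadef] at hla
  -- write `k = S_j + w` with `w` in `{0, a}`
  obtain ⟨w, hw, hvw⟩ : ∃ w, (w = 0 ∨ w = a) ∧ k = (∑ i ∈ Finset.range j, ψ^[i] z) + w :=
    ⟨φ v - v, mem_pairS.1 (hXA v), hv⟩
  have hwD : w ∈ h.D := by
    rcases hw with h1 | h1 <;> rw [h1]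
    · exact h.D.zero_mem
    · exact haD
  rcases sum_cases hz hc gc b2 c2 z4 j with ⟨h1, -⟩ | ⟨h1, -⟩ | ⟨h1, -⟩ | ⟨h1, -⟩ <;> rw [h1] at hvw
  · rcases hw with rfl | rfl
    · exact h.kne (by rw [hvw]; simp)
    · exact hla (Or.inr (by rw [hvw]; simp))
  · apply hzD
    have e : z = k - w := by rw [hvw]; abel
    have m := h.D.sub_mem hk hwD
    rwa [← e] at m
  · have e : w + b = k - (z + z) := by rw [hvw]; abel
    have e2 : w + b = 0 ∨ w + b = k := by
      rw [e]
      rcases sq with s | s <;> rw [s]
      · right; abel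
      · left; abel
    rcases hw with rfl | rfl
    · rw [zero_add] at e2; exact hb e2
    · exact hab e2
  · apply hzD
    have e : z = k - (z + z) - b - c - w := by
      have h2 : z = (z + z + z + b + c + w) - (z + z) - b - c - w := by abel
      rw [← hvw] at h2
      exact h2
    have m := h.D.sub_mem (h.D.sub_mem (h.D.sub_mem (h.D.sub_mem hk hzz) hbD) hcD) hwD
    rwa [← e] at m

/-- (LC), (LD): the conclusion for one generating pair -/
theorem main (hb : ¬ (ψ z - z = 0 ∨ ψ z - z = k))
    (hab : ¬ ((φ z - z) + (ψ z - z) = 0 ∨ (φ z - z) + (ψ z - z) = k))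
    (P1 : ∃ i j : ℕ, φ^[i] (ψ^[j] z) = z + ψ (φ (ψ z - z) - (ψ z - z)))
    (P2 : (∀ u, φ (φ u) = u) → ∀ K : A → Prop, K z → (∀ c, K c → K (φ c)) →
      (∀ c, K c → K (-z - φ z + ψ c)) → K (z + ψ (φ (ψ z - z) - (ψ z - z)))) :
    φ (φ z - z) ≠ φ z - z := by
  intro fa
  have hlb := h.lb hb hab
  have hxb := h.xb
  have hyx := h.yx
  have hyy := h.yy
  have hla := h.la
  have a2 := h.a2
  have b2 := h.b2
  obtain ⟨b, hbdef⟩ : ∃ b, b = ψ z - z := ⟨_, rfl⟩
  obtain ⟨a, hadef⟩ : ∃ a, a = φ z - z := ⟨_, rfl⟩
  have hz : ψ z = z + b := by rw [hbdef]; abel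
  have hza : φ z = z + a := by rw [hadef]; abel
  rw [← hadef] at fa hlb a2 hab hxb hyx hla
  rw [← hbdef] at hb hab b2 hxb hyy P1 P2
  have k2 := h.k2
  have z4 := h.z4
  have sq := h.sq
  have ga : ψ a = a + k := by
    rcases hyx with h1 | h1
    · exact absurd ⟨fa, h1⟩ hlb
    · exact h1
  have fb : φ b = b + k := by
    rw [ga] at hxb
    have : φ b = b + (φ b - b) := by abel
    rw [this, hxb]; abel
  have e1 : ψ (φ b - b) = k := by
    have : φ b - b = k := by rw [fb]; abel
    rw [this, h.gk]
  rw [e1] at P1 P2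
  have nk : -k = k := neg_eq_of_add_eq_zero_left k2
  have nb : -b = b := neg_eq_of_add_eq_zero_left b2
  have gb : ψ b = b + k := by
    rcases hyy with gb | gb
    · exfalso
      obtain ⟨i, j, hij⟩ := P1
      have hstate : ∀ c, (c = z ∨ c = z + a ∨ c = z + b ∨ c = z + a + b + k) →
          (ψ c = z ∨ ψ c = z + a ∨ ψ c = z + b ∨ ψ c = z + a + b + k) := by
        rintro c (rfl | rfl | rfl | rfl)
        · right; right; left; exact hz
        · right; right; right
          rw [map_add, hz, ga]; abel
        · left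
          rw [map_add, hz, gb, add_assoc, b2, add_zero]
        · right; left
          rw [map_add, map_add, map_add, hz, ga, gb, h.gk]
          have : z + b + (a + k) + b + k = z + a + (b + b) + (k + k) := by abel
          rw [this, b2, k2]; abel
      have hstate' : ∀ c, (c = z ∨ c = z + a ∨ c = z + b ∨ c = z + a + b + k) →
          (φ c = z ∨ φ c = z + a ∨ φ c = z + b ∨ φ c = z + a + b + k) := by
        rintro c (rfl | rfl | rfl | rfl)
        · right; left; exact hza
        · left
          rw [map_add, hza, fa, add_assoc, a2, add_zero]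
        · right; right; right
          rw [map_add, hza, fb]; abel
        · right; right; left
          rw [map_add, map_add, map_add, hza, fa, fb, h.fk]
          have : z + a + a + (b + k) + k = z + b + (a + a) + (k + k) := by abel
          rw [this, a2, k2]; abel
      have h1 : ∀ j : ℕ, (ψ^[j] z = z ∨ ψ^[j] z = z + a ∨ ψ^[j] z = z + b ∨
          ψ^[j] z = z + a + b + k) := by
        intro j
        induction j with
        | zero => left; rfl
        | succ j ih => rw [Function.iterate_succ_apply']; exact hstate _ ih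
      have h2 : ∀ i : ℕ, (φ^[i] (ψ^[j] z) = z ∨ φ^[i] (ψ^[j] z) = z + a ∨
          φ^[i] (ψ^[j] z) = z + b ∨ φ^[i] (ψ^[j] z) = z + a + b + k) := by
        intro i
        induction i with
        | zero => exact h1 j
        | succ i ih => rw [Function.iterate_succ_apply']; exact hstate' _ ih
      have h3 := h2 i
      rw [hij] at h3
      rcases h3 with h3 | h3 | h3 | h3
      · exact h.kne (by
          have : z + k = z + 0 := by rw [h3, add_zero]
          exact add_left_cancel this)
      · exact hla (Or.inr (add_left_cancel h3).symm)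
      · exact hb (Or.inr (add_left_cancel h3).symm)
      · apply hab; left
        have : z + k = z + k + (a + b) := h3.trans (by abel)
        have h4 : z + k + 0 = z + k + (a + b) := by rw [add_zero]; exact this
        exact (add_left_cancel h4).symm
    · exact gb
  have hid : ∀ u, φ (φ u) = u := by
    let B : AddSubgroup A :=
      { carrier := {v | φ (φ v) = v}
        add_mem' := by
          intro a b ha hb
          change φ (φ (a + b)) = a + b
          rw [map_add, map_add, ha, hb]
        zero_mem' := by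
          change φ (φ 0) = 0
          rw [map_zero, map_zero]
        neg_mem' := by
          intro a ha
          change φ (φ (-a)) = -a
          rw [map_neg, map_neg, ha] }
    refine h.pr.gen B ?_ ?_ ?_
    · change φ (φ z) = z
      rw [hza, map_add, hza, fa, add_assoc, a2, add_zero]
    · intro c hc
      change φ (φ (φ c)) = φ c
      rw [show φ (φ c) = c from hc]
    · intro c hc
      change φ (φ (ψ c)) = ψ c
      rw [h.pr.comm, h.pr.comm, show φ (φ c) = c from hc]
  have hK := P2 hid (fun c => c = z ∨ c = z + a ∨ c = z + z + z + a + b ∨ c = z + z + z + b + k)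
    (Or.inl rfl) (by
      rintro c (hc | hc | hc | hc) <;> simp only [hc]
      · right; left; exact hza
      · left
        rw [map_add, hza, fa, add_assoc, a2, add_zero]
      · right; right; right
        rw [map_add, map_add, map_add, map_add, hza, fa, fb]
        have : z + a + (z + a) + (z + a) + a + (b + k) = z + z + z + b + k + (a + a) + (a + a) := by
          abel
        rw [this, a2]; simp
      · right; right; left
        rw [map_add, map_add, map_add, map_add, hza, fb, h.fk]
        have : z + a + (z + a) + (z + a) + (b + k) + k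
            = z + z + z + a + b + (a + a) + (k + k) := by abel
        rw [this, a2, k2]; simp) (by
      rw [hza]
      rintro c (hc | hc | hc | hc) <;> simp only [hc]
      · right; right; left
        rw [hz]
        have : -z - (z + a) + (z + b) = (z + z + z + a + b) - (z + z + (z + z)) - (a + a) := by abel
        rw [this, z4, a2]; simp
      · right; right; right
        rw [map_add, hz, ga]
        have : -z - (z + a) + (z + b + (a + k)) = (z + z + z + b + k) - (z + z + (z + z)) := by abel
        rw [this, z4]; simp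
      · left
        rw [map_add, map_add, map_add, map_add, hz, ga, gb]
        have : -z - (z + a) + (z + b + (z + b) + (z + b) + (a + k) + (b + k))
            = z + (b + b) + (b + b) + (k + k) := by abel
        rw [this, b2, k2]; simp
      · right; left
        rw [map_add, map_add, map_add, map_add, hz, gb, h.gk]
        have : -z - (z + a) + (z + b + (z + b) + (z + b) + (b + k) + k)
            = z + a + (b + b) + (b + b) + (k + k) - (a + a) := by abel
        rw [this, b2, k2, a2]; simp)
  rcases hK with h3 | h3 | h3 | h3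
  · exact h.kne (by
      have : z + k = z + 0 := by rw [h3, add_zero]
      exact add_left_cancel this)
  · exact hla (Or.inr (add_left_cancel h3).symm)
  · have e : a + b = k - (z + z) := by
      have h4 : z + k = z + (z + z + a + b) := h3.trans (by abel)
      rw [add_left_cancel h4]; abel
    apply hab
    rw [e]
    rcases sq with s | s <;> rw [s]
    · right; abel
    · left; abel
  · have e : b = -(z + z) := by
      have h4 : z + k = z + k + (z + z + b) := h3.trans (by abel)
      have h5 : z + k + 0 = z + k + (z + z + b) := by rw [add_zero]; exact h4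
      have h6 := add_left_cancel h5
      have : b = (z + z + b) - (z + z) := by abel
      rw [this, ← h6]; abel
    apply hb
    rw [e]
    rcases sq with s | s <;> rw [s]
    · left; simp
    · right; exact nk

end TwoCfg

/-- odd `p`: one generating pair -/
theorem odd_abs {p : ℕ} (hp : p.Prime) (hp2 : p ≠ 2) (hexp : ∀ u : A, p • u = 0) {z : A}
    {φ ψ : A →+ A} (h : Pr z φ ψ) (xx : φ (φ z - z) = φ z - z) (yx : ψ (φ z - z) = φ z - z)
    (yy : ψ (ψ z - z) = ψ z - z) : ψ z - z ∈ AddSubgroup.zmultiples (φ z - z) := by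
  have xb : φ (ψ z - z) - (ψ z - z) = ψ (φ z - z) - (φ z - z) := by
    rw [map_sub, map_sub, h.comm]; abel
  rw [yx, sub_self] at xb
  obtain ⟨b, hbdef⟩ : ∃ b, b = ψ z - z := ⟨_, rfl⟩
  obtain ⟨a, hadef⟩ : ∃ a, a = φ z - z := ⟨_, rfl⟩
  have hz : ψ z = z + b := by rw [hbdef]; abel
  have hza : φ z = z + a := by rw [hadef]; abel
  rw [← hadef] at xx yx ⊢
  rw [← hbdef] at xb yy ⊢
  have fb : φ b = b := sub_eq_zero.1 xb
  have hXA := h.sub_mem (AddSubgroup.zmultiples a) (by rw [← hadef]; exact AddSubgroup.mem_zmultiples a)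
    (by
      rintro _ ⟨n, rfl⟩
      refine ⟨n, ?_⟩
      change n • a = φ (n • a)
      rw [map_zsmul, xx]) (by
      rintro _ ⟨n, rfl⟩
      refine ⟨n, ?_⟩
      change n • a = ψ (n • a)
      rw [map_zsmul, yx])
  obtain ⟨j, v, hv⟩ := h.cov b
  have hS : ∀ j : ℕ, (∑ i ∈ Finset.range j, ψ^[i] z) = j • z + (j.choose 2) • b ∧
      ψ^[j] z = z + j • b := by
    intro j
    induction j with
    | zero => simp
    | succ j ih =>
      rw [Finset.sum_range_succ, Function.iterate_succ_apply', ih.1, ih.2]
      constructor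
      · have : (j + 1).choose 2 = j.choose 2 + j := by
          rw [Nat.choose_succ_succ' j 1, Nat.choose_one_right]; ring
        rw [this]
        rw [add_smul, add_smul, one_smul]
        abel
      · rw [map_add, map_nsmul, hz, yy, add_smul, one_smul]; abel
  rw [(hS j).1] at hv
  have hva := hXA v
  by_cases hpj : p ∣ j
  · obtain ⟨t, rfl⟩ := hpj
    have e1 : (p * t) • z = 0 := by rw [mul_comm, mul_smul, hexp, smul_zero]
    have e2 : ((p * t).choose 2) • b = 0 := by
      have hd : p ∣ (p * t).choose 2 := by
        have h2 : (p * t).choose 2 * 2 = (p * t) * (p * t - 1) := by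
          have := Nat.choose_two_right (p * t)
          rw [this]
          exact Nat.div_mul_cancel (Nat.even_mul_pred_self (p * t)).two_dvd
        have h3 : p ∣ (p * t).choose 2 * 2 := by
          rw [h2, mul_assoc]; exact Dvd.intro _ rfl
        rcases hp.dvd_mul.1 h3 with h4 | h4
        · exact h4
        · exact absurd ((Nat.prime_dvd_prime_iff_eq hp Nat.prime_two).1 h4) hp2
      obtain ⟨s, hs⟩ := hd
      rw [hs, mul_comm, mul_smul, hexp, smul_zero]
    rw [e1, e2, zero_add, zero_add] at hv
    rw [hv]; exact hva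
  · -- then `z` is fixed by both
    obtain ⟨r, hr⟩ : ∃ r : ℤ, r • (j • z) = z := by
      have hco : IsCoprime (j : ℤ) (p : ℤ) := by
        rw [Nat.isCoprime_iff_coprime]
        exact ((Nat.Prime.coprime_iff_not_dvd hp).2 hpj).symm
      obtain ⟨r, s, hrs⟩ := hco
      refine ⟨r, ?_⟩
      have : (r * j + s * p) • z = z := by rw [hrs, one_smul]
      rw [add_smul, mul_smul, mul_smul, natCast_zsmul, natCast_zsmul, hexp, smul_zero,
        add_zero] at this
      exact this
    have hfix : ψ (j • z) = j • z := by
      have e1 : j • z = b - (j.choose 2) • b - (φ v - v) := by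
        have h2 : j • z = (j • z + (j.choose 2) • b + (φ v - v)) - (j.choose 2) • b - (φ v - v) := by
          abel
        rw [← hv] at h2
        exact h2
      obtain ⟨n, hn⟩ := hva
      have hn' : n • a = φ v - v := hn
      rw [← hn'] at e1
      rw [e1, map_sub, map_sub, map_nsmul, map_zsmul, yy, yx]
    have : ψ z = z := by
      rw [← hr, map_zsmul, hfix]
    have hb0 : b = 0 := by
      rw [hz] at this
      have h2 : z + b = z + 0 := by rw [this, add_zero]
      exact add_left_cancel h2
    rw [hb0]; exact zero_mem _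

end Pool.Agent.Helper721_C
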