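import Mathlib
import Pool.Agent.Helper832.AutC.Burnside

/-!
# Class-preserving automorphisms of p-groups: base file
-/

set_option autoImplicit false

open scoped commutatorElement

namespace Pool.Agent.Helper721_C

open Pool.Agent.Helper832.AutC

variable {G : Type} [Group G]

/-- class-preserving automorphisms -/
def CP (α : G ≃* G) : Prop := ∀ w : G, IsConj w (α w)

theorem CP.comm_mem {α : G ≃* G} (h : CP α) (w : G) : w⁻¹ * α w ∈ commutator G := by
  obtain ⟨c, hc⟩ := isConj_iff.1 (h w)
  rw [← hc]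
  have : w⁻¹ * (c * w * c⁻¹) = ⁅w⁻¹, c⁆ := by rw [commutatorElement_def]; group
  rw [this]
  exact Subgroup.commutator_mem_commutator (Subgroup.mem_top _) (Subgroup.mem_top _)

/-- all choices of images are realised -/
def PP (G : Type) [Group G] (d : ℕ) : Prop :=
  ∀ x : Fin d → G, Subgroup.closure (Set.range x) = ⊤ → ∀ g : Fin d → G,
    (∀ i, g i ∈ commutator G) → ∃ α : G ≃* G, CP α ∧ ∀ i, α (x i) = x i * g i

/-- the same for generating pairs -/
def PP2 (G : Type) [Group G] : Prop :=
  ∀ x y : G, Subgroup.closure {x, y} = ⊤ → ∀ g ∈ commutator G, ∀ h ∈ commutator G,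
    ∃ α : G ≃* G, CP α ∧ α x = x * g ∧ α y = y * h

theorem PP.two (h : PP G 2) : PP2 G := by
  intro x y hxy g hg k hk
  have h1 : Set.range ![x, y] = {x, y} := by
    ext w
    simp [or_comm, eq_comm]
  obtain ⟨α, hα, hα'⟩ := h ![x, y] (by rw [h1]; exact hxy) ![g, k] (by
    intro i; fin_cases i
    · exact hg
    · exact hk)
  exact ⟨α, hα, hα' 0, hα' 1⟩

theorem inj_aux {d : ℕ} (x : Fin d → G) (hx : Subgroup.closure (Set.range x) = ⊤) :
    Function.Injective (fun (α : {α : G ≃* G // CP α}) (i : Fin d) =>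
      (⟨(x i)⁻¹ * α.1 (x i), α.2.comm_mem (x i)⟩ : commutator G)) := by
  intro α β h
  apply Subtype.ext
  have h1 : (α.1 : G →* G) = (β.1 : G →* G) := by
    refine MonoidHom.eq_of_eqOn_dense hx ?_
    rintro _ ⟨i, rfl⟩
    have h2 := congrArg Subtype.val (congrFun h i)
    simpa using h2
  exact MulEquiv.ext (fun g => DFunLike.congr_fun h1 g)

theorem card_le [Finite G] {d : ℕ} (x : Fin d → G) (hx : Subgroup.closure (Set.range x) = ⊤) :
    Nat.card {α : G ≃* G // CP α} ≤ Nat.card (commutator G) ^ d := by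
  have h := Nat.card_le_card_of_injective _ (inj_aux x hx)
  rwa [Nat.card_fun, Nat.card_eq_fintype_card (α := Fin d), Fintype.card_fin] at h

theorem PP_of_card [Finite G] {d : ℕ}
    (h : Nat.card {α : G ≃* G // CP α} = Nat.card (commutator G) ^ d) : PP G d := by
  intro x hx g hg
  have hcard : Nat.card (Fin d → commutator G) ≤ Nat.card {α : G ≃* G // CP α} := by
    rw [Nat.card_fun, Nat.card_eq_fintype_card (α := Fin d), Fintype.card_fin, h]
  have hbij := (inj_aux x hx).bijective_of_nat_card_le hcard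
  obtain ⟨α, hα⟩ := hbij.2 (fun i => ⟨g i, hg i⟩)
  refine ⟨α.1, α.2, fun i => ?_⟩
  have h2 := congrArg Subtype.val (congrFun hα i)
  simp only at h2
  rw [← h2]; group

/-- `[x, G] = G'` for `x` in a generating pair -/
def Star (G : Type) [Group G] : Prop :=
  ∀ x y : G, Subgroup.closure {x, y} = ⊤ → ∀ u ∈ commutator G, ∃ g : G, ⁅x, g⁆ = u

theorem star_aux {x : G} (h : ∀ g ∈ commutator G, ∃ α : G ≃* G, CP α ∧ α x = x * g) :
    ∀ u ∈ commutator G, ∃ g : G, ⁅x, g⁆ = u := by
  intro u hu
  have hn : (commutator G).Normal := inferInstance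
  obtain ⟨α, hα, hα'⟩ := h (x⁻¹ * u⁻¹ * x) (by
    have := hn.conj_mem _ (inv_mem hu) x⁻¹
    rwa [inv_inv] at this)
  obtain ⟨c, hc⟩ := isConj_iff.1 (hα x)
  refine ⟨c, ?_⟩
  rw [hα'] at hc
  rw [commutatorElement_def]
  have h1 : x * c * x⁻¹ * c⁻¹ = x * (c * x * c⁻¹)⁻¹ := by group
  rw [h1, hc]; group

theorem PP2.star (h : PP2 G) : Star G := by
  intro x y hxy
  apply star_aux
  intro g hg
  obtain ⟨α, hα, h1, -⟩ := h x y hxy g hg 1 (one_mem _)
  exact ⟨α, hα, h1⟩

/-- exchange: an element outside the Frattini subgroup lies in a generating family of the same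
length -/
theorem exchange {p : ℕ} [hp : Fact p.Prime] [Finite G] (hG : IsPGroup p G) {d : ℕ}
    (x : Fin d → G) (hx : Subgroup.closure (Set.range x) = ⊤) {w : G} (hw : w ∉ frattini G) :
    ∃ (x' : Fin d → G) (i : Fin d), Subgroup.closure (Set.range x') = ⊤ ∧ x' i = w := by
  classical
  obtain ⟨hF1, hF2⟩ := frattini_facts hG
  let V := G ⧸ frattini G
  letI : CommGroup V :=
    { (inferInstance : Group (G ⧸ frattini G)) with
      mul_comm := by
        intro a b
        obtain ⟨a, rfl⟩ := QuotientGroup.mk'_surjective (frattini G) a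
        obtain ⟨b, rfl⟩ := QuotientGroup.mk'_surjective (frattini G) b
        rw [← commutatorElement_eq_one_iff_mul_comm, ← map_commutatorElement]
        exact (QuotientGroup.eq_one_iff _).mpr (hF1 a b) }
  let π : G →* V := QuotientGroup.mk' (frattini G)
  have hπs : Function.Surjective π := QuotientGroup.mk'_surjective (frattini G)
  have hexp : ∀ v : V, v ^ p = 1 := by
    intro v
    obtain ⟨a, rfl⟩ := hπs v
    rw [← map_pow]
    exact (QuotientGroup.eq_one_iff _).mpr (hF2 a)
  obtain ⟨a, ha⟩ := exists_exp (fun i => π (x i)) (π w) (by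
    have e1 : Set.range (fun i => π (x i)) = π '' Set.range x := Set.range_comp π x
    rw [e1, ← MonoidHom.map_closure, hx, Subgroup.map_top_of_surjective _ hπs]
    exact Subgroup.mem_top _)
  have hi : ∃ i, ¬ (p : ℤ) ∣ a i := by
    by_contra hcon
    push Not at hcon
    apply hw
    rw [← QuotientGroup.eq_one_iff]
    change π w = 1
    rw [ha]
    apply Finset.prod_eq_one
    intro i _
    obtain ⟨t, ht⟩ := hcon i
    rw [ht, zpow_mul, zpow_natCast, hexp, one_zpow]
  obtain ⟨i, hi⟩ := hi
  refine ⟨Function.update x i w, i, ?_, Function.update_self i w x⟩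
  apply frattini_nongenerating
  rw [eq_top_iff, ← hx, Subgroup.closure_le]
  set H := Subgroup.closure (Set.range (Function.update x i w)) ⊔ frattini G with hH
  have hle : Subgroup.closure (Set.range (Function.update x i w)) ≤ H := le_sup_left
  have hw' : w ∈ H := hle (Subgroup.subset_closure ⟨i, Function.update_self i w x⟩)
  have hother : ∀ j, j ≠ i → x j ∈ H := fun j hj =>
    hle (Subgroup.subset_closure ⟨j, Function.update_of_ne hj w x⟩)
  rintro _ ⟨j, rfl⟩
  by_cases hj : j = i
  · subst hj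
    have hker : ∀ u : G, π u ∈ H.map π → u ∈ H := by
      rintro u ⟨h, hh, hhu⟩
      have e2 : h⁻¹ * u ∈ frattini G := QuotientGroup.eq.mp hhu
      have e3 : u = h * (h⁻¹ * u) := by group
      rw [e3]
      exact mul_mem hh ((le_sup_right : frattini G ≤ H) e2)
    apply hker
    have h1 : π (x j) ^ a j ∈ H.map π := by
      have h2 : π w = π (x j) ^ a j * ∏ i ∈ Finset.univ.erase j, π (x i) ^ a i := by
        rw [ha]
        exact (Finset.mul_prod_erase Finset.univ (fun i => π (x i) ^ a i) (Finset.mem_univ j)).symm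
      have h3 : ∏ i ∈ Finset.univ.erase j, π (x i) ^ a i ∈ H.map π := by
        refine Subgroup.prod_mem _ (fun l hl => ?_)
        exact zpow_mem (Subgroup.mem_map_of_mem π (hother l (Finset.ne_of_mem_erase hl))) _
      have h4 : π (x j) ^ a j = π w * (∏ i ∈ Finset.univ.erase j, π (x i) ^ a i)⁻¹ := by
        rw [h2, mul_inv_cancel_right]
      rw [h4]
      exact mul_mem (Subgroup.mem_map_of_mem π hw') (inv_mem h3)
    have h4 : IsCoprime (a j) (p : ℤ) := by
      rw [isCoprime_comm]
      exact (Prime.coprime_iff_not_dvd (Nat.prime_iff_prime_int.mp hp.out)).mpr hi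
    obtain ⟨r, s, hrs⟩ := h4
    have h5 : π (x j) = (π (x j) ^ a j) ^ r := by
      rw [← zpow_mul]
      have e2 : a j * r = 1 + (p : ℤ) * (-s) := by linarith
      rw [e2, zpow_add, zpow_one, zpow_mul, zpow_natCast, hexp, one_zpow, mul_one]
    rw [h5]
    exact zpow_mem h1 r
  · exact hother j hj

/-- the property passes to quotients by subgroups of the Frattini subgroup -/
theorem PP.quot {d : ℕ} [Finite G] (h : PP G d) (N : Subgroup G) [hN : N.Normal]
    (hNF : N ≤ frattini G) : PP (G ⧸ N) d := by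
  intro x hx g hg
  have hsur := QuotientGroup.mk'_surjective N
  choose y hy using fun i => hsur (x i)
  have hcm : ∀ u ∈ commutator (G ⧸ N), ∃ v ∈ commutator G, QuotientGroup.mk' N v = u := by
    intro u hu
    have h1 : (commutator G).map (QuotientGroup.mk' N) = commutator (G ⧸ N) := by
      rw [commutator_def, commutator_def, Subgroup.map_commutator,
        Subgroup.map_top_of_surjective _ hsur]
    rw [← h1] at hu
    obtain ⟨v, hv, hvu⟩ := hu
    exact ⟨v, hv, hvu⟩
  choose k hk hk' using fun i => hcm (g i) (hg i)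
  have hy' : Subgroup.closure (Set.range y) = ⊤ := by
    apply frattini_nongenerating
    rw [eq_top_iff]
    intro u _
    have h1 : QuotientGroup.mk' N u ∈ (Subgroup.closure (Set.range y)).map (QuotientGroup.mk' N) := by
      rw [MonoidHom.map_closure, ← Set.range_comp]
      have : (QuotientGroup.mk' N ∘ y) = x := funext hy
      rw [this, hx]
      exact Subgroup.mem_top _
    obtain ⟨v, hv, hvu⟩ := h1
    have e2 : v⁻¹ * u ∈ N := QuotientGroup.eq.mp hvu
    have e3 : u = v * (v⁻¹ * u) := by group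
    rw [e3]
    exact mul_mem ((le_sup_left : Subgroup.closure (Set.range y) ≤ _) hv)
      ((le_sup_right : frattini G ≤ _) (hNF e2))
  obtain ⟨α, hα, hα'⟩ := h y hy' k hk
  have hαN : N.map (α : G →* G) = N := by
    apply le_antisymm
    · rintro _ ⟨n, hn, rfl⟩
      obtain ⟨c, hc⟩ := isConj_iff.1 (hα n)
      change α n ∈ N
      rw [← hc]
      exact hN.conj_mem n hn c
    · intro n hn
      refine ⟨α.symm n, ?_, α.apply_symm_apply n⟩
      obtain ⟨c, hc⟩ := isConj_iff.1 (hα (α.symm n))
      rw [α.apply_symm_apply] at hc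
      have h1 : α.symm n = c⁻¹ * n * c⁻¹⁻¹ := by
        calc α.symm n = c⁻¹ * (c * α.symm n * c⁻¹) * c⁻¹⁻¹ := by group
          _ = _ := by rw [hc]
      change α.symm n ∈ N
      rw [h1]
      exact hN.conj_mem n hn c⁻¹
  refine ⟨QuotientGroup.congr N N α hαN, ?_, ?_⟩
  · intro w
    obtain ⟨w, rfl⟩ := hsur w
    obtain ⟨c, hc⟩ := isConj_iff.1 (hα w)
    rw [isConj_iff]
    refine ⟨QuotientGroup.mk' N c, ?_⟩
    have h1 : QuotientGroup.congr N N α hαN (QuotientGroup.mk' N w) = QuotientGroup.mk' N (α w) :=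
      rfl
    rw [h1, ← hc, map_mul, map_mul, map_inv]
  · intro i
    have h1 : QuotientGroup.congr N N α hαN (QuotientGroup.mk' N (y i))
        = QuotientGroup.mk' N (α (y i)) := rfl
    rw [← hy i, h1, hα' i, map_mul, hk' i]

end Pool.Agent.Helper721_C
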