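import Mathlib
import Pool.Agent.Helper721_C.Base
import Pool.Agent.Helper721_C.Abs

/-!
# The action of a two-generator group on its abelian derived subgroup
-/

set_option autoImplicit false

open scoped commutatorElement

namespace Pool.Agent.Helper721_C

variable {G : Type} [Group G]

/-- the derived subgroup is abelian -/
class AbD (G : Type) [Group G] : Prop where
  comm : ∀ u ∈ commutator G, ∀ v ∈ commutator G, u * v = v * u

instance cgD [AbD G] : CommGroup (commutator G) :=
  { (inferInstance : Group (commutator G)) with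
    mul_comm := fun u v => Subtype.ext (AbD.comm u.1 u.2 v.1 v.2) }

/-- the derived subgroup, written additively -/
abbrev DA (G : Type) [Group G] : Type := Additive (commutator G)

/-- the underlying element -/
def val (u : DA G) : G := (Additive.toMul u : commutator G)

/-- an element of the derived subgroup -/
def mk (u : G) (hu : u ∈ commutator G) : DA G := Additive.ofMul ⟨u, hu⟩

@[simp] theorem val_mk (u : G) (hu : u ∈ commutator G) : val (mk u hu) = u := rfl

theorem val_mem (u : DA G) : val u ∈ commutator G := (Additive.toMul u).2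

theorem val_inj {u v : DA G} (h : val u = val v) : u = v := Subtype.ext h

theorem mk_val (u : DA G) : mk (val u) (val_mem u) = u := rfl

variable [AbD G]

@[simp] theorem val_add (u v : DA G) : val (u + v) = val u * val v := rfl
@[simp] theorem val_zero : val (0 : DA G) = 1 := rfl
@[simp] theorem val_neg (u : DA G) : val (-u) = (val u)⁻¹ := rfl
@[simp] theorem val_sub (u v : DA G) : val (u - v) = val u * (val v)⁻¹ := by
  rw [sub_eq_add_neg, val_add, val_neg]

theorem val_comm (u v : DA G) : val u * val v = val v * val u :=
  AbD.comm _ (val_mem u) _ (val_mem v)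

/-- conjugation -/
def act (g : G) : DA G →+ DA G where
  toFun u := mk (g * val u * g⁻¹) ((inferInstance : (commutator G).Normal).conj_mem _ (val_mem u) g)
  map_zero' := by apply val_inj; simp
  map_add' u v := by apply val_inj; simp

@[simp] theorem val_act (g : G) (u : DA G) : val (act g u) = g * val u * g⁻¹ := rfl

theorem act_mul (g h : G) (u : DA G) : act (g * h) u = act g (act h u) := by
  apply val_inj; simp [mul_assoc]

theorem act_of_mem {g : G} (hg : g ∈ commutator G) (u : DA G) : act g u = u := by
  apply val_inj
  rw [val_act, AbD.comm g hg _ (val_mem u), mul_inv_cancel_right]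

theorem act_comm (g h : G) (u : DA G) : act g (act h u) = act h (act g u) := by
  have e : g * h = ⁅g, h⁆ * (h * g) := by rw [commutatorElement_def]; group
  have hm : ⁅g, h⁆ ∈ commutator G :=
    Subgroup.commutator_mem_commutator (Subgroup.mem_top _) (Subgroup.mem_top _)
  rw [← act_mul, ← act_mul, e, act_mul ⁅g, h⁆, act_of_mem hm]

theorem act_pow (g : G) (i : ℕ) (u : DA G) : act (g ^ i) u = (act g)^[i] u := by
  induction i with
  | zero => apply val_inj; simp
  | succ i ih =>
    rw [pow_succ', act_mul, ih, Function.iterate_succ_apply']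

omit [AbD G] in
theorem comm_mem (g h : G) : ⁅g, h⁆ ∈ commutator G :=
  Subgroup.commutator_mem_commutator (Subgroup.mem_top _) (Subgroup.mem_top _)

/-- the commutator as an element of `DA G` -/
def cm (g h : G) : DA G := mk ⁅g, h⁆ (comm_mem g h)

omit [AbD G] in
@[simp] theorem val_cm (g h : G) : val (cm g h) = ⁅g, h⁆ := rfl

/-- `[x, y^j] = S_j` -/
theorem cm_pow (x y : G) (j : ℕ) :
    cm x (y ^ j) = ∑ i ∈ Finset.range j, (act y)^[i] (cm x y) := by
  induction j with
  | zero => apply val_inj; simp
  | succ j ih =>
    rw [Finset.sum_range_succ, ← ih, ← act_pow]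
    apply val_inj
    simp only [val_cm, val_add, val_act, commutatorElement_def]
    rw [pow_succ]; group

omit [AbD G] in
/-- normal form -/
theorem exists_form [Finite G] {x y : G} (hxy : Subgroup.closure {x, y} = ⊤) (g : G) :
    ∃ (i j : ℕ) (v : G), v ∈ commutator G ∧ g = x ^ i * y ^ j * v := by
  let π : G →* Abelianization G := Abelianization.of
  have h1 : Subgroup.closure {π x, π y} = ⊤ := by
    have h2 : ({π x, π y} : Set (Abelianization G)) = π '' {x, y} := by
      rw [Set.image_pair]
    rw [h2, ← MonoidHom.map_closure, hxy]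
    exact Subgroup.map_top_of_surjective _ (QuotientGroup.mk'_surjective _)
  have h3 : π g ∈ Subgroup.closure {π x, π y} := by rw [h1]; exact Subgroup.mem_top _
  rw [Subgroup.mem_closure_pair] at h3
  obtain ⟨m, n, hmn⟩ := h3
  obtain ⟨i, hi⟩ : ∃ i : ℕ, x ^ i = x ^ m :=
    (mem_powers_iff_mem_zpowers.2 ⟨m, rfl⟩ : x ^ m ∈ Submonoid.powers x)
  obtain ⟨j, hj⟩ : ∃ j : ℕ, y ^ j = y ^ n :=
    (mem_powers_iff_mem_zpowers.2 ⟨n, rfl⟩ : y ^ n ∈ Submonoid.powers y)
  refine ⟨i, j, (x ^ i * y ^ j)⁻¹ * g, ?_, by group⟩
  have h4 : π (x ^ i * y ^ j) = π g := by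
    rw [hi, hj, map_mul, map_zpow, map_zpow, hmn]
  exact QuotientGroup.eq.mp h4

/-- the main lemma: `Pr` for generating pairs -/
theorem pr_of [Finite G] (hS : Star G) {x y : G} (hxy : Subgroup.closure {x, y} = ⊤) :
    Pr (cm x y) (act x) (act y) := by
  refine ⟨act_comm x y, ?_, ?_⟩
  · intro B hz h1 h2
    let N : Subgroup G :=
      { carrier := {g | ∃ u ∈ B, val u = g}
        mul_mem' := by
          rintro _ _ ⟨u, hu, rfl⟩ ⟨v, hv, rfl⟩
          exact ⟨u + v, B.add_mem hu hv, rfl⟩
        one_mem' := ⟨0, B.zero_mem, rfl⟩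
        inv_mem' := by
          rintro _ ⟨u, hu, rfl⟩
          exact ⟨-u, B.neg_mem hu, rfl⟩ }
    have hx : x ∈ Subgroup.normalizer (N : Set G) := by
      apply Subgroup.mem_normalizer_fintype
      rintro _ ⟨u, hu, rfl⟩
      exact ⟨act x u, h1 u hu, rfl⟩
    have hy : y ∈ Subgroup.normalizer (N : Set G) := by
      apply Subgroup.mem_normalizer_fintype
      rintro _ ⟨u, hu, rfl⟩
      exact ⟨act y u, h2 u hu, rfl⟩
    have hN : N.Normal := by
      rw [← Subgroup.normalizer_eq_top_iff, eq_top_iff, ← hxy, Subgroup.closure_le]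
      rintro g (rfl | rfl)
      · exact hx
      · exact hy
    have hle : commutator G ≤ N := by
      let π := QuotientGroup.mk' N
      have hπ : Function.Surjective π := QuotientGroup.mk'_surjective N
      have hcom : π x * π y = π y * π x := by
        rw [← commutatorElement_eq_one_iff_mul_comm, ← map_commutatorElement,
          ← MonoidHom.mem_ker, QuotientGroup.ker_mk']
        exact ⟨cm x y, hz, rfl⟩
      have htop : Subgroup.closure {π x, π y} = ⊤ := by
        have h2 : ({π x, π y} : Set (G ⧸ N)) = π '' {x, y} := by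
          rw [Set.image_pair]
        rw [h2, ← MonoidHom.map_closure, hxy]
        exact Subgroup.map_top_of_surjective _ hπ
      have hcen : Subgroup.center (G ⧸ N) = ⊤ := by
        rw [eq_top_iff, ← htop, Subgroup.closure_le]
        have key : ∀ w : G ⧸ N, w * π x = π x * w → w * π y = π y * w →
            w ∈ Subgroup.center (G ⧸ N) := by
          intro w hw1 hw2
          have h3 : Subgroup.closure {π x, π y} ≤ Subgroup.centralizer {w} := by
            rw [Subgroup.closure_le]
            rintro g (rfl | rfl)
            · exact Subgroup.mem_centralizer_singleton_iff.2 hw1.symm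
            · exact Subgroup.mem_centralizer_singleton_iff.2 hw2.symm
          rw [htop] at h3
          rw [Subgroup.mem_center_iff]
          intro g
          exact Subgroup.mem_centralizer_singleton_iff.1 (h3 (Subgroup.mem_top g))
        rintro g (rfl | rfl)
        · exact key _ rfl hcom
        · exact key _ hcom.symm rfl
      rw [commutator_def, Subgroup.commutator_le]
      intro a _ b _
      rw [← QuotientGroup.ker_mk' N, MonoidHom.mem_ker, map_commutatorElement,
        commutatorElement_eq_one_iff_mul_comm]
      have h4 : QuotientGroup.mk' N b ∈ Subgroup.center (G ⧸ N) := by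
        rw [hcen]; exact Subgroup.mem_top _
      exact (Subgroup.mem_center_iff.1 h4 _)
    intro u
    obtain ⟨v, hv, hvu⟩ := hle (val_mem u)
    rw [← val_inj hvu]
    exact hv
  · intro u
    obtain ⟨g, hg⟩ := hS x y hxy (val u) (val_mem u)
    obtain ⟨i, j, v, hv, rfl⟩ := exists_form hxy g
    -- the subgroup of the `φ w - w`
    let R : AddSubgroup (DA G) :=
      { carrier := {w | ∃ t, w = act x t - t}
        add_mem' := by
          rintro _ _ ⟨s, rfl⟩ ⟨t, rfl⟩
          exact ⟨s + t, by rw [map_add]; abel⟩
        zero_mem' := ⟨0, by rw [map_zero, sub_zero]⟩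
        neg_mem' := by
          rintro _ ⟨s, rfl⟩
          exact ⟨-s, by rw [map_neg]; abel⟩ }
    have hR1 : ∀ (i : ℕ) (w : DA G), act (x ^ i) w - w ∈ R := by
      intro i w
      induction i with
      | zero => exact ⟨0, by rw [pow_zero, map_zero, sub_zero]; apply val_inj; simp⟩
      | succ i ih =>
        have e : act (x ^ (i + 1)) w - w
            = (act x (act (x ^ i) w) - act (x ^ i) w) + (act (x ^ i) w - w) := by
          rw [pow_succ', act_mul]; abel
        rw [e]
        exact R.add_mem ⟨_, rfl⟩ ih
    have e1 : u = act (x ^ i) (cm x (y ^ j) + act (y ^ j) (act x (mk v hv) - mk v hv)) := by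
      apply val_inj
      rw [← hg]
      simp only [val_act, val_add, val_sub, val_cm, val_mk, commutatorElement_def]
      group
    refine ⟨j, ?_⟩
    have e2 : u - cm x (y ^ j) ∈ R := by
      have e3 : u - cm x (y ^ j)
          = (act (x ^ i) (cm x (y ^ j) + act (y ^ j) (act x (mk v hv) - mk v hv))
            - (cm x (y ^ j) + act (y ^ j) (act x (mk v hv) - mk v hv)))
            + act (y ^ j) (act x (mk v hv) - mk v hv) := by
        rw [← e1]; abel
      rw [e3]
      refine R.add_mem (hR1 _ _) ⟨act (y ^ j) (mk v hv), ?_⟩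
      rw [map_sub, act_comm x]
    obtain ⟨t, ht⟩ := e2
    refine ⟨t, ?_⟩
    rw [← cm_pow, ← ht]; abel

end Pool.Agent.Helper721_C
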