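import Mathlib
import Pool.Agent.Helper721_C.Act

/-!
# The critical quotients
-/

set_option autoImplicit false

open scoped commutatorElement

namespace Pool.Agent.Helper721_C

variable {G : Type} [Group G]

/-- a normal subgroup containing `[x, y]` contains the derived subgroup of `⟨x, y⟩` -/
theorem commutator_le_of_normal {x y : G} (hxy : Subgroup.closure {x, y} = ⊤) (N : Subgroup G)
    [hN : N.Normal] (hz : ⁅x, y⁆ ∈ N) : commutator G ≤ N := by
  let π := QuotientGroup.mk' N
  have hπ : Function.Surjective π := QuotientGroup.mk'_surjective N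
  have hcom : π x * π y = π y * π x := by
    rw [← commutatorElement_eq_one_iff_mul_comm, ← map_commutatorElement,
      ← MonoidHom.mem_ker, QuotientGroup.ker_mk']
    exact hz
  have htop : Subgroup.closure {π x, π y} = ⊤ := by
    have h2 : ({π x, π y} : Set (G ⧸ N)) = π '' {x, y} := by
      rw [Set.image_pair]
    rw [h2, ← MonoidHom.map_closure, hxy]
    exact Subgroup.map_top_of_surjective _ hπ
  have hcen : Subgroup.center (G ⧸ N) = ⊤ := by
    rw [eq_top_iff, ← htop, Subgroup.closure_le]
    have key : ∀ w : G ⧸ N, w * π x = π x * w → w * π y = π y * w →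
        w ∈ Subgroup.center (G ⧸ N) := by
      intro w hw1 hw2
      have h3 : Subgroup.closure {π x, π y} ≤ Subgroup.centralizer {w} := by
        rw [Subgroup.closure_le]
        rintro g (rfl | rfl)
        · exact Subgroup.mem_centralizer_singleton_iff.2 hw1.symm
        · exact Subgroup.mem_centralizer_singleton_iff.2 hw2.symm
      rw [htop] at h3
      rw [Subgroup.mem_center_iff]
      intro g
      exact Subgroup.mem_centralizer_singleton_iff.1 (h3 (Subgroup.mem_top g))
    rintro g (rfl | rfl)
    · exact key _ rfl hcom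
    · exact key _ hcom.symm rfl
  rw [commutator_def, Subgroup.commutator_le]
  intro a _ b _
  rw [← QuotientGroup.ker_mk' N, MonoidHom.mem_ker, map_commutatorElement,
    commutatorElement_eq_one_iff_mul_comm]
  have h4 : QuotientGroup.mk' N b ∈ Subgroup.center (G ⧸ N) := by
    rw [hcen]; exact Subgroup.mem_top _
  exact (Subgroup.mem_center_iff.1 h4 _)

/-- `γ₃` -/
def g3 (G : Type) [Group G] : Subgroup G := ⁅commutator G, (⊤ : Subgroup G)⁆
/-- `γ₄` -/
def g4 (G : Type) [Group G] : Subgroup G := ⁅g3 G, (⊤ : Subgroup G)⁆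

instance : (g3 G).Normal := by unfold g3; infer_instance
instance : (g4 G).Normal := by unfold g4; infer_instance

theorem mem_g3 (g : G) {u : G} (hu : u ∈ commutator G) : ⁅g, u⁆ ∈ g3 G := by
  unfold g3
  rw [Subgroup.commutator_comm]
  exact Subgroup.commutator_mem_commutator (Subgroup.mem_top _) hu

theorem mem_g4 (g : G) {u : G} (hu : u ∈ g3 G) : ⁅g, u⁆ ∈ g4 G := by
  unfold g4
  rw [Subgroup.commutator_comm]
  exact Subgroup.commutator_mem_commutator (Subgroup.mem_top _) hu

theorem g3_le : g3 G ≤ commutator G := Subgroup.commutator_le_left _ _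

theorem g4_le : g4 G ≤ g3 G := Subgroup.commutator_le_left _ _

/-- an element with central commutators commutes with the derived subgroup -/
theorem comm_of_central {c : G} (hc : ∀ g, ⁅c, g⁆ ∈ Subgroup.center G) {u : G}
    (hu : u ∈ commutator G) : c * u = u * c := by
  let f : G →* Subgroup.center G :=
    { toFun := fun g => ⟨⁅c, g⁆, hc g⟩
      map_one' := Subtype.ext (commutatorElement_one_right c)
      map_mul' := by
        intro g h
        apply Subtype.ext
        change ⁅c, g * h⁆ = ⁅c, g⁆ * ⁅c, h⁆
        have e : ⁅c, g * h⁆ = ⁅c, g⁆ * (g * ⁅c, h⁆ * g⁻¹) := by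
          simp only [commutatorElement_def]; group
        rw [e]
        have h2 := Subgroup.mem_center_iff.1 (hc h) g
        rw [h2, mul_inv_cancel_right] }
  have h1 : commutator G ≤ f.ker := by
    rw [commutator_def, Subgroup.commutator_le]
    intro a _ b _
    rw [MonoidHom.mem_ker, map_commutatorElement, commutatorElement_eq_one_iff_mul_comm]
    exact Subtype.ext (Subgroup.mem_center_iff.1 (f b).2 _)
  have h2 := h1 hu
  rw [MonoidHom.mem_ker] at h2
  exact commutatorElement_eq_one_iff_mul_comm.1 (congrArg Subtype.val h2)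

/-- if `γ₄` is central in a two-generator group then the derived subgroup is abelian -/
theorem abD_of {x y : G} (hxy : Subgroup.closure {x, y} = ⊤) (h4 : g4 G ≤ Subgroup.center G) :
    AbD G := by
  have h3 : ∀ c ∈ g3 G, ∀ u ∈ commutator G, c * u = u * c := by
    intro c hc u hu
    apply comm_of_central _ hu
    intro g
    have h1 : ⁅c, g⁆ ∈ g4 G := by
      unfold g4
      exact Subgroup.commutator_mem_commutator hc (Subgroup.mem_top _)
    exact h4 h1
  let z := ⁅x, y⁆
  have hz : z ∈ commutator G := comm_mem x y
  let S : Set G := {s | ∃ g, s = g * z * g⁻¹}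
  have hSn : (Subgroup.closure S).Normal := by
    constructor
    intro n hn g
    induction hn using Subgroup.closure_induction with
    | mem v hv =>
      obtain ⟨h, rfl⟩ := hv
      exact Subgroup.subset_closure ⟨g * h, by group⟩
    | one => rw [mul_one, mul_inv_cancel]; exact one_mem _
    | mul v w _ _ hv hw =>
      have e : g * (v * w) * g⁻¹ = (g * v * g⁻¹) * (g * w * g⁻¹) := by group
      rw [e]; exact mul_mem hv hw
    | inv v _ hv =>
      have e : g * v⁻¹ * g⁻¹ = (g * v * g⁻¹)⁻¹ := by group
      rw [e]; exact inv_mem hv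
  have hle : commutator G ≤ Subgroup.closure S :=
    commutator_le_of_normal hxy _ (Subgroup.subset_closure ⟨1, by simp [z]⟩)
  have hzc : z ∈ Subgroup.centralizer (commutator G : Set G) := by
    rw [Subgroup.mem_centralizer_iff]
    intro u hu
    have hu' := hle hu
    clear hu
    induction hu' using Subgroup.closure_induction with
    | mem v hv =>
      obtain ⟨g, rfl⟩ := hv
      have h1 := h3 _ (mem_g3 g hz) z hz
      have e : g * z * g⁻¹ = ⁅g, z⁆ * z := by rw [commutatorElement_def]; group
      rw [e, mul_assoc, ← mul_assoc z, ← h1, mul_assoc]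
    | one => rw [one_mul, mul_one]
    | mul v w _ _ hv hw => rw [mul_assoc, hw, ← mul_assoc, hv, mul_assoc]
    | inv v _ hv =>
      rw [inv_mul_eq_iff_eq_mul, ← mul_assoc, hv, mul_inv_cancel_right]
  have hn : (Subgroup.centralizer (commutator G : Set G)).Normal := inferInstance
  have h5 := commutator_le_of_normal hxy _ hzc
  refine ⟨fun u hu v hv => ?_⟩
  exact (Subgroup.mem_centralizer_iff.1 (h5 hv) u hu)

section
variable [AbD G]

theorem act_sub_mem {x y : G} (hxy : Subgroup.closure {x, y} = ⊤) (C : AddSubgroup (DA G))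
    (hx : ∀ u, act x u - u ∈ C) (hy : ∀ u, act y u - u ∈ C) (g : G) : ∀ u, act g u - u ∈ C := by
  have hg : g ∈ Subgroup.closure {x, y} := by rw [hxy]; exact Subgroup.mem_top g
  induction hg using Subgroup.closure_induction with
  | mem g hg =>
    rcases hg with rfl | rfl
    · exact hx
    · exact hy
  | one =>
    intro u
    have : act (1 : G) u - u = 0 := by apply val_inj; simp
    rw [this]; exact C.zero_mem
  | mul g h _ _ hg hh =>
    intro u
    have : act (g * h) u - u = (act g (act h u) - act h u) + (act h u - u) := by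
      rw [act_mul]; abel
    rw [this]
    exact C.add_mem (hg _) (hh _)
  | inv g _ hg =>
    intro u
    have : act g⁻¹ u - u = -(act g (act g⁻¹ u) - act g⁻¹ u) := by
      rw [← act_mul, mul_inv_cancel]
      have : act (1 : G) u = u := by apply val_inj; simp
      rw [this]; abel
    rw [this]
    exact C.neg_mem (hg _)

omit [AbD G] in
theorem closure_swap {x y : G} (hxy : Subgroup.closure {x, y} = ⊤) :
    Subgroup.closure {y, x} = ⊤ := by rw [Set.pair_comm]; exact hxy

omit [AbD G] in
theorem closure_mul {x y : G} (hxy : Subgroup.closure {x, y} = ⊤) {w : G}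
    (hw : w ∈ Subgroup.zpowers y) : Subgroup.closure {x * w, y} = ⊤ := by
  rw [eq_top_iff, ← hxy, Subgroup.closure_le]
  have hy : y ∈ Subgroup.closure {x * w, y} := Subgroup.subset_closure (by simp)
  have hw' : w ∈ Subgroup.closure {x * w, y} := by
    obtain ⟨n, rfl⟩ := hw
    exact zpow_mem hy n
  have hxw : x * w ∈ Subgroup.closure {x * w, y} := Subgroup.subset_closure (by simp)
  rintro g (rfl | rfl)
  · have := mul_mem hxw (inv_mem hw')
    rwa [mul_inv_cancel_right] at this
  · exact hy

omit [AbD G] in
theorem cm_mul_pow {x y w : G} (hw : w ∈ Subgroup.zpowers y) : cm (x * w) y = cm x y := by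
  apply val_inj
  obtain ⟨n, rfl⟩ := hw
  simp only [val_cm, commutatorElement_def]
  have : (fun n => y ^ n) n * y = y * (fun n => y ^ n) n := by
    change y ^ n * y = y * y ^ n
    rw [← zpow_add_one, ← zpow_one_add, add_comm]
  rw [mul_inv_rev]
  calc x * (fun n => y ^ n) n * y * (((fun n => y ^ n) n)⁻¹ * x⁻¹) * y⁻¹
      = x * ((fun n => y ^ n) n * y) * ((fun n => y ^ n) n)⁻¹ * x⁻¹ * y⁻¹ := by group
    _ = x * (y * (fun n => y ^ n) n) * ((fun n => y ^ n) n)⁻¹ * x⁻¹ * y⁻¹ := by rw [this]
    _ = _ := by group

theorem cm_swap (x y : G) : cm y x = -cm x y := by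
  apply val_inj
  simp [commutatorElement_inv]

end

end Pool.Agent.Helper721_C
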