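import Mathlib
import Pool.Agent.Helper721_C.Core

/-!
# The critical quotients: conclusions
-/

set_option autoImplicit false

open scoped commutatorElement

namespace Pool.Agent.Helper721_C

variable {G : Type} [Group G]

/-- odd `p` -/
theorem odd_core {p : ℕ} (hp : p.Prime) (hp2 : p ≠ 2) [Finite G] (hS : Star G) {x y : G}
    (hxy : Subgroup.closure {x, y} = ⊤) (hexp : ∀ u ∈ commutator G, u ^ p = 1)
    (h4 : g4 G = ⊥) : g3 G = ⊥ := by
  have hab : AbD G := abD_of hxy (by rw [h4]; exact bot_le)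
  have hexp' : ∀ u : DA G, p • u = 0 := by
    intro u
    exact val_inj (hexp _ (val_mem u))
  have h4' : ∀ (g h : G) (u : DA G), act h (act g u - u) = act g u - u := by
    intro g h u
    apply val_inj
    have e1 : val (act g u - u) = ⁅g, val u⁆ := by
      simp [commutatorElement_def]
    have h5 : ⁅h, val (act g u - u)⁆ ∈ g4 G := by
      rw [e1]
      exact mem_g4 h (mem_g3 g (val_mem u))
    rw [h4, Subgroup.mem_bot, commutatorElement_eq_one_iff_mul_comm] at h5
    rw [val_act, h5, mul_inv_cancel_right]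
  have key : ∀ x y : G, Subgroup.closure {x, y} = ⊤ →
      act y (cm x y) - cm x y ∈ AddSubgroup.zmultiples (act x (cm x y) - cm x y) := by
    intro x y hxy
    exact odd_abs hp hp2 hexp' (pr_of hS hxy) (h4' _ _ _) (h4' _ _ _) (h4' _ _ _)
  set z := cm x y with hz
  set a := act x z - z with ha
  set b := act y z - z with hb
  have k1 : b ∈ AddSubgroup.zmultiples a := key x y hxy
  have k2 : a ∈ AddSubgroup.zmultiples b := by
    have := key y x (closure_swap hxy)
    rw [cm_swap x y, map_neg, map_neg] at this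
    have e1 : -act x (cm x y) - -cm x y = -a := by rw [ha, hz]; abel
    have e2 : -act y (cm x y) - -cm x y = -b := by rw [hb, hz]; abel
    rw [e1, e2, AddSubgroup.zmultiples_neg, neg_mem_iff] at this
    exact this
  have k3 : ∀ n : ℤ, b ∈ AddSubgroup.zmultiples (a + n • b) := by
    intro n
    have hw : y ^ n ∈ Subgroup.zpowers y := ⟨n, rfl⟩
    have h1 := key (x * y ^ n) y (closure_mul hxy hw)
    rw [cm_mul_pow hw] at h1
    have e1 : ∀ n : ℤ, act (y ^ n) z = z + n • b := by
      intro n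
      have h5 : ∀ n : ℕ, act (y ^ n) z = z + n • b := by
        intro n
        induction n with
        | zero => rw [pow_zero, zero_smul, add_zero]; apply val_inj; simp
        | succ n ih =>
          rw [pow_succ, act_mul]
          have : act y z = z + b := by rw [hb]; abel
          rw [this, map_add, ih]
          have h6 : act (y ^ n) b = b := by rw [hb]; exact h4' _ _ _
          rw [h6, add_smul, one_smul]; abel
      rcases n with n | n
      · rw [Int.ofNat_eq_natCast, zpow_natCast, natCast_zsmul]; exact h5 n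
      · have h6 := h5 (n + 1)
        rw [zpow_negSucc]
        have h7 : act (y ^ (n + 1))⁻¹ (z + (n + 1) • b) = z := by
          rw [← h6, ← act_mul, inv_mul_cancel]; apply val_inj; simp
        rw [map_add, map_nsmul] at h7
        have h8 : act (y ^ (n + 1))⁻¹ b = b := by rw [hb]; exact h4' _ _ _
        rw [h8] at h7
        rw [Int.negSucc_eq, neg_smul]
        have : act (y ^ (n + 1))⁻¹ z = z - (n + 1) • b := by
          rw [eq_sub_iff_add_eq]; exact h7
        rw [this]
        have e3 : (((n : ℤ) + 1) • b) = (n + 1) • b := by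
          rw [← natCast_zsmul]; push_cast; rfl
        rw [e3]; abel
    have e2 : act (x * y ^ n) z - z = a + n • b := by
      rw [act_mul, e1, map_add, map_zsmul]
      have : act x b = b := by rw [hb]; exact h4' _ _ _
      rw [this, ha]; abel
    rw [e2] at h1
    exact h1
  have hb0 : b = 0 := by
    obtain ⟨t, ht⟩ := k2
    have ht' : t • b = a := ht
    have := k3 (-t)
    rw [← ht', neg_smul, add_neg_cancel, AddSubgroup.zmultiples_zero_eq_bot] at this
    exact AddSubgroup.mem_bot.1 this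
  have ha0 : a = 0 := by
    rw [hb0, AddSubgroup.zmultiples_zero_eq_bot] at k2
    exact AddSubgroup.mem_bot.1 k2
  have hfx := (pr_of hS hxy).id_of_fix (sub_eq_zero.1 ha0)
  have hfy := (pr_of hS (closure_swap hxy)).id_of_fix (by
    rw [cm_swap x y, map_neg]
    rw [show act y (cm x y) = cm x y from sub_eq_zero.1 hb0])
  have hall := act_sub_mem hxy (⊥ : AddSubgroup (DA G))
    (fun u => by rw [hfx, sub_self]; exact AddSubgroup.zero_mem _)
    (fun u => by rw [hfy, sub_self]; exact AddSubgroup.zero_mem _)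
  rw [eq_bot_iff]
  unfold g3
  rw [Subgroup.commutator_comm, Subgroup.commutator_le]
  intro g _ u hu
  have h5 := hall g (mk u hu)
  rw [AddSubgroup.mem_bot, sub_eq_zero] at h5
  have h6 := congrArg val h5
  rw [val_act, val_mk] at h6
  rw [Subgroup.mem_bot, commutatorElement_def, h6, mul_inv_cancel]

/-- `p = 2`, cyclic derived subgroup of order four -/
theorem cyc_core [Finite G] (hS : Star G) {x y : G} (hxy : Subgroup.closure {x, y} = ⊤)
    [AbD G] (hinv : ∀ g : G, (∀ u ∈ commutator G, g * u * g⁻¹ = u) ∨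
      (∀ u ∈ commutator G, g * u * g⁻¹ = u⁻¹)) : g3 G = ⊥ := by
  -- a generating pair with the first element centralising and the second inverting
  by_contra hne
  have hex : ∃ x y : G, Subgroup.closure {x, y} = ⊤ ∧ (∀ u ∈ commutator G, x * u * x⁻¹ = u) ∧
      (∀ u ∈ commutator G, y * u * y⁻¹ = u⁻¹) := by
    rcases hinv x with hx | hx <;> rcases hinv y with hy | hy
    · exfalso
      apply hne
      rw [eq_bot_iff]
      unfold g3
      rw [Subgroup.commutator_comm, Subgroup.commutator_le]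
      intro g _ u hu
      have hall := act_sub_mem hxy (⊥ : AddSubgroup (DA G))
        (fun u => by
          rw [AddSubgroup.mem_bot, sub_eq_zero]; exact val_inj (hx _ (val_mem u)))
        (fun u => by
          rw [AddSubgroup.mem_bot, sub_eq_zero]; exact val_inj (hy _ (val_mem u)))
      have h5 := hall g (mk u hu)
      rw [AddSubgroup.mem_bot, sub_eq_zero] at h5
      have h6 := congrArg val h5
      rw [val_act, val_mk] at h6
      rw [Subgroup.mem_bot, commutatorElement_def, h6, mul_inv_cancel]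
    · exact ⟨x, y, hxy, hx, hy⟩
    · exact ⟨y, x, closure_swap hxy, hy, hx⟩
    · refine ⟨x * y, y, closure_mul hxy (Subgroup.mem_zpowers y), ?_, hy⟩
      intro u hu
      have e : x * y * u * (x * y)⁻¹ = x * (y * u * y⁻¹) * x⁻¹ := by group
      rw [e, hy u hu, hx _ (inv_mem hu), inv_inv]
  obtain ⟨x, y, hxy, hx, hy⟩ := hex
  have hpr := pr_of hS hxy
  have hid : ∀ u : DA G, act x u = u := fun u => val_inj (hx _ (val_mem u))
  have hneg : ∀ u : DA G, act y u = -u := fun u => val_inj (hy _ (val_mem u))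
  have hsum : ∀ j : ℕ, ((∑ i ∈ Finset.range j, (act y)^[i] (cm x y)) = 0 ∧
      (act y)^[j] (cm x y) = cm x y) ∨ ((∑ i ∈ Finset.range j, (act y)^[i] (cm x y)) = cm x y ∧
      (act y)^[j] (cm x y) = -cm x y) := by
    intro j
    induction j with
    | zero => left; simp
    | succ j ih =>
      rw [Finset.sum_range_succ, Function.iterate_succ_apply']
      rcases ih with ⟨h1, h2⟩ | ⟨h1, h2⟩
      · right; rw [h1, h2, hneg]; simp
      · left; rw [h1, h2, hneg]; simp
  have hval : ∀ u : DA G, u = 0 ∨ u = cm x y := by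
    intro u
    obtain ⟨j, v, hv⟩ := hpr.cov u
    rw [hid, sub_self, add_zero] at hv
    rcases hsum j with ⟨h1, -⟩ | ⟨h1, -⟩
    · left; rw [hv, h1]
    · right; rw [hv, h1]
  have h2 : ∀ u : DA G, -u = u := by
    intro u
    rcases hval u with rfl | h1
    · exact neg_zero
    · rcases hval (u + u) with h5 | h5
      · exact neg_eq_of_add_eq_zero_left h5
      · rw [h1] at h5 ⊢
        have h6 : cm x y + cm x y = cm x y + 0 := by rw [h5, add_zero]
        rw [add_left_cancel h6, neg_zero]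
  apply hne
  rw [eq_bot_iff]
  unfold g3
  rw [Subgroup.commutator_comm, Subgroup.commutator_le]
  intro g _ u hu
  have hall := act_sub_mem hxy (⊥ : AddSubgroup (DA G))
    (fun u => by rw [hid, sub_self]; exact AddSubgroup.zero_mem _)
    (fun u => by rw [hneg, h2, sub_self]; exact AddSubgroup.zero_mem _)
  have h5 := hall g (mk u hu)
  rw [AddSubgroup.mem_bot, sub_eq_zero] at h5
  have h6 := congrArg val h5
  rw [val_act, val_mk] at h6
  rw [Subgroup.mem_bot, commutatorElement_def, h6, mul_inv_cancel]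

section two
variable [AbD G]

/-- the image of `z` under the automorphism `x ↦ x`, `y ↦ y b` -/
theorem alpha_z {x y : G} {α : G ≃* G} {b : DA G} (hx : α x = x) (hy : α y = y * val b) :
    α ⁅x, y⁆ = val (cm x y + act y (act x b - b)) := by
  rw [map_commutatorElement, hx, hy]
  simp only [val_add, val_act, val_sub, val_cm, commutatorElement_def]
  group

theorem P1_of [Finite G] (hP : PP2 G) {x y : G} (hxy : Subgroup.closure {x, y} = ⊤) (b : DA G) :
    ∃ i j : ℕ, (act x)^[i] ((act y)^[j] (cm x y)) = cm x y + act y (act x b - b) := by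
  obtain ⟨α, hα, hx, hy⟩ := hP x y hxy 1 (one_mem _) (val b) (val_mem b)
  rw [mul_one] at hx
  obtain ⟨c, hc⟩ := isConj_iff.1 (hα ⁅x, y⁆)
  rw [alpha_z hx hy] at hc
  obtain ⟨i, j, v, hv, rfl⟩ := exists_form hxy c
  refine ⟨i, j, ?_⟩
  rw [← act_pow, ← act_pow]
  have h1 : act (x ^ i * y ^ j * v) (cm x y) = cm x y + act y (act x b - b) :=
    val_inj (by rw [← hc]; rfl)
  rw [← h1, act_mul, act_mul, act_of_mem hv]

theorem P2_of [Finite G] (hP : PP2 G) {x y : G} (hxy : Subgroup.closure {x, y} = ⊤) (b : DA G)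
    (hid : ∀ u : DA G, act x (act x u) = u) (K : DA G → Prop) (hz : K (cm x y))
    (h1 : ∀ c, K c → K (act x c)) (h2 : ∀ c, K c → K (-cm x y - act x (cm x y) + act y c)) :
    K (cm x y + act y (act x b - b)) := by
  obtain ⟨α, hα, hx, hy⟩ := hP x y hxy 1 (one_mem _) (val b) (val_mem b)
  rw [mul_one] at hx
  obtain ⟨c, hc⟩ := isConj_iff.1 (hα (x ^ 2 * ⁅x, y⁆))
  rw [map_mul, map_pow, hx, alpha_z hx hy] at hc
  obtain ⟨i, j, v, hv, rfl⟩ := exists_form hxy c
  have hid' : ∀ u : DA G, x ^ 2 * val u * (x ^ 2)⁻¹ = val u := by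
    intro u
    have := congrArg val (hid u)
    rw [← act_mul, ← pow_two] at this
    exact this
  have hid'' : ∀ u : DA G, (x ^ 2)⁻¹ * val u * x ^ 2 = val u := by
    intro u
    have := hid' u
    calc (x ^ 2)⁻¹ * val u * x ^ 2 = (x ^ 2)⁻¹ * (x ^ 2 * val u * (x ^ 2)⁻¹) * x ^ 2 := by rw [this]
      _ = val u := by group
  -- the conjugates of `x² u`
  have key : ∀ g : G, (∀ u : DA G, K u → ∃ u' : DA G, K u' ∧
      g * (x ^ 2 * val u) * g⁻¹ = x ^ 2 * val u') →
      ∀ (n : ℕ) (u : DA G), K u → ∃ u' : DA G, K u' ∧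
        g ^ n * (x ^ 2 * val u) * (g ^ n)⁻¹ = x ^ 2 * val u' := by
    intro g hg n
    induction n with
    | zero => intro u hu; exact ⟨u, hu, by group⟩
    | succ n ih =>
      intro u hu
      obtain ⟨u', hu', e'⟩ := ih u hu
      obtain ⟨u'', hu'', e''⟩ := hg u' hu'
      refine ⟨u'', hu'', ?_⟩
      rw [← e'', ← e', pow_succ']; group
  have kx : ∀ u : DA G, K u → ∃ u' : DA G, K u' ∧
      x * (x ^ 2 * val u) * x⁻¹ = x ^ 2 * val u' := by
    intro u hu
    refine ⟨act x u, h1 u hu, ?_⟩
    rw [val_act]; group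
  have ky : ∀ u : DA G, K u → ∃ u' : DA G, K u' ∧
      y * (x ^ 2 * val u) * y⁻¹ = x ^ 2 * val u' := by
    intro u hu
    refine ⟨_, h2 u hu, ?_⟩
    have e1 : y * (x ^ 2 * val u) * y⁻¹
        = (⁅x, y⁆⁻¹ * (x * ⁅x, y⁆⁻¹ * x⁻¹)) * x ^ 2 * (y * val u * y⁻¹) := by
      simp only [commutatorElement_def, pow_two]; group
    have e2 : ⁅x, y⁆⁻¹ * (x * ⁅x, y⁆⁻¹ * x⁻¹) = val (-cm x y - act x (cm x y)) := by
      simp only [val_sub, val_neg, val_act, val_cm]; group
    rw [e1, e2, val_add, val_act]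
    have e3 := hid'' (-cm x y - act x (cm x y))
    have e4 : val (-cm x y - act x (cm x y)) * x ^ 2
        = x ^ 2 * ((x ^ 2)⁻¹ * val (-cm x y - act x (cm x y)) * x ^ 2) := by group
    rw [e4, e3, mul_assoc]
  have kv : v * (x ^ 2 * ⁅x, y⁆) * v⁻¹ = x ^ 2 * ⁅x, y⁆ := by
    have e1 := hid'' (mk v hv)
    rw [val_mk] at e1
    have e2 : v * (x ^ 2 * ⁅x, y⁆) * v⁻¹ = x ^ 2 * (((x ^ 2)⁻¹ * v * x ^ 2) * ⁅x, y⁆ * v⁻¹) := by
      group
    rw [e2, e1, AbD.comm v hv _ (comm_mem x y), mul_inv_cancel_right]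
  obtain ⟨u1, hu1, e1⟩ := key y ky j (cm x y) hz
  obtain ⟨u2, hu2, e2⟩ := key x kx i u1 hu1
  have h3 : x ^ i * y ^ j * v * (x ^ 2 * ⁅x, y⁆) * (x ^ i * y ^ j * v)⁻¹ = x ^ 2 * val u2 := by
    rw [← e2, ← e1, val_cm]
    calc x ^ i * y ^ j * v * (x ^ 2 * ⁅x, y⁆) * (x ^ i * y ^ j * v)⁻¹
        = x ^ i * (y ^ j * (v * (x ^ 2 * ⁅x, y⁆) * v⁻¹) * (y ^ j)⁻¹) * (x ^ i)⁻¹ := by group
      _ = _ := by rw [kv]
  rw [h3] at hc
  have h4 := mul_left_cancel hc
  rw [← val_inj h4]
  exact hu2

end two

end Pool.Agent.Helper721_C
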