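import Mathlib
import Pool.Agent.Helper721_C.Core2

/-!
# The critical quotient for `p = 2` and noncyclic derived subgroup
-/

set_option autoImplicit false

open scoped commutatorElement

namespace Pool.Agent.Helper721_C

variable {G : Type} [Group G]

/-- the configuration holds for every generating pair -/
theorem twoCfg [Finite G] [AbD G] (hS : Star G) {k : G} (hk1 : k ≠ 1)
    (hkc : ∀ g : G, g * k = k * g) (hk2 : k * k = 1) (hkm : k ∈ commutator G)
    (h2 : ∀ u ∈ commutator G, u * u = 1 ∨ u * u = k) (h4 : ∀ u ∈ g4 G, u = 1 ∨ u = k)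
    (h3 : ∃ u ∈ g3 G, u ≠ 1 ∧ u ≠ k) (hne : (∃ u ∈ commutator G, u * u = k) ∨ k ∈ g4 G)
    {x y : G} (hxy : Subgroup.closure {x, y} = ⊤) :
    TwoCfg (cm x y) (mk k hkm) (act x) (act y) := by
  have hact : ∀ g : G, act g (mk k hkm) = mk k hkm := by
    intro g
    apply val_inj
    rw [val_act, val_mk, hkc, mul_inv_cancel_right]
  have hkk : mk k hkm + mk k hkm = 0 := val_inj hk2
  have hk0 : mk k hkm ≠ 0 := fun h => hk1 (congrArg val h)
  -- second differences
  have hdd : ∀ (g h : G) (u : DA G), act h (act g u - u) = act g u - u ∨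
      act h (act g u - u) = act g u - u + mk k hkm := by
    intro g h u
    have e1 : val (act g u - u) = ⁅g, val u⁆ := by
      simp [commutatorElement_def]
    have h5 : ⁅h, val (act g u - u)⁆ ∈ g4 G := by
      rw [e1]
      exact mem_g4 h (mem_g3 g (val_mem u))
    have e2 : val (act h (act g u - u) - (act g u - u)) = ⁅h, val (act g u - u)⁆ := by
      simp only [val_sub, val_act, commutatorElement_def]
    rcases h4 _ h5 with h6 | h6
    · left
      rw [← sub_eq_zero]
      apply val_inj
      rw [e2, h6]; rfl
    · right
      have e3 : act h (act g u - u) - (act g u - u) = mk k hkm := by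
        apply val_inj
        rw [e2, h6]; rfl
      rw [← e3]; abel
  have hfix1 : ∀ u : DA G, (act x u - u = 0 ∨ act x u - u = mk k hkm) ↔
      act x u - u ∈ pairS (mk k hkm) hkk := fun u => Iff.rfl
  refine
    { pr := pr_of hS hxy
      pr2 := ?_
      pr3 := ?_
      kne := hk0
      k2 := hkk
      fk := hact x
      gk := hact y
      sq := ?_
      xx := hdd x x _
      yx := hdd x y _
      yy := hdd y y _
      nc := ?_
      ne := ?_ }
  · have hw : y * y ∈ Subgroup.zpowers y := ⟨2, zpow_two y⟩
    have h5 := pr_of hS (closure_mul hxy hw)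
    rw [cm_mul_pow hw] at h5
    have e : act (x * (y * y)) = (act x).comp ((act y).comp (act y)) := by
      refine AddMonoidHom.ext (fun u => ?_)
      rw [act_mul, act_mul]; rfl
    rwa [e] at h5
  · have h5 := pr_of hS (closure_swap hxy)
    rwa [cm_swap] at h5
  · rcases h2 _ (comm_mem x y) with h5 | h5
    · left; exact val_inj h5
    · right; exact val_inj h5
  · rintro ⟨ha, hb⟩
    have hX := (pr_of hS hxy).sub_mem (pairS (mk k hkm) hkk) ha (by
      rintro c (rfl | rfl)
      · left; exact map_zero _
      · right; exact hact x) (by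
      rintro c (rfl | rfl)
      · left; exact map_zero _
      · right; exact hact y)
    have hY := (pr_of hS (closure_swap hxy)).sub_mem (pairS (mk k hkm) hkk) (by
      rw [cm_swap x y, map_neg]
      have e : -act y (cm x y) - -cm x y = -(act y (cm x y) - cm x y) := by abel
      rw [e]
      exact AddSubgroup.neg_mem _ hb) (by
      rintro c (rfl | rfl)
      · left; exact map_zero _
      · right; exact hact y) (by
      rintro c (rfl | rfl)
      · left; exact map_zero _
      · right; exact hact x)
    have hall := act_sub_mem hxy _ hX hY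
    obtain ⟨u, hu, hu1, hu2⟩ := h3
    have hle : g3 G ≤ Subgroup.zpowers k := by
      unfold g3
      rw [Subgroup.commutator_comm, Subgroup.commutator_le]
      intro g _ u hu
      have e2 : val (act g (mk u hu) - mk u hu) = ⁅g, u⁆ := by
        simp only [val_sub, val_act, val_mk, commutatorElement_def]
      rcases hall g (mk u hu) with h5 | h5
      · rw [← e2, h5]; exact one_mem _
      · rw [← e2, h5]; exact Subgroup.mem_zpowers k
    obtain ⟨n, hn⟩ := hle hu
    have hn' : k ^ n = u := hn
    rcases Int.even_or_odd' n with ⟨t, ht | ht⟩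
    · apply hu1
      rw [← hn', ht, zpow_mul]
      have : k ^ (2 : ℤ) = 1 := by rw [zpow_two]; exact hk2
      rw [this, one_zpow]
    · apply hu2
      rw [← hn', ht, zpow_add, zpow_mul]
      have : k ^ (2 : ℤ) = 1 := by rw [zpow_two]; exact hk2
      rw [this, one_zpow, one_mul, zpow_one]
  · by_contra hcon
    push Not at hcon
    obtain ⟨c1, c2, c3, c4⟩ := hcon
    have d1 : cm x y + cm x y = 0 := by
      rcases h2 _ (comm_mem x y) with h5 | h5
      · exact val_inj h5
      · exact absurd (val_inj (show val (cm x y + cm x y) = val (mk k hkm) from h5)) c1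
    have d2 := (hdd x x (cm x y)).resolve_right c2
    have d3 := (hdd x y (cm x y)).resolve_right c3
    have d4 := (hdd y y (cm x y)).resolve_right c4
    have hpr := pr_of hS hxy
    have d5 : act x (act y (cm x y) - cm x y) = act y (cm x y) - cm x y := by
      have e1 : act x (act y (cm x y) - cm x y) - (act y (cm x y) - cm x y)
          = act y (act x (cm x y) - cm x y) - (act x (cm x y) - cm x y) := by
        rw [map_sub, map_sub, act_comm x y]; abel
      rw [d3, sub_self] at e1
      exact sub_eq_zero.1 e1
    rcases hne with ⟨u, hu, huk⟩ | hk4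
    · -- all elements have order two
      let B : AddSubgroup (DA G) :=
        { carrier := {v | v + v = 0}
          add_mem' := by
            intro a b ha hb
            change a + b + (a + b) = 0
            have : a + b + (a + b) = (a + a) + (b + b) := by abel
            rw [this, show a + a = 0 from ha, show b + b = 0 from hb, add_zero]
          zero_mem' := add_zero 0
          neg_mem' := by
            intro a ha
            change -a + -a = 0
            have : -a + -a = -(a + a) := by abel
            rw [this, show a + a = 0 from ha, neg_zero] }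
      have h5 := hpr.gen B d1 (by
        intro b hb
        change act x b + act x b = 0
        rw [← map_add, show b + b = 0 from hb, map_zero]) (by
        intro b hb
        change act y b + act y b = 0
        rw [← map_add, show b + b = 0 from hb, map_zero]) (mk u hu)
      have h6 : u * u = 1 := congrArg val (show mk u hu + mk u hu = 0 from h5)
      rw [huk] at h6
      exact hk1 h6
    · -- `γ₃` is central
      let F : AddSubgroup (DA G) :=
        { carrier := {v | act x v = v ∧ act y v = v}
          add_mem' := by
            rintro a b ⟨ha, ha'⟩ ⟨hb, hb'⟩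
            exact ⟨by rw [map_add, ha, hb], by rw [map_add, ha', hb']⟩
          zero_mem' := ⟨map_zero _, map_zero _⟩
          neg_mem' := by
            rintro a ⟨ha, ha'⟩
            exact ⟨by rw [map_neg, ha], by rw [map_neg, ha']⟩ }
      have hX := hpr.sub_mem F ⟨d2, d3⟩ (by
        rintro c ⟨h5, h6⟩
        rw [h5]; exact ⟨h5, h6⟩) (by
        rintro c ⟨h5, h6⟩
        rw [h6]; exact ⟨h5, h6⟩)
      have hY := (pr_of hS (closure_swap hxy)).sub_mem F (by
        rw [cm_swap x y, map_neg]
        have e : -act y (cm x y) - -cm x y = -(act y (cm x y) - cm x y) := by abel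
        rw [e]
        exact AddSubgroup.neg_mem _ ⟨d5, d4⟩) (by
        rintro c ⟨h5, h6⟩
        rw [h6]; exact ⟨h5, h6⟩) (by
        rintro c ⟨h5, h6⟩
        rw [h5]; exact ⟨h5, h6⟩)
      have hall := act_sub_mem hxy F hX hY
      have hcen : g3 G ≤ Subgroup.center G := by
        unfold g3
        rw [Subgroup.commutator_comm, Subgroup.commutator_le]
        intro g _ u hu
        have e2 : val (act g (mk u hu) - mk u hu) = ⁅g, u⁆ := by
          simp only [val_sub, val_act, val_mk, commutatorElement_def]
        obtain ⟨h5, h6⟩ := hall g (mk u hu)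
        have h5' := congrArg val h5
        have h6' := congrArg val h6
        rw [val_act, e2, mul_inv_eq_iff_eq_mul] at h5' h6'
        have h7 : Subgroup.closure {x, y} ≤ Subgroup.centralizer {⁅g, u⁆} := by
          rw [Subgroup.closure_le]
          rintro t (rfl | rfl)
          · exact Subgroup.mem_centralizer_singleton_iff.2 h5'
          · exact Subgroup.mem_centralizer_singleton_iff.2 h6'
        rw [hxy] at h7
        rw [Subgroup.mem_center_iff]
        intro t
        exact Subgroup.mem_centralizer_singleton_iff.1 (h7 (Subgroup.mem_top t))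
      have h4' : g4 G ≤ ⊥ := by
        unfold g4
        rw [Subgroup.commutator_le]
        intro u hu g _
        rw [Subgroup.mem_bot, commutatorElement_eq_one_iff_mul_comm]
        exact (Subgroup.mem_center_iff.1 (hcen hu) g).symm
      exact hk1 (Subgroup.mem_bot.1 (h4' hk4))

/-- the contradiction -/
theorem two_core [Finite G] [AbD G] (hP : PP2 G) {k : G} (hk1 : k ≠ 1)
    (hkc : ∀ g : G, g * k = k * g) (hk2 : k * k = 1) (hkm : k ∈ commutator G)
    (h2 : ∀ u ∈ commutator G, u * u = 1 ∨ u * u = k) (h4 : ∀ u ∈ g4 G, u = 1 ∨ u = k)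
    (h3 : ∃ u ∈ g3 G, u ≠ 1 ∧ u ≠ k) (hne : (∃ u ∈ commutator G, u * u = k) ∨ k ∈ g4 G)
    {x y : G} (hxy : Subgroup.closure {x, y} = ⊤) : False := by
  have hcfg := fun {x y : G} (hxy : Subgroup.closure {x, y} = ⊤) =>
    twoCfg hP.star hk1 hkc hk2 hkm h2 h4 h3 hne hxy
  have hkk : mk k hkm + mk k hkm = 0 := val_inj hk2
  -- the conclusion for one pair
  have main : ∀ {x y : G}, Subgroup.closure {x, y} = ⊤ →
      act x (act x (cm x y) - cm x y) ≠ act x (cm x y) - cm x y := by
    intro x y hxy
    have c1 := hcfg hxy
    have hb : ¬ (act y (cm x y) - cm x y = 0 ∨ act y (cm x y) - cm x y = mk k hkm) := by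
      have h5 := (hcfg (closure_swap hxy)).la
      rw [cm_swap x y, map_neg] at h5
      intro h6
      apply h5
      have e : -act y (cm x y) - -cm x y = -(act y (cm x y) - cm x y) := by abel
      rw [e]
      exact (pairS (mk k hkm) hkk).neg_mem h6
    have hab : ¬ ((act x (cm x y) - cm x y) + (act y (cm x y) - cm x y) = 0 ∨
        (act x (cm x y) - cm x y) + (act y (cm x y) - cm x y) = mk k hkm) := by
      have hw : y ∈ Subgroup.zpowers y := Subgroup.mem_zpowers y
      have h5 := (hcfg (closure_mul hxy hw)).la
      rw [cm_mul_pow hw] at h5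
      intro h6
      apply h5
      have e : act (x * y) (cm x y) - cm x y
          = ((act x (cm x y) - cm x y) + (act y (cm x y) - cm x y))
            + (act x (act y (cm x y) - cm x y) - (act y (cm x y) - cm x y)) := by
        rw [act_mul, map_sub]; abel
      rw [e]
      exact (pairS (mk k hkm) hkk).add_mem h6 c1.b_mem_D
    exact c1.main hb hab (P1_of hP hxy _) (fun hid K h5 h6 h7 => P2_of hP hxy _ hid K h5 h6 h7)
  have m1 := main hxy
  have m2 := main (closure_swap hxy)
  have hw : y ∈ Subgroup.zpowers y := Subgroup.mem_zpowers y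
  have m3 := main (closure_mul hxy hw)
  rw [cm_mul_pow hw] at m3
  have c1 := hcfg hxy
  have e1 : act x (act x (cm x y) - cm x y) = act x (cm x y) - cm x y + mk k hkm :=
    c1.xx.resolve_left m1
  have e2 : act y (act y (cm x y) - cm x y) = act y (cm x y) - cm x y + mk k hkm := by
    refine c1.yy.resolve_left ?_
    intro h5
    apply m2
    rw [cm_swap x y, map_neg]
    have e : -act y (cm x y) - -cm x y = -(act y (cm x y) - cm x y) := by abel
    rw [e, map_neg, h5]
  have hxb := c1.xb
  have fk := c1.fk
  have gk := c1.gk
  obtain ⟨b, hbdef⟩ : ∃ b, b = act y (cm x y) - cm x y := ⟨_, rfl⟩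
  obtain ⟨a, hadef⟩ : ∃ a, a = act x (cm x y) - cm x y := ⟨_, rfl⟩
  have hz : act y (cm x y) = cm x y + b := by rw [hbdef]; abel
  have hza : act x (cm x y) = cm x y + a := by rw [hadef]; abel
  obtain ⟨d, hd, fd, gd, d2⟩ : ∃ d, act y a = a + d ∧ act x d = d ∧ act y d = d ∧ d + d = 0 := by
    rcases c1.yx with h5 | h5 <;> rw [← hadef] at h5
    · exact ⟨0, by rw [h5, add_zero], map_zero _, map_zero _, add_zero 0⟩
    · exact ⟨_, h5, fk, gk, hkk⟩
  rw [← hadef] at e1 hxb
  rw [← hbdef] at e2 hxb
  have fb : act x b = b + d := by
    rw [hd] at hxb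
    have : act x b = b + (act x b - b) := by abel
    rw [this, hxb]; abel
  apply m3
  have e3 : act (x * y) (cm x y) - cm x y = a + b + d := by
    rw [act_mul, hz, map_add, hza, fb]; abel
  have e4 : act y (a + b + d) = a + d + (b + mk k hkm) + d := by
    rw [map_add, map_add, hd, e2, gd]
  have e5 : act x (a + d + (b + mk k hkm) + d) = a + mk k hkm + d + (b + d + mk k hkm) + d := by
    rw [map_add, map_add, map_add, map_add, e1, fb, fk, fd]
  rw [e3, act_mul, e4, e5]
  have : a + mk k hkm + d + (b + d + mk k hkm) + d
      = a + b + d + (mk k hkm + mk k hkm) + (d + d) := by abel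
  rw [this, hkk, d2]; abel

end Pool.Agent.Helper721_C
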