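import Mathlib
import Pool.Agent.Helper721_C.Core3

/-!
# Necessity
-/

set_option autoImplicit false

open scoped commutatorElement
open Pool.Agent.Helper832.AutC

namespace Pool.Agent.Helper721_C

variable {G : Type} [Group G]

/-- nilpotency: `S ≤ N [S, G]` implies `S ≤ N` -/
theorem nil_le [hn : Group.IsNilpotent G] (N S : Subgroup G) [hN : N.Normal] [S.Normal]
    (h : S ≤ N ⊔ ⁅S, (⊤ : Subgroup G)⁆) : S ≤ N := by
  have key : ∀ i : ℕ, S ≤ N ⊔ (⊤ : Subgroup G).lowerCentralSeries i := by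
    intro i
    induction i with
    | zero => rw [Subgroup.lowerCentralSeries_zero, sup_top_eq]; exact le_top
    | succ i ih =>
      refine le_trans h (sup_le le_sup_left ?_)
      have hLn : ((⊤ : Subgroup G).lowerCentralSeries i).Normal := inferInstance
      have hLn' : ((⊤ : Subgroup G).lowerCentralSeries (i + 1)).Normal := inferInstance
      have hT : (N ⊔ (⊤ : Subgroup G).lowerCentralSeries (i + 1)).Normal := inferInstance
      rw [Subgroup.commutator_le]
      intro s hs g _
      have hs' : s ∈ ((N ⊔ (⊤ : Subgroup G).lowerCentralSeries i : Subgroup G) : Set G) := ih hs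
      rw [Subgroup.normal_mul] at hs'
      obtain ⟨n, hn', l, hl, rfl⟩ := hs'
      have e : ⁅n * l, g⁆ = n * ⁅l, g⁆ * n⁻¹ * ⁅n, g⁆ := by
        simp only [commutatorElement_def]; group
      change ⁅n * l, g⁆ ∈ _
      rw [e]
      refine mul_mem (hT.conj_mem _ ?_ n) ?_
      · apply (le_sup_right : _ ≤ N ⊔ (⊤ : Subgroup G).lowerCentralSeries (i + 1))
        rw [Subgroup.lowerCentralSeries_succ]
        exact Subgroup.commutator_mem_commutator hl (Subgroup.mem_top _)
      · apply (le_sup_left : N ≤ N ⊔ (⊤ : Subgroup G).lowerCentralSeries (i + 1))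
        rw [commutatorElement_def, mul_assoc, mul_assoc, ← mul_assoc g]
        exact mul_mem hn' (hN.conj_mem _ (inv_mem hn') g)
  obtain ⟨n, hn'⟩ := Subgroup.nilpotent_iff_lowerCentralSeries.1 hn
  have := key n
  rwa [hn', sup_bot_eq] at this

/-- images -/
theorem map_comm {Q : Type} [Group Q] {f : G →* Q} (hf : Function.Surjective f) :
    (commutator G).map f = commutator Q := by
  rw [commutator_def, commutator_def, Subgroup.map_commutator, Subgroup.map_top_of_surjective _ hf]

theorem map_g3 {Q : Type} [Group Q] {f : G →* Q} (hf : Function.Surjective f) :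
    (g3 G).map f = g3 Q := by
  rw [g3, g3, Subgroup.map_commutator, Subgroup.map_top_of_surjective _ hf, map_comm hf]

theorem map_g4 {Q : Type} [Group Q] {f : G →* Q} (hf : Function.Surjective f) :
    (g4 G).map f = g4 Q := by
  rw [g4, g4, Subgroup.map_commutator, Subgroup.map_top_of_surjective _ hf, map_g3 hf]

theorem le_ker_of_bot {Q : Type} [Group Q] {f : G →* Q} (S : Subgroup G) (h : S.map f = ⊥) :
    S ≤ f.ker := (Subgroup.map_eq_bot_iff _).1 h

/-- the derived subgroup lies in the Frattini subgroup -/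
theorem comm_le_frattini {p : ℕ} [Fact p.Prime] [Finite G] (hG : IsPGroup p G) :
    commutator G ≤ frattini G := by
  rw [commutator_def, Subgroup.commutator_le]
  intro a _ b _
  exact (frattini_facts hG).1 a b

/-- the subgroup generated by the `n`-th powers of the elements of the derived subgroup -/
def pw (G : Type) [Group G] (n : ℕ) : Subgroup G :=
  Subgroup.closure {v | ∃ u ∈ commutator G, v = u ^ n}

theorem pw_normal (n : ℕ) : (pw G n).Normal := by
  constructor
  intro v hv g
  have hn : (commutator G).Normal := inferInstance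
  unfold pw at hv ⊢
  induction hv using Subgroup.closure_induction with
  | mem v hv =>
    obtain ⟨u, hu, rfl⟩ := hv
    exact Subgroup.subset_closure ⟨g * u * g⁻¹, hn.conj_mem u hu g, by rw [conj_pow]⟩
  | one => rw [mul_one, mul_inv_cancel]; exact one_mem _
  | mul v w _ _ hv hw =>
    have e : g * (v * w) * g⁻¹ = (g * v * g⁻¹) * (g * w * g⁻¹) := by group
    rw [e]; exact mul_mem hv hw
  | inv v _ hv =>
    have e : g * v⁻¹ * g⁻¹ = (g * v * g⁻¹)⁻¹ := by group
    rw [e]; exact inv_mem hv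

instance (n : ℕ) : (pw G n).Normal := pw_normal n

theorem pw_le (n : ℕ) : pw G n ≤ commutator G := by
  unfold pw
  rw [Subgroup.closure_le]
  rintro _ ⟨u, hu, rfl⟩
  exact pow_mem hu n

theorem mem_pw (n : ℕ) {u : G} (hu : u ∈ commutator G) : u ^ n ∈ pw G n :=
  Subgroup.subset_closure ⟨u, hu, rfl⟩

/-- the cyclicity criterion -/
theorem cyclic_of {p : ℕ} [hp : Fact p.Prime] [Finite G] (hG : IsPGroup p G) {x y : G}
    (hxy : Subgroup.closure {x, y} = ⊤) (h : g3 G ≤ pw G p ⊔ g4 G) :
    IsCyclic (commutator G) := by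
  have : Group.IsNilpotent G := hG.isNilpotent
  have h1 : g3 G ≤ pw G p := nil_le (pw G p) (g3 G) h
  -- `N = ⟨z⟩ W` is normal
  let z := ⁅x, y⁆
  have hz : z ∈ commutator G := comm_mem x y
  let N : Subgroup G := Subgroup.zpowers z ⊔ pw G p
  have hNle : N ≤ commutator G := sup_le (by rw [Subgroup.zpowers_le]; exact hz) (pw_le p)
  have hNn : N.Normal := by
    constructor
    intro n hn g
    have e : g * n * g⁻¹ = ⁅g, n⁆ * n := by rw [commutatorElement_def]; group
    rw [e]
    exact mul_mem ((le_sup_right : pw G p ≤ N) (h1 (mem_g3 g (hNle hn)))) hn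
  have h2 : commutator G ≤ N := commutator_le_of_normal hxy N
    ((le_sup_left : Subgroup.zpowers z ≤ N) (Subgroup.mem_zpowers z))
  let z' : commutator G := ⟨z, hz⟩
  have h3 : Subgroup.zpowers z' = ⊤ := by
    by_contra hne
    obtain ⟨M, hM, hM'⟩ := (eq_top_or_exists_le_coatom (Subgroup.zpowers z')).resolve_left hne
    have hGP : IsPGroup p (commutator G) := hG.to_subgroup _
    have hf := (coatom_facts hGP M hM).2
    have h4 : N ≤ M.map (commutator G).subtype := by
      refine sup_le ?_ ?_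
      · rw [Subgroup.zpowers_le]
        exact ⟨z', hM' (Subgroup.mem_zpowers z'), rfl⟩
      · unfold pw
        rw [Subgroup.closure_le]
        rintro _ ⟨u, hu, rfl⟩
        exact ⟨⟨u, hu⟩ ^ p, hf ⟨u, hu⟩, rfl⟩
    apply hM.1
    rw [eq_top_iff]
    intro u _
    obtain ⟨v, hv, hvu⟩ := h4 (h2 u.2)
    have : v = u := Subtype.ext hvu
    rwa [this] at hv
  exact ⟨z', fun u => by
    have : u ∈ Subgroup.zpowers z' := by rw [h3]; exact Subgroup.mem_top u
    exact this⟩

/-- generating pairs of quotients -/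
theorem pair_quot {Q : Type} [Group Q] {f : G →* Q} (hf : Function.Surjective f) {x y : G}
    (hxy : Subgroup.closure {x, y} = ⊤) : Subgroup.closure {f x, f y} = ⊤ := by
  have h2 : ({f x, f y} : Set Q) = f '' {x, y} := by rw [Set.image_pair]
  rw [h2, ← MonoidHom.map_closure, hxy]
  exact Subgroup.map_top_of_surjective _ hf

/-- odd `p`: the derived subgroup is cyclic -/
theorem nec_odd {p : ℕ} [hp : Fact p.Prime] (hp2 : p ≠ 2) [Finite G] (hG : IsPGroup p G)
    (hP : PP G 2) {x y : G} (hxy : Subgroup.closure {x, y} = ⊤) : IsCyclic (commutator G) := by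
  apply cyclic_of hG hxy
  let S : Subgroup G := pw G p ⊔ g4 G
  have hSF : S ≤ frattini G := le_trans (sup_le (pw_le p) (g4_le.trans g3_le))
    (comm_le_frattini hG)
  let π := QuotientGroup.mk' S
  have hπ : Function.Surjective π := QuotientGroup.mk'_surjective S
  have hQ := (hP.quot S hSF).two
  have h4 : g4 (G ⧸ S) = ⊥ := by
    rw [← map_g4 hπ, Subgroup.map_eq_bot_iff, QuotientGroup.ker_mk']
    exact le_sup_right
  have hexp : ∀ u ∈ commutator (G ⧸ S), u ^ p = 1 := by
    intro u hu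
    rw [← map_comm hπ] at hu
    obtain ⟨v, hv, rfl⟩ := hu
    rw [← map_pow, ← MonoidHom.mem_ker, QuotientGroup.ker_mk']
    exact (le_sup_left : pw G p ≤ S) (mem_pw p hv)
  have h3 := odd_core hp.out hp2 hQ.star (pair_quot hπ hxy) hexp h4
  rw [← map_g3 hπ, Subgroup.map_eq_bot_iff, QuotientGroup.ker_mk'] at h3
  exact h3

/-- a nontrivial minimal normal subgroup of a 2-group -/
theorem min_normal_two [Finite G] (hG : IsPGroup 2 G) (S : Subgroup G) [hS : S.Normal]
    (hne : S ≠ ⊥) (hmin : ∀ N : Subgroup G, N.Normal → N ≤ S → N = ⊥ ∨ N = S) :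
    ∃ k : G, k ≠ 1 ∧ (∀ g, g * k = k * g) ∧ k * k = 1 ∧ ∀ s, s ∈ S ↔ s = 1 ∨ s = k := by
  have : Group.IsNilpotent G := (hG.isNilpotent (hp := ⟨Nat.prime_two⟩))
  have h1 : ⁅S, (⊤ : Subgroup G)⁆ = ⊥ := by
    rcases hmin ⁅S, (⊤ : Subgroup G)⁆ inferInstance (Subgroup.commutator_le_left _ _) with h | h
    · exact h
    · exfalso
      apply hne
      have := nil_le ⊥ S (by rw [h]; exact le_sup_right)
      exact le_bot_iff.1 this
  have hcen : ∀ s ∈ S, ∀ g : G, g * s = s * g := by
    intro s hs g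
    have h2 : ⁅s, g⁆ ∈ ⁅S, (⊤ : Subgroup G)⁆ :=
      Subgroup.commutator_mem_commutator hs (Subgroup.mem_top _)
    rw [h1, Subgroup.mem_bot, commutatorElement_eq_one_iff_mul_comm] at h2
    exact h2.symm
  have hcyc : ∀ s ∈ S, s ≠ 1 → Subgroup.zpowers s = S := by
    intro s hs hs1
    have hn : (Subgroup.zpowers s).Normal := by
      constructor
      rintro _ ⟨n, rfl⟩ g
      refine ⟨n, ?_⟩
      change s ^ n = g * s ^ n * g⁻¹
      rw [hcen _ (zpow_mem hs n), mul_inv_cancel_right]
    rcases hmin _ hn (by rwa [Subgroup.zpowers_le]) with h | h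
    · exact absurd (Subgroup.zpowers_eq_bot.1 h) hs1
    · exact h
  obtain ⟨k, hk, hk1⟩ := S.bot_or_exists_ne_one.resolve_left hne
  have hk2 : k * k = 1 := by
    by_contra hcon
    have h3 := hcyc (k * k) (mul_mem hk hk) hcon
    have h4 : k ∈ Subgroup.zpowers (k * k) := by rw [h3]; exact hk
    obtain ⟨n, hn⟩ := h4
    have hn' : (k * k) ^ n = k := hn
    obtain ⟨t, ht⟩ := hG k
    have e1 : k ^ (2 * n - 1) = 1 := by
      rw [zpow_sub, zpow_mul, zpow_two, hn', zpow_one, mul_inv_cancel]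
    have hco : IsCoprime (2 * n - 1) ((2 ^ t : ℕ) : ℤ) := by
      push_cast
      apply IsCoprime.pow_right
      exact ⟨-1, n, by ring⟩
    obtain ⟨r, s, hrs⟩ := hco
    apply hk1
    calc k = k ^ (r * (2 * n - 1) + s * ((2 ^ t : ℕ) : ℤ)) := by rw [hrs, zpow_one]
      _ = 1 := by
        rw [zpow_add, mul_comm r, zpow_mul, e1, one_zpow, one_mul, mul_comm s, zpow_mul,
          zpow_natCast, ht, one_zpow]
  refine ⟨k, hk1, hcen k hk, hk2, ?_⟩
  intro s
  constructor
  · intro hs
    have h3 : s ∈ Subgroup.zpowers k := by rw [hcyc k hk hk1]; exact hs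
    obtain ⟨n, hn⟩ := h3
    have hn' : k ^ n = s := hn
    have hk2' : k ^ (2 : ℤ) = 1 := by rw [zpow_two]; exact hk2
    rcases Int.even_or_odd' n with ⟨t, ht | ht⟩
    · left; rw [← hn', ht, zpow_mul, hk2', one_zpow]
    · right; rw [← hn', ht, zpow_add, zpow_mul, hk2', one_zpow, one_mul, zpow_one]
  · rintro (rfl | rfl)
    · exact one_mem _
    · exact hk

/-- `p = 2`, noncyclic derived subgroup -/
theorem nec_two [Finite G] (hG : IsPGroup 2 G) (hP : PP G 2) {x y : G}
    (hxy : Subgroup.closure {x, y} = ⊤) (hnc : ¬ IsCyclic (commutator G)) :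
    pw G 2 ⊔ g4 G = ⊥ := by
  have : Fact (Nat.Prime 2) := ⟨Nat.prime_two⟩
  by_contra hS0
  have h3S : ¬ g3 G ≤ pw G 2 ⊔ g4 G := fun h => hnc (cyclic_of hG hxy h)
  set S : Subgroup G := pw G 2 ⊔ g4 G with hSdef
  have hSn : S.Normal := by rw [hSdef]; infer_instance
  have hSle : S ≤ commutator G := sup_le (pw_le 2) (g4_le.trans g3_le)
  -- a maximal normal subgroup of `G` properly inside `S`
  obtain ⟨N, ⟨hN1, hN2⟩, hmax⟩ := WellFounded.has_min (α := Subgroup G) (r := (· > ·))
    wellFounded_gt {N | N.Normal ∧ N < S} ⟨⊥, inferInstance, bot_lt_iff_ne_bot.2 hS0⟩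
  have hNF : N ≤ frattini G := le_trans (hN2.le.trans hSle) (comm_le_frattini hG)
  let π := QuotientGroup.mk' N
  have hπ : Function.Surjective π := QuotientGroup.mk'_surjective N
  have hker : π.ker = N := QuotientGroup.ker_mk' N
  have hQ := (hP.quot N hNF).two
  have hQG : IsPGroup 2 (G ⧸ N) := hG.to_quotient N
  have hSn' : (S.map π).Normal := hSn.map π hπ
  obtain ⟨k, hk1, hkc, hk2, hkS⟩ := min_normal_two hQG (S.map π) (by
      intro h
      rw [Subgroup.map_eq_bot_iff, hker] at h
      exact absurd (lt_of_lt_of_le hN2 h) (lt_irrefl _)) (by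
      intro M hM hMS
      have hle : M.comap π ≤ S := by
        intro u hu
        obtain ⟨s, hs, hsu⟩ := hMS hu
        have e : s⁻¹ * u ∈ N := by
          rw [← hker, MonoidHom.mem_ker, map_mul, map_inv, hsu, inv_mul_cancel]
        have e2 : u = s * (s⁻¹ * u) := by group
        rw [e2]
        exact mul_mem hs (hN2.le e)
      have hNM : N ≤ M.comap π := by
        intro u hu
        have h8 : π u = 1 := (QuotientGroup.eq_one_iff u).2 hu
        rw [Subgroup.mem_comap, h8]
        exact one_mem _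
      have hMn : (M.comap π).Normal := hM.comap π
      by_cases hlt : N = M.comap π
      · left
        rw [← Subgroup.map_comap_eq_self_of_surjective hπ M, ← hlt, Subgroup.map_eq_bot_iff, hker]
      · right
        have h5 : M.comap π = S := by
          by_contra hcon
          exact hmax (M.comap π) ⟨hMn, lt_of_le_of_ne hle hcon⟩ (lt_of_le_of_ne hNM hlt)
        rw [← Subgroup.map_comap_eq_self_of_surjective hπ M, h5])
  have hkm : k ∈ commutator (G ⧸ N) := by
    have : k ∈ S.map π := (hkS k).2 (Or.inr rfl)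
    rw [← map_comm hπ]
    exact Subgroup.map_mono hSle this
  have h4 : ∀ u ∈ g4 (G ⧸ N), u = 1 ∨ u = k := by
    intro u hu
    rw [← hkS, ]
    rw [← map_g4 hπ] at hu
    exact Subgroup.map_mono le_sup_right hu
  have hcen : g4 (G ⧸ N) ≤ Subgroup.center (G ⧸ N) := by
    intro u hu
    rw [Subgroup.mem_center_iff]
    intro g
    rcases h4 u hu with rfl | rfl
    · rw [mul_one, one_mul]
    · exact hkc g
  have hxy' := pair_quot hπ hxy
  have : AbD (G ⧸ N) := abD_of hxy' hcen
  refine two_core hQ hk1 hkc hk2 hkm ?_ h4 ?_ ?_ hxy'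
  · intro u hu
    rw [← hkS]
    rw [← map_comm hπ] at hu
    obtain ⟨v, hv, rfl⟩ := hu
    rw [← map_mul, ← pow_two]
    exact Subgroup.mem_map_of_mem π ((le_sup_left : pw G 2 ≤ S) (mem_pw 2 hv))
  · by_contra hcon
    push Not at hcon
    apply h3S
    intro u hu
    have h5 : π u ∈ g3 (G ⧸ N) := by rw [← map_g3 hπ]; exact Subgroup.mem_map_of_mem π hu
    have h6 : π u ∈ S.map π := by
      rw [hkS]
      by_cases h7 : π u = 1
      · left; exact h7
      · right; exact hcon _ h5 h7
    obtain ⟨s, hs, hsu⟩ := h6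
    have e : s⁻¹ * u ∈ N := by
      rw [← hker, MonoidHom.mem_ker, map_mul, map_inv, hsu, inv_mul_cancel]
    have e2 : u = s * (s⁻¹ * u) := by group
    rw [e2]
    exact mul_mem hs (hN2.le e)
  · by_contra hcon
    push Not at hcon
    obtain ⟨c1, c2⟩ := hcon
    have hsq : ∀ u ∈ commutator (G ⧸ N), u * u = 1 := by
      intro u hu
      have h5 : u * u ∈ S.map π := by
        rw [← map_comm hπ] at hu
        obtain ⟨v, hv, rfl⟩ := hu
        rw [← map_mul, ← pow_two]
        exact Subgroup.mem_map_of_mem π ((le_sup_left : pw G 2 ≤ S) (mem_pw 2 hv))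
      rcases (hkS _).1 h5 with h6 | h6
      · exact h6
      · exact absurd h6 (c1 u hu)
    have h5 : S ≤ N := by
      rw [hSdef]
      refine sup_le ?_ ?_
      · unfold pw
        rw [Subgroup.closure_le]
        rintro _ ⟨u, hu, rfl⟩
        change u ^ 2 ∈ N
        rw [← hker, MonoidHom.mem_ker, map_pow, pow_two]
        apply hsq
        rw [← map_comm hπ]; exact Subgroup.mem_map_of_mem π hu
      · intro u hu
        rw [← hker, MonoidHom.mem_ker]
        have h6 : π u ∈ g4 (G ⧸ N) := by rw [← map_g4 hπ]; exact Subgroup.mem_map_of_mem π hu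
        rcases h4 _ h6 with h7 | h7
        · exact h7
        · exfalso; apply c2; rw [← h7]; exact h6
    exact absurd (lt_of_lt_of_le hN2 h5) (lt_irrefl _)

/-- `p = 2`, cyclic derived subgroup -/
theorem nec_two_cyc [Finite G] (hG : IsPGroup 2 G) (hP : PP G 2) {x y : G}
    (hxy : Subgroup.closure {x, y} = ⊤) (hc : IsCyclic (commutator G)) :
    ∀ u ∈ commutator G, ∀ g : G, ∃ v ∈ commutator G, ⁅u, g⁆ = v ^ 4 := by
  have : Fact (Nat.Prime 2) := ⟨Nat.prime_two⟩
  have hcomm : ∀ u ∈ commutator G, ∀ v ∈ commutator G, u * v = v * u := by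
    intro u hu v hv
    obtain ⟨z, hz⟩ := hc
    obtain ⟨m, hm⟩ := hz ⟨u, hu⟩
    obtain ⟨n, hn⟩ := hz ⟨v, hv⟩
    have e1 : (z : G) ^ m = u := congrArg Subtype.val hm
    have e2 : (z : G) ^ n = v := congrArg Subtype.val hn
    rw [← e1, ← e2, ← zpow_add, ← zpow_add, add_comm]
  -- the fourth powers form a subgroup
  have hpw : ∀ u, u ∈ pw G 4 → ∃ v ∈ commutator G, u = v ^ 4 := by
    intro u hu
    unfold pw at hu
    induction hu using Subgroup.closure_induction with
    | mem v hv => exact hv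
    | one => exact ⟨1, one_mem _, by rw [one_pow]⟩
    | mul v w _ _ hv hw =>
      obtain ⟨a, ha, rfl⟩ := hv
      obtain ⟨b, hb, rfl⟩ := hw
      refine ⟨a * b, mul_mem ha hb, ?_⟩
      have hab : Commute a b := hcomm a ha b hb
      rw [hab.mul_pow]
    | inv v _ hv =>
      obtain ⟨a, ha, rfl⟩ := hv
      exact ⟨a⁻¹, inv_mem ha, by rw [inv_pow]⟩
  have hNF : pw G 4 ≤ frattini G := le_trans (pw_le 4) (comm_le_frattini hG)
  let π := QuotientGroup.mk' (pw G 4)
  have hπ : Function.Surjective π := QuotientGroup.mk'_surjective (pw G 4)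
  have hker : π.ker = pw G 4 := QuotientGroup.ker_mk' _
  have hQ := (hP.quot (pw G 4) hNF).two
  have hxy' := pair_quot hπ hxy
  have hAb : AbD (G ⧸ pw G 4) := by
    refine ⟨?_⟩
    intro u hu v hv
    rw [← map_comm hπ] at hu hv
    obtain ⟨a, ha, rfl⟩ := hu
    obtain ⟨b, hb, rfl⟩ := hv
    rw [← map_mul, hcomm a ha b hb, map_mul]
  have h3 : g3 (G ⧸ pw G 4) = ⊥ := by
    refine cyc_core hQ.star hxy' ?_
    -- a generator of the derived subgroup of the quotient
    obtain ⟨z, hz⟩ := hc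
    have hzz : ∀ u ∈ commutator (G ⧸ pw G 4), ∃ n : ℤ, u = (π z) ^ n := by
      intro u hu
      rw [← map_comm hπ] at hu
      obtain ⟨a, ha, rfl⟩ := hu
      obtain ⟨m, hm⟩ := hz ⟨a, ha⟩
      have e1 : (z : G) ^ m = a := congrArg Subtype.val hm
      exact ⟨m, by rw [← e1, map_zpow]⟩
    have hz4 : (π z) ^ 4 = 1 := by
      rw [← map_pow, ← MonoidHom.mem_ker, hker]
      exact mem_pw 4 z.2
    have hzm : π z ∈ commutator (G ⧸ pw G 4) := by
      rw [← map_comm hπ]; exact Subgroup.mem_map_of_mem π z.2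
    intro g
    have hn : (commutator (G ⧸ pw G 4)).Normal := inferInstance
    obtain ⟨n, hn'⟩ := hzz _ (hn.conj_mem _ hzm g)
    have hconj : ∀ m : ℤ, g * (π z) ^ m * g⁻¹ = (π z) ^ (n * m) := by
      intro m
      rw [← conj_zpow, hn', zpow_mul]
    have hz4' : (π z) ^ (4 : ℤ) = 1 := by
      have := hz4
      rw [← zpow_natCast] at this
      exact_mod_cast this
    have hmod : (π z) ^ n = (π z) ^ (n % 4) := by
      conv_lhs => rw [← Int.emod_add_mul_ediv n 4]
      rw [zpow_add, zpow_mul, hz4', one_zpow, mul_one]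
    have h5 := Int.emod_nonneg n (by norm_num : (4 : ℤ) ≠ 0)
    have h6 := Int.emod_lt_of_pos n (by norm_num : (0 : ℤ) < 4)
    have htriv : π z = 1 → (∀ u ∈ commutator (G ⧸ pw G 4), g * u * g⁻¹ = u) := by
      intro h1 u hu
      obtain ⟨m, rfl⟩ := hzz u hu
      rw [h1, one_zpow, mul_one, mul_inv_cancel]
    interval_cases h7 : n % 4
    · left
      apply htriv
      rw [hmod, zpow_zero] at hn'
      have : π z = g⁻¹ * (g * π z * g⁻¹) * g := by group
      rw [this, hn', mul_one, inv_mul_cancel]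
    · left
      intro u hu
      obtain ⟨m, rfl⟩ := hzz u hu
      rw [hconj, zpow_mul, hmod, zpow_one]
    · left
      apply htriv
      rw [hmod] at hn'
      have e1 : g * (π z) ^ (2 : ℤ) * g⁻¹ = 1 := by
        rw [← conj_zpow, hn', ← zpow_mul]
        exact hz4'
      have e2 : (π z) ^ (2 : ℤ) = 1 := by
        have : (π z) ^ (2 : ℤ) = g⁻¹ * (g * (π z) ^ (2 : ℤ) * g⁻¹) * g := by group
        rw [this, e1, mul_one, inv_mul_cancel]
      rw [e2] at hn'
      have : π z = g⁻¹ * (g * π z * g⁻¹) * g := by group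
      rw [this, hn', mul_one, inv_mul_cancel]
    · right
      intro u hu
      obtain ⟨m, rfl⟩ := hzz u hu
      have e3 : (π z) ^ (3 : ℤ) = (π z)⁻¹ := by
        rw [eq_inv_iff_mul_eq_one, ← zpow_add_one]
        exact hz4'
      rw [hconj, zpow_mul, hmod, e3, inv_zpow]
  rw [← map_g3 hπ, Subgroup.map_eq_bot_iff, hker] at h3
  intro u hu g
  apply hpw
  apply h3
  exact Subgroup.commutator_mem_commutator hu (Subgroup.mem_top _)

/-- in class at least three there are at most two generators -/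
theorem d_le_two {p : ℕ} [hp : Fact p.Prime] [Finite G] (hG : IsPGroup p G) {d : ℕ}
    (hP : PP G d) (x : Fin d → G) (hx : Subgroup.closure (Set.range x) = ⊤)
    (h4 : g4 G = ⊥) (h3 : g3 G ≠ ⊥) : d ≤ 2 := by
  classical
  by_contra hd
  have hcen3 : ∀ c ∈ g3 G, ∀ g : G, g * c = c * g := by
    intro c hc g
    have h5 := mem_g4 g hc
    rwa [h4, Subgroup.mem_bot, commutatorElement_eq_one_iff_mul_comm] at h5
  let C : Subgroup G := Subgroup.centralizer (commutator G : Set G)
  have hC : C ≠ ⊤ := by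
    intro hC
    apply h3
    rw [eq_bot_iff]
    unfold g3
    rw [Subgroup.commutator_le]
    intro u hu g _
    have hg : g ∈ C := by rw [hC]; exact Subgroup.mem_top g
    rw [Subgroup.mem_bot, commutatorElement_eq_one_iff_mul_comm]
    exact Subgroup.mem_centralizer_iff.1 hg u hu
  obtain ⟨M, hM, hCM⟩ := (eq_top_or_exists_le_coatom C).resolve_left hC
  have hMf := coatom_facts hG M hM
  have hMn : M.Normal := by
    constructor
    intro m hm g
    have e : g * m * g⁻¹ = ⁅g, m⁆ * m := by rw [commutatorElement_def]; group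
    rw [e]
    exact mul_mem (hMf.1 g m) hm
  obtain ⟨i, hi⟩ : ∃ i, x i ∉ M := by
    by_contra hcon
    push Not at hcon
    apply hM.1
    rw [eq_top_iff, ← hx, Subgroup.closure_le]
    rintro _ ⟨i, rfl⟩
    exact hcon i
  have hpow : ∀ w : G, ∃ n : ℤ, w * (x i) ^ n ∈ M := by
    intro w
    have h5 : M ⊔ Subgroup.zpowers (x i) = ⊤ := by
      apply hM.2
      refine lt_of_le_of_ne le_sup_left ?_
      intro h
      apply hi
      rw [h]
      exact (le_sup_right : Subgroup.zpowers (x i) ≤ _) (Subgroup.mem_zpowers _)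
    have h6 : w ∈ ((M ⊔ Subgroup.zpowers (x i) : Subgroup G) : Set G) := by
      rw [h5]; exact Subgroup.mem_top w
    rw [Subgroup.normal_mul] at h6
    obtain ⟨m, hm, _, ⟨n, rfl⟩, hmn⟩ := h6
    refine ⟨-n, ?_⟩
    have hmn' : m * (x i) ^ n = w := hmn
    rw [← hmn', zpow_neg, mul_inv_cancel_right]
    exact hm
  choose n hn using hpow
  let x' : Fin d → G := fun j => if j = i then x i else x j * (x i) ^ n (x j)
  have hx'i : x' i = x i := if_pos rfl
  have hx'j : ∀ j, j ≠ i → x' j = x j * (x i) ^ n (x j) := fun j hj => if_neg hj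
  have hx' : Subgroup.closure (Set.range x') = ⊤ := by
    rw [eq_top_iff, ← hx, Subgroup.closure_le]
    have hi' : x i ∈ Subgroup.closure (Set.range x') := Subgroup.subset_closure ⟨i, hx'i⟩
    rintro _ ⟨j, rfl⟩
    by_cases hj : j = i
    · rw [hj]; exact hi'
    · have h5 : x j * (x i) ^ n (x j) ∈ Subgroup.closure (Set.range x') :=
        Subgroup.subset_closure ⟨j, hx'j j hj⟩
      have h6 := mul_mem h5 (inv_mem (zpow_mem hi' (n (x j))))
      rwa [mul_inv_cancel_right] at h6
  have hx'M : ∀ j, j ≠ i → x' j ∈ M := by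
    intro j hj
    rw [hx'j j hj]
    exact hn (x j)
  obtain ⟨j, l, hj, hl, hjl⟩ : ∃ j l : Fin d, j ≠ i ∧ l ≠ i ∧ l ≠ j := by
    have hcard : 1 < (Finset.univ.erase i).card := by
      rw [Finset.card_erase_of_mem (Finset.mem_univ i), Finset.card_univ, Fintype.card_fin]
      omega
    obtain ⟨a, ha, b, hb, hab⟩ := Finset.one_lt_card.1 hcard
    exact ⟨a, b, Finset.ne_of_mem_erase ha, Finset.ne_of_mem_erase hb, hab.symm⟩
  -- the automorphisms
  have hauto : ∀ (t : Fin d), ∀ g ∈ commutator G, ∃ α : G ≃* G, CP α ∧ α (x' t) = x' t * g ∧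
      ∀ s, s ≠ t → α (x' s) = x' s := by
    intro t g hg
    obtain ⟨α, hα, hα'⟩ := hP x' hx' (fun s => if s = t then g else 1) (by
      intro s
      by_cases hs : s = t
      · simp only [hs, if_true]; exact hg
      · simp only [hs, if_false]; exact one_mem _)
    refine ⟨α, hα, ?_, ?_⟩
    · have := hα' t
      rwa [if_pos rfl] at this
    · intro s hs
      have := hα' s
      rwa [if_neg hs, mul_one] at this
  -- `[x_l, h] = [x_i, x_j]`
  obtain ⟨h, hh⟩ := star_aux (x := x' l) (fun g hg => by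
    obtain ⟨α, hα, h5, -⟩ := hauto l g hg
    exact ⟨α, hα, h5⟩) ⁅x' i, x' j⁆ (comm_mem _ _)
  -- the exponent of `h`
  let π := QuotientGroup.mk' (g3 G)
  have hπ : Function.Surjective π := QuotientGroup.mk'_surjective (g3 G)
  have hker : π.ker = g3 G := QuotientGroup.ker_mk' _
  have hcenπ : ∀ g ∈ commutator G, ∀ w : G, π w * π g = π g * π w := by
    intro g hg w
    rw [← commutatorElement_eq_one_iff_mul_comm, ← map_commutatorElement, ← MonoidHom.mem_ker,
      hker]
    exact mem_g3 w hg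
  have hexp : ∀ h : G, ∃ e : ℤ, ∀ g ∈ commutator G, ∀ α : G ≃* G, α (x' j) = x' j * g →
      (∀ s, s ≠ j → α (x' s) = x' s) → π (α h) = π h * (π g) ^ e := by
    intro h
    have hh : h ∈ Subgroup.closure (Set.range x') := by rw [hx']; exact Subgroup.mem_top h
    induction hh using Subgroup.closure_induction with
    | mem w hw =>
      obtain ⟨s, rfl⟩ := hw
      by_cases hs : s = j
      · refine ⟨1, ?_⟩
        intro g hg α h5 h6
        rw [hs, h5, map_mul, zpow_one]
      · refine ⟨0, ?_⟩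
        intro g hg α h5 h6
        rw [h6 s hs, zpow_zero, mul_one]
    | one =>
      refine ⟨0, ?_⟩
      intro g hg α h5 h6
      rw [map_one, map_one, zpow_zero, mul_one]
    | mul v w _ _ hv hw =>
      obtain ⟨e1, h7⟩ := hv
      obtain ⟨e2, h8⟩ := hw
      refine ⟨e1 + e2, ?_⟩
      intro g hg α h5 h6
      rw [map_mul, map_mul, h7 g hg α h5 h6, h8 g hg α h5 h6, map_mul, zpow_add]
      have h9 : π w * (π g) ^ e1 = (π g) ^ e1 * π w := by
        rw [← map_zpow]; exact hcenπ _ (zpow_mem hg e1) w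
      rw [mul_assoc, ← mul_assoc _ (π w), ← h9, mul_assoc, mul_assoc]
    | inv v _ hv =>
      obtain ⟨e1, h7⟩ := hv
      refine ⟨-e1, ?_⟩
      intro g hg α h5 h6
      rw [map_inv, map_inv, h7 g hg α h5 h6, mul_inv_rev, map_inv, zpow_neg]
      have h9 : (π v)⁻¹ * ((π g) ^ e1)⁻¹ = ((π g) ^ e1)⁻¹ * (π v)⁻¹ := by
        rw [← zpow_neg, ← map_zpow, ← map_inv]; exact hcenπ _ (zpow_mem hg _) _
      rw [h9]
  obtain ⟨e, he⟩ := hexp h
  -- commutators with a fixed element of the derived subgroup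
  have hcomm1 : ∀ g ∈ commutator G, ∃ f : G →* G, ∀ t, f t = ⁅t, g⁆ := by
    intro g hg
    refine ⟨⟨⟨fun t => ⁅t, g⁆, commutatorElement_one_left g⟩, ?_⟩, fun t => rfl⟩
    intro t t'
    change ⁅t * t', g⁆ = ⁅t, g⁆ * ⁅t', g⁆
    have e1 : ⁅t * t', g⁆ = (t * ⁅t', g⁆ * t⁻¹) * ⁅t, g⁆ := by
      simp only [commutatorElement_def]; group
    rw [e1, hcen3 _ (mem_g3 t' hg) t, mul_inv_cancel_right, hcen3 _ (mem_g3 t hg)]
  have hkey : ∀ g ∈ commutator G, ⁅x' i, g⁆ = ⁅x' l, g⁆ ^ e := by
    intro g hg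
    obtain ⟨α, hα, h5, h6⟩ := hauto j g hg
    have h7 := he g hg α h5 h6
    have h8 : (h * g ^ e)⁻¹ * α h ∈ g3 G := by
      rw [← hker, MonoidHom.mem_ker, map_mul, map_inv, map_mul, map_zpow, h7, inv_mul_cancel]
    obtain ⟨c, hc, hce⟩ : ∃ c ∈ g3 G, α h = h * g ^ e * c :=
      ⟨_, h8, by rw [mul_inv_cancel_left]⟩
    have h9 := congrArg α hh
    rw [map_commutatorElement, map_commutatorElement, h6 l hjl, h6 i hj.symm, h5, hce] at h9
    have e1 : ⁅x' i, x' j * g⁆ = ⁅x' i, x' j⁆ * (x' j * ⁅x' i, g⁆ * (x' j)⁻¹) := by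
      simp only [commutatorElement_def]; group
    have e2 : ⁅x' l, h * g ^ e * c⁆ = ⁅x' l, h⁆ * (h * ⁅x' l, g ^ e * c⁆ * h⁻¹) := by
      simp only [commutatorElement_def]; group
    have e3 : ⁅x' l, g ^ e * c⁆ = ⁅x' l, g ^ e⁆ := by
      have h10 : ⁅x' l, g ^ e * c⁆ = ⁅x' l, g ^ e⁆ * (g ^ e * ⁅x' l, c⁆ * (g ^ e)⁻¹) := by
        simp only [commutatorElement_def]; group
      have h11 : ⁅x' l, c⁆ = 1 := by
        rw [commutatorElement_eq_one_iff_mul_comm]; exact hcen3 c hc _
      rw [h10, h11, mul_one, mul_inv_cancel, mul_one]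
    have e4 : ⁅x' l, g ^ e⁆ = ⁅x' l, g⁆ ^ e := by
      -- homomorphism in the second variable
      let f2 : commutator G →* G :=
        { toFun := fun u => ⁅x' l, (u : G)⁆
          map_one' := commutatorElement_one_right _
          map_mul' := by
            intro u v
            change ⁅x' l, (u : G) * v⁆ = ⁅x' l, (u : G)⁆ * ⁅x' l, (v : G)⁆
            have h10 : ⁅x' l, (u : G) * v⁆ = ⁅x' l, (u : G)⁆ * ((u : G) * ⁅x' l, (v : G)⁆ * (u : G)⁻¹) := by
              simp only [commutatorElement_def]; group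
            rw [h10, hcen3 _ (mem_g3 _ v.2) u, mul_inv_cancel_right] }
      have h10 := map_zpow f2 ⟨g, hg⟩ e
      exact h10
    rw [e1, e2, e3, e4, hcen3 _ (mem_g3 _ hg) (x' j), mul_inv_cancel_right,
      hcen3 _ (zpow_mem (mem_g3 _ hg) e) h, mul_inv_cancel_right, hh] at h9
    exact (mul_left_cancel h9).symm
  have hfin : (x' l) ^ (-e) * x' i ∈ C := by
    rw [Subgroup.mem_centralizer_iff]
    intro g hg
    obtain ⟨f, hf⟩ := hcomm1 g hg
    have h5 : ⁅(x' l) ^ (-e) * x' i, g⁆ = 1 := by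
      rw [← hf, map_mul, map_zpow, hf, hf, hkey g hg, ← zpow_add, neg_add_cancel, zpow_zero]
    rw [commutatorElement_eq_one_iff_mul_comm] at h5
    exact h5.symm
  apply hi
  rw [← hx'i]
  have h5 := mul_mem (zpow_mem (hx'M l hl) e) (hCM hfin)
  rwa [← mul_assoc, ← zpow_add, add_neg_cancel, zpow_zero, one_mul] at h5

end Pool.Agent.Helper721_C
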