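import Mathlib
import Pool.Agent.Helper721_C.Nec

/-!
# Sufficiency
-/

set_option autoImplicit false

open scoped commutatorElement
open Pool.Agent.Helper832.AutC

namespace Pool.Agent.Helper721_C

variable {G : Type} [Group G]

/-- independence of a shortest generating family modulo the Frattini subgroup -/
theorem indep {p : ℕ} [hp : Fact p.Prime] [Finite G] (hG : IsPGroup p G) {d : ℕ}
    (x : Fin d → G) (hx : Subgroup.closure (Set.range x) = ⊤) (hd : d = Group.rank G)
    (a : Fin d → ℤ) (w : G) (hw : Abelianization.of w = ∏ i, Abelianization.of (x i) ^ a i)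
    (hwF : w ∈ frattini G) (i : Fin d) : (p : ℤ) ∣ a i := by
  classical
  by_contra hi
  obtain ⟨hF1, hF2⟩ := frattini_facts hG
  let H : Subgroup G := Subgroup.closure (Set.range (fun j : {j : Fin d // j ≠ i} => x j)) ⊔ frattini G
  have hle : Subgroup.closure (Set.range (fun j : {j : Fin d // j ≠ i} => x j)) ≤ H := le_sup_left
  have hFH : frattini G ≤ H := le_sup_right
  have hcF : commutator G ≤ frattini G := comm_le_frattini hG
  have hother : ∀ j, j ≠ i → x j ∈ H := fun j hj => hle (Subgroup.subset_closure ⟨⟨j, hj⟩, rfl⟩)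
  let π : G →* Abelianization G := Abelianization.of
  have hker : ∀ u : G, π u ∈ H.map π → u ∈ H := by
    rintro u ⟨h, hh, hhu⟩
    have e2 : h⁻¹ * u ∈ commutator G := QuotientGroup.eq.mp hhu
    have e3 : u = h * (h⁻¹ * u) := by group
    rw [e3]
    exact mul_mem hh (hFH (hcF e2))
  have h1 : π (x i) ^ a i ∈ H.map π := by
    have h2 : π w = π (x i) ^ a i * ∏ j ∈ Finset.univ.erase i, π (x j) ^ a j := by
      rw [show π w = _ from hw]
      exact (Finset.mul_prod_erase Finset.univ (fun i => π (x i) ^ a i) (Finset.mem_univ i)).symm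
    have h3 : ∏ j ∈ Finset.univ.erase i, π (x j) ^ a j ∈ H.map π := by
      refine Subgroup.prod_mem _ (fun l hl => ?_)
      exact zpow_mem (Subgroup.mem_map_of_mem π (hother l (Finset.ne_of_mem_erase hl))) _
    have h4 : π (x i) ^ a i = π w * (∏ j ∈ Finset.univ.erase i, π (x j) ^ a j)⁻¹ := by
      rw [h2, mul_inv_cancel_right]
    rw [h4]
    exact mul_mem (Subgroup.mem_map_of_mem π (hFH hwF)) (inv_mem h3)
  have hco : IsCoprime (a i) (p : ℤ) := by
    rw [isCoprime_comm]
    exact (Prime.coprime_iff_not_dvd (Nat.prime_iff_prime_int.mp hp.out)).mpr hi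
  obtain ⟨r, s, hrs⟩ := hco
  have h5 : π (x i) = (π (x i) ^ a i) ^ r * (π (x i) ^ p) ^ s := by
    rw [← zpow_mul, ← zpow_natCast (π (x i)) p, ← zpow_mul, ← zpow_add]
    have e2 : a i * r + (p : ℤ) * s = 1 := by linarith
    rw [e2, zpow_one]
  have h6 : x i ∈ H := by
    apply hker
    rw [h5]
    refine mul_mem (zpow_mem h1 r) (zpow_mem ?_ s)
    rw [← map_pow]
    exact Subgroup.mem_map_of_mem π (hFH (hF2 (x i)))
  have h7 : H = ⊤ := by
    rw [eq_top_iff, ← hx, Subgroup.closure_le]
    rintro _ ⟨j, rfl⟩
    by_cases hj : j = i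
    · rw [hj]; exact h6
    · exact hother j hj
  have h8 := frattini_nongenerating h7
  have h9 : Group.rank G ≤ Nat.card {j : Fin d // j ≠ i} := by
    have h10 : Subgroup.closure ((Finset.univ.image (fun j : {j : Fin d // j ≠ i} => x j) :
        Finset G) : Set G) = ⊤ := by
      rw [Finset.coe_image, Finset.coe_univ, Set.image_univ]; exact h8
    refine le_trans (Group.rank_le h10) ?_
    refine le_trans Finset.card_image_le ?_
    rw [Finset.card_univ, Nat.card_eq_fintype_card]
  have h11 : Nat.card {j : Fin d // j ≠ i} = d - 1 := by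
    rw [Nat.card_eq_fintype_card, Fintype.card_subtype_compl, Fintype.card_fin,
      Fintype.card_subtype_eq]
  have : 0 < d := i.pos
  omega

/-- homomorphisms with prescribed values -/
theorem exists_hom {A : Type} [CommGroup A] {d : ℕ} (x : Fin d → G)
    (hx : Subgroup.closure (Set.range x) = ⊤) (g : Fin d → A)
    (h : ∀ a : Fin d → ℤ, ∏ i, Abelianization.of (x i) ^ a i = 1 → ∏ i, g i ^ a i = 1) :
    ∃ f : G →* A, (∀ i, f (x i) = g i) ∧ ∀ (w : G) (a : Fin d → ℤ),
      Abelianization.of w = ∏ i, Abelianization.of (x i) ^ a i → f w = ∏ i, g i ^ a i := by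
  classical
  let F : Multiplicative (Fin d → ℤ) →* Abelianization G :=
    { toFun := fun a => ∏ i, Abelianization.of (x i) ^ (Multiplicative.toAdd a) i
      map_one' := by simp
      map_mul' := by
        intro a b
        rw [← Finset.prod_mul_distrib]
        refine Finset.prod_congr rfl (fun i _ => ?_)
        rw [toAdd_mul, Pi.add_apply, zpow_add] }
  let E : Multiplicative (Fin d → ℤ) →* A :=
    { toFun := fun a => ∏ i, g i ^ (Multiplicative.toAdd a) i
      map_one' := by simp
      map_mul' := by
        intro a b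
        rw [← Finset.prod_mul_distrib]
        refine Finset.prod_congr rfl (fun i _ => ?_)
        rw [toAdd_mul, Pi.add_apply, zpow_add] }
  have hF : Function.Surjective F := by
    intro u
    have h1 : Subgroup.closure (Set.range (fun i => Abelianization.of (x i))) = ⊤ := by
      have e1 : Set.range (fun i => Abelianization.of (x i)) = Abelianization.of '' Set.range x :=
        Set.range_comp Abelianization.of x
      rw [e1, ← MonoidHom.map_closure, hx]
      exact Subgroup.map_top_of_surjective _ (QuotientGroup.mk'_surjective _)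
    obtain ⟨a, ha⟩ := exists_exp (fun i => Abelianization.of (x i)) u (by
      rw [h1]; exact Subgroup.mem_top u)
    exact ⟨Multiplicative.ofAdd a, ha.symm⟩
  have hker : F.ker ≤ E.ker := by
    intro a ha
    rw [MonoidHom.mem_ker] at ha ⊢
    exact h (Multiplicative.toAdd a) ha
  let f0 : Abelianization G →* A := F.liftOfSurjective hF ⟨E, hker⟩
  have hf0 : ∀ a, f0 (F a) = E a := by
    intro a
    exact F.liftOfRightInverse_comp_apply _ _ ⟨E, hker⟩ a
  refine ⟨f0.comp Abelianization.of, ?_, ?_⟩
  · intro i
    have h1 : Abelianization.of (x i) = F (Multiplicative.ofAdd (Pi.single i 1)) := by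
      change Abelianization.of (x i) = ∏ j, Abelianization.of (x j) ^ (Pi.single i 1 : Fin d → ℤ) j
      rw [Finset.prod_eq_single i]
      · rw [Pi.single_eq_same, zpow_one]
      · intro j _ hj
        rw [Pi.single_eq_of_ne hj, zpow_zero]
      · intro h; exact absurd (Finset.mem_univ i) h
    rw [MonoidHom.comp_apply, h1, hf0]
    change ∏ j, g j ^ (Pi.single i 1 : Fin d → ℤ) j = g i
    rw [Finset.prod_eq_single i]
    · rw [Pi.single_eq_same, zpow_one]
    · intro j _ hj
      rw [Pi.single_eq_of_ne hj, zpow_zero]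
    · intro h; exact absurd (Finset.mem_univ i) h
  · intro w a ha
    rw [MonoidHom.comp_apply, ha]
    exact hf0 (Multiplicative.ofAdd a)

/-- central automorphisms -/
theorem central_auto [Finite G] [AbD G] (f : G →* commutator G)
    (hf : ∀ w g : G, g * (f w : G) = (f w : G) * g) : ∃ α : G ≃* G, ∀ w, α w = w * f w := by
  have hk : ∀ u ∈ commutator G, f u = 1 := by
    intro u hu
    have h1 : ⁅(⊤ : Subgroup G), (⊤ : Subgroup G)⁆ ≤ f.ker := by
      rw [Subgroup.commutator_le]
      intro a _ b _
      rw [MonoidHom.mem_ker, map_commutatorElement, commutatorElement_eq_one_iff_mul_comm]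
      exact Subtype.ext (AbD.comm _ (f a).2 _ (f b).2)
    rw [commutator_def] at hu
    exact h1 hu
  let α0 : G →* G :=
    { toFun := fun w => w * f w
      map_one' := by simp
      map_mul' := by
        intro v w
        rw [map_mul, Subgroup.coe_mul, mul_assoc, ← mul_assoc w, hf v w, mul_assoc, mul_assoc] }
  have hinj : Function.Injective α0 := by
    rw [injective_iff_map_eq_one]
    intro w hw
    have hw' : w * f w = 1 := hw
    have h1 : w ∈ commutator G := by
      have : w = (f w : G)⁻¹ := eq_inv_of_mul_eq_one_left hw'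
      rw [this]
      exact inv_mem (f w).2
    rw [hk w h1] at hw'
    simpa using hw'
  have hbij : Function.Bijective α0 := Finite.injective_iff_bijective.1 hinj
  exact ⟨MulEquiv.ofBijective α0 hbij, fun w => rfl⟩

theorem AbD_of_g3 (h3 : g3 G = ⊥) : AbD G := by
  refine ⟨fun u hu v _ => ?_⟩
  have h1 : ⁅u, v⁆ ∈ g3 G := Subgroup.commutator_mem_commutator hu (Subgroup.mem_top v)
  rw [h3, Subgroup.mem_bot, commutatorElement_eq_one_iff_mul_comm] at h1
  exact h1

/-- from realisability to the count -/
theorem card_ge [Finite G] {d : ℕ} (x : Fin d → G)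
    (h : ∀ g : Fin d → G, (∀ i, g i ∈ commutator G) →
      ∃ α : G ≃* G, CP α ∧ ∀ i, α (x i) = x i * g i) :
    Nat.card (commutator G) ^ d ≤ Nat.card {α : G ≃* G // CP α} := by
  choose α hα hα' using fun g : Fin d → commutator G => h (fun i => g i) (fun i => (g i).2)
  have hinj : Function.Injective (fun g : Fin d → commutator G =>
      (⟨α g, hα g⟩ : {α : G ≃* G // CP α})) := by
    intro g g' hgg
    have h1 : α g = α g' := congrArg Subtype.val hgg
    funext i
    apply Subtype.ext
    have h2 := hα' g i
    rw [h1, hα' g' i] at h2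
    exact (mul_left_cancel h2).symm
  have h2 := Nat.card_le_card_of_injective _ hinj
  rwa [Nat.card_fun, Nat.card_eq_fintype_card (α := Fin d), Fintype.card_fin] at h2

/-- case (A) -/
theorem suff_A {p : ℕ} [hp : Fact p.Prime] [Finite G] (hG : IsPGroup p G) (h3 : g3 G = ⊥)
    (hs : ∀ x : G, x ∉ frattini G → ∀ z ∈ commutator G, ∃ g : G, ⁅x, g⁆ = z) {d : ℕ}
    (x : Fin d → G) (hx : Subgroup.closure (Set.range x) = ⊤) (hd : d = Group.rank G) :
    Nat.card (commutator G) ^ d ≤ Nat.card {α : G ≃* G // CP α} := by
  classical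
  have hAb : AbD G := AbD_of_g3 h3
  have hcen : ∀ u ∈ commutator G, ∀ g : G, g * u = u * g := by
    intro u hu g
    have h1 : ⁅u, g⁆ ∈ g3 G := Subgroup.commutator_mem_commutator hu (Subgroup.mem_top g)
    rw [h3, Subgroup.mem_bot, commutatorElement_eq_one_iff_mul_comm] at h1
    exact h1.symm
  have hsurj : Function.Surjective (Abelianization.of : G →* Abelianization G) :=
    QuotientGroup.mk'_surjective _
  -- commutators are bilinear
  have hpowl : ∀ (t g : G) (n : ℕ), ⁅g, t ^ n⁆ = ⁅g, t⁆ ^ n := by
    intro t g n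
    induction n with
    | zero => simp
    | succ n ih =>
      have e : ⁅g, t ^ n * t⁆ = ⁅g, t ^ n⁆ * (t ^ n * ⁅g, t⁆ * (t ^ n)⁻¹) := by
        simp only [commutatorElement_def]; group
      rw [pow_succ, e, hcen _ (comm_mem g t), mul_inv_cancel_right, ih, pow_succ]
  have hmulc : ∀ (g t c : G), c ∈ commutator G → ⁅g, t * c⁆ = ⁅g, t⁆ := by
    intro g t c hc
    have e : ⁅g, t * c⁆ = ⁅g, t⁆ * (t * ⁅g, c⁆ * t⁻¹) := by
      simp only [commutatorElement_def]; group
    have e2 : ⁅g, c⁆ = 1 := by
      rw [commutatorElement_eq_one_iff_mul_comm]; exact hcen c hc g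
    rw [e, e2, mul_one, mul_inv_cancel, mul_one]
  -- killing exponents
  have hkill : ∀ a : Fin d → ℤ, ∏ i, Abelianization.of (x i) ^ a i = 1 →
      ∀ i, ∀ u ∈ commutator G, u ^ a i = 1 := by
    intro a ha
    have key : ∀ n : ℕ, (∀ i, ∀ u ∈ commutator G, u ^ a i = 1) ∨ (∀ i, ((p ^ n : ℕ) : ℤ) ∣ a i) := by
      intro n
      induction n with
      | zero => right; intro i; simp
      | succ n ih =>
        rcases ih with ih | ih
        · exact Or.inl ih
        · choose b hb using ih
          obtain ⟨w, hw⟩ := hsurj (∏ i, Abelianization.of (x i) ^ b i)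
          have hwp : w ^ (p ^ n) ∈ commutator G := by
            have e1 : Abelianization.of (w ^ (p ^ n)) = 1 := by
              rw [map_pow, hw, ← Finset.prod_pow, ← ha]
              refine Finset.prod_congr rfl (fun i _ => ?_)
              rw [hb i, mul_comm, zpow_mul, zpow_natCast]
            exact (QuotientGroup.eq_one_iff _).mp e1
          by_cases hwF : w ∈ frattini G
          · right
            intro i
            obtain ⟨c, hc⟩ := indep hG x hx hd b w hw hwF i
            refine ⟨c, ?_⟩
            rw [hb i, hc, pow_succ]; push_cast; ring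
          · left
            intro i u hu
            obtain ⟨g, hg⟩ := hs w hwF u⁻¹ (inv_mem hu)
            have hg' : ⁅g, w⁆ = u := by
              rw [← commutatorElement_inv, hg, inv_inv]
            have e2 : u ^ (p ^ n) = 1 := by
              rw [← hg', ← hpowl, commutatorElement_eq_one_iff_mul_comm]
              exact hcen _ hwp g
            rw [hb i, zpow_mul, zpow_natCast, e2, one_zpow]
    have hGP : IsPGroup p (commutator G) := hG.to_subgroup _
    obtain ⟨N, hN⟩ := IsPGroup.iff_card.1 hGP
    rcases key N with h1 | h1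
    · exact h1
    · intro i u hu
      obtain ⟨c, hc⟩ := h1 i
      have e1 : u ^ (p ^ N) = 1 := by
        have := pow_card_eq_one' (x := (⟨u, hu⟩ : commutator G))
        rw [hN] at this
        exact congrArg Subtype.val this
      rw [hc, zpow_mul, zpow_natCast, e1, one_zpow]
  apply card_ge x
  intro g hg
  obtain ⟨f, hf1, hf2⟩ := exists_hom x hx (fun i => (⟨g i, hg i⟩ : commutator G)) (by
    intro a ha
    apply Finset.prod_eq_one
    intro i _
    apply Subtype.ext
    exact hkill a ha i _ (hg i))
  obtain ⟨α, hα⟩ := central_auto f (fun w g => hcen _ (f w).2 g)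
  refine ⟨α, ?_, fun i => by rw [hα, hf1]⟩
  -- class-preserving
  have hP : ∀ k : ℕ, ∀ a : Fin d → ℤ, (∃ i, a i ≠ 0 ∧ (a i).natAbs ≤ k) → ∀ w : G,
      Abelianization.of w = ∏ i, Abelianization.of (x i) ^ a i → ∃ t : G, ⁅t, w⁆ = f w := by
    intro k
    induction k with
    | zero =>
      rintro a ⟨i, h1, h2⟩
      exact absurd (Int.natAbs_eq_zero.1 (Nat.le_zero.1 h2)) h1
    | succ k ih =>
      rintro a ⟨i, h1, h2⟩ w hw
      by_cases hwF : w ∈ frattini G
      · have h5 := indep hG x hx hd a w hw hwF
        choose b hb using h5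
        obtain ⟨v, hv⟩ := hsurj (∏ i, Abelianization.of (x i) ^ b i)
        have hbi : b i ≠ 0 := by
          intro h; apply h1; rw [hb i, h, mul_zero]
        have hlt : (b i).natAbs ≤ k := by
          have e1 : (a i).natAbs = p * (b i).natAbs := by rw [hb i, Int.natAbs_mul]; rfl
          have e2 : 0 < (b i).natAbs := Int.natAbs_pos.2 hbi
          have e3 := hp.out.two_le
          have : 2 * (b i).natAbs ≤ (a i).natAbs := by rw [e1]; exact Nat.mul_le_mul_right _ e3
          omega
        obtain ⟨t, ht⟩ := ih b ⟨i, hbi, hlt⟩ v hv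
        have hwv : ∃ c ∈ commutator G, w = v ^ p * c := by
          refine ⟨(v ^ p)⁻¹ * w, ?_, by rw [mul_inv_cancel_left]⟩
          have e1 : Abelianization.of (v ^ p) = Abelianization.of w := by
            rw [map_pow, hv, hw, ← Finset.prod_pow]
            refine Finset.prod_congr rfl (fun i _ => ?_)
            rw [hb i, mul_comm, zpow_mul, zpow_natCast]
          exact QuotientGroup.eq.mp e1
        obtain ⟨c, hc, rfl⟩ := hwv
        refine ⟨t, ?_⟩
        have hfc : f c = 1 := by
          have := hf2 c (fun _ => 0) (by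
            simp only [zpow_zero, Finset.prod_const_one]
            exact (QuotientGroup.eq_one_iff _).mpr hc)
          rw [this]
          simp
        rw [hmulc t _ c hc, hpowl, ht, map_mul, hfc, mul_one, map_pow, Subgroup.coe_pow]
      · obtain ⟨t, ht⟩ := hs w hwF (f w : G)⁻¹ (inv_mem (f w).2)
        exact ⟨t, by rw [← commutatorElement_inv, ht, inv_inv]⟩
  intro w
  rw [isConj_iff]
  obtain ⟨a, ha⟩ := exists_exp (fun i => Abelianization.of (x i)) (Abelianization.of w) (by
    have e1 : Set.range (fun i => Abelianization.of (x i)) = Abelianization.of '' Set.range x :=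
      Set.range_comp Abelianization.of x
    rw [e1, ← MonoidHom.map_closure, hx, Subgroup.map_top_of_surjective _ hsurj]
    exact Subgroup.mem_top _)
  have hex : ∃ t : G, ⁅t, w⁆ = f w := by
    by_cases hz : ∃ i, a i ≠ 0
    · obtain ⟨i, hi⟩ := hz
      exact hP _ a ⟨i, hi, le_refl _⟩ w ha
    · push Not at hz
      refine ⟨1, ?_⟩
      rw [hf2 w a ha]
      simp [hz]
  obtain ⟨t, ht⟩ := hex
  refine ⟨t, ?_⟩
  have e : t * w * t⁻¹ = ⁅t, w⁆ * w := by rw [commutatorElement_def]; group
  rw [e, ht, hα, hcen _ (f w).2]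

end Pool.Agent.Helper721_C
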