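import Mathlib
import Pool.Agent.Helper721_C.Suff

/-!
# Sufficiency: two-generator groups with cyclic derived subgroup
-/

set_option autoImplicit false

open scoped commutatorElement
open Pool.Agent.Helper832.AutC

namespace Pool.Agent.Helper721_C

/-- the arithmetic of `1 + s + ⋯ + s^{b-1}` -/
theorem arith_aux {p : ℕ} (hp : p.Prime) (k : ℕ) :
    ∀ (s : ℤ) (b : ℕ), (p : ℤ) ∣ s - 1 → (p = 2 → ((4 : ℤ) ∣ s - 1 ∨ k ≤ 1)) →
      ((p ^ k : ℕ) : ℤ) ∣ ∑ i ∈ Finset.range b, s ^ i → p ^ k ∣ b := by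
  induction k with
  | zero => intro s b _ _ _; simp
  | succ k ih =>
    intro s b h1 h2 h3
    have hpk : ((p ^ (k + 1) : ℕ) : ℤ) = (p : ℤ) * ((p ^ k : ℕ) : ℤ) := by
      push_cast; ring
    have hpow : ∀ i : ℕ, (p : ℤ) ∣ s ^ i - 1 := by
      intro i
      have := sub_dvd_pow_sub_pow s 1 i
      rw [one_pow] at this
      exact h1.trans this
    -- `p ∣ b`
    have hb : (p : ℤ) ∣ b := by
      have e1 : (p : ℤ) ∣ ∑ i ∈ Finset.range b, s ^ i := (Dvd.intro _ hpk.symm).trans h3
      have e2 : (p : ℤ) ∣ (∑ i ∈ Finset.range b, s ^ i) - ∑ i ∈ Finset.range b, (1 : ℤ) := by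
        rw [← Finset.sum_sub_distrib]
        exact Finset.dvd_sum (fun i _ => hpow i)
      have e3 := dvd_sub e1 e2
      rw [sub_sub_cancel] at e3
      simpa using e3
    obtain ⟨c, rfl⟩ : p ∣ b := by exact_mod_cast hb
    by_cases hk : k = 0
    · subst hk; simp
    -- factor the sum
    have hfac : ∑ i ∈ Finset.range (p * c), s ^ i
        = (∑ i ∈ Finset.range c, s ^ i) * ∑ r ∈ Finset.range p, (s ^ c) ^ r := by
      have key : ∀ q : ℕ, ∑ i ∈ Finset.range (q * c), s ^ i
          = (∑ i ∈ Finset.range c, s ^ i) * ∑ r ∈ Finset.range q, (s ^ c) ^ r := by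
        intro q
        induction q with
        | zero => simp
        | succ q ihq =>
          rw [Finset.sum_range_succ, mul_add, ← ihq, add_mul, one_mul, Finset.sum_range_add]
          congr 1
          rw [Finset.sum_mul]
          refine Finset.sum_congr rfl (fun i _ => ?_)
          rw [pow_add, ← pow_mul, mul_comm c q]; ring
      exact key p
    -- the second factor is `p` times a unit modulo `p`
    obtain ⟨u, hu, hpu⟩ : ∃ u : ℤ, ∑ r ∈ Finset.range p, (s ^ c) ^ r = p * u ∧ ¬ (p : ℤ) ∣ u := by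
      rcases hp.eq_two_or_odd' with rfl | hodd
      · have h4 : (4 : ℤ) ∣ s - 1 := (h2 rfl).resolve_right (by omega)
        obtain ⟨t, ht⟩ : (4 : ℤ) ∣ s ^ c - 1 := by
          have := sub_dvd_pow_sub_pow s 1 c
          rw [one_pow] at this
          exact h4.trans this
        refine ⟨1 + 2 * t, ?_, ?_⟩
        · rw [Finset.sum_range_succ, Finset.sum_range_one, pow_zero, pow_one]
          have : s ^ c = 1 + 4 * t := by linarith
          rw [this]; push_cast; ring
        · push_cast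
          omega
      · obtain ⟨t, ht⟩ := hpow c
        have hs : s ^ c = 1 + p * t := by linarith
        -- `(1 + p t)^r = 1 + r p t mod p²`
        have hr : ∀ r : ℕ, ∃ v : ℤ, (s ^ c) ^ r = 1 + r * (p * t) + (p : ℤ) ^ 2 * v := by
          intro r
          induction r with
          | zero => exact ⟨0, by simp⟩
          | succ r ihr =>
            obtain ⟨v, hv⟩ := ihr
            refine ⟨v + r * t ^ 2 + v * (p * t), ?_⟩
            rw [pow_succ, hv, hs]; push_cast; ring
        choose v hv using hr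
        obtain ⟨m, hm⟩ := hodd
        have hsum : ∑ r ∈ Finset.range p, (r : ℤ) = p * m := by
          have h5 := Finset.sum_range_id_mul_two p
          have h6 : (∑ r ∈ Finset.range p, (r : ℤ)) * 2 = p * (p - 1) := by
            have h7 : ((∑ r ∈ Finset.range p, r : ℕ) : ℤ) * 2 = ((p * (p - 1) : ℕ) : ℤ) := by
              exact_mod_cast h5
            rw [Nat.cast_sum, Nat.cast_mul, Nat.cast_sub hp.one_lt.le] at h7
            exact_mod_cast h7
          have h8 : (p : ℤ) = 2 * m + 1 := by exact_mod_cast hm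
          have h9 : (∑ r ∈ Finset.range p, (r : ℤ)) * 2 = (p * m) * 2 := by
            rw [h6]
            have : (p : ℤ) - 1 = m * 2 := by rw [h8]; ring
            rw [this]; ring
          linarith
        refine ⟨1 + p * (m * t + ∑ r ∈ Finset.range p, v r), ?_, ?_⟩
        · have e1 : ∑ r ∈ Finset.range p, (s ^ c) ^ r
              = ∑ r ∈ Finset.range p, (1 + (r : ℤ) * (p * t) + (p : ℤ) ^ 2 * v r) :=
            Finset.sum_congr rfl (fun r _ => hv r)
          rw [e1, Finset.sum_add_distrib, Finset.sum_add_distrib, ← Finset.sum_mul,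
            ← Finset.mul_sum, hsum]
          simp only [Finset.sum_const, Finset.card_range, nsmul_eq_mul, mul_one]
          ring
        · intro h5
          have h6 : (p : ℤ) ∣ 1 := by
            have := dvd_sub h5 (Dvd.intro (m * t + ∑ r ∈ Finset.range p, v r) rfl)
            rwa [add_sub_cancel_right] at this
          have h7 : p ∣ 1 := by exact_mod_cast h6
          exact hp.one_lt.ne' (Nat.dvd_one.1 h7)
    rw [hfac, hu, hpk] at h3
    have h5 : ((p ^ k : ℕ) : ℤ) ∣ (∑ i ∈ Finset.range c, s ^ i) * u := by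
      have hp0 : (p : ℤ) ≠ 0 := by exact_mod_cast hp.ne_zero
      have e1 : (∑ i ∈ Finset.range c, s ^ i) * (p * u)
          = p * ((∑ i ∈ Finset.range c, s ^ i) * u) := by ring
      rw [e1] at h3
      exact Int.dvd_of_mul_dvd_mul_left hp0 h3
    have hco : IsCoprime ((p ^ k : ℕ) : ℤ) u := by
      push_cast
      apply IsCoprime.pow_left
      exact (Prime.coprime_iff_not_dvd (Nat.prime_iff_prime_int.mp hp)).mpr hpu
    have h6 := hco.dvd_of_dvd_mul_right h5
    have h7 := ih s c h1 (fun h => by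
      rcases h2 h with h8 | h8
      · exact Or.inl h8
      · right; omega) h6
    rw [pow_succ, mul_comm (p ^ k) p]
    exact Nat.mul_dvd_mul_left p h7

variable {G : Type} [Group G]

/-- case (B) -/
theorem suff_B {p : ℕ} [hp : Fact p.Prime] [Finite G] (hG : IsPGroup p G) {x y : G}
    (hxy : Subgroup.closure {x, y} = ⊤) (hc : IsCyclic (commutator G))
    (h4 : p = 2 → ∀ u ∈ commutator G, ∀ g : G, ∃ v ∈ commutator G, ⁅u, g⁆ = v ^ 4) :
    Nat.card (commutator G) ^ 2 ≤ Nat.card {α : G ≃* G // CP α} := by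
  have hnil : Group.IsNilpotent G := hG.isNilpotent
  have hGP : IsPGroup p (commutator G) := hG.to_subgroup _
  obtain ⟨k, hk⟩ := IsPGroup.iff_card.1 hGP
  -- `z = [x, y]` generates the derived subgroup
  have hcomm : ∀ u ∈ commutator G, ∀ v ∈ commutator G, u * v = v * u := by
    intro u hu v hv
    obtain ⟨z, hz⟩ := hc
    obtain ⟨m, hm⟩ := hz ⟨u, hu⟩
    obtain ⟨n, hn⟩ := hz ⟨v, hv⟩
    have e1 : (z : G) ^ m = u := congrArg Subtype.val hm
    have e2 : (z : G) ^ n = v := congrArg Subtype.val hn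
    rw [← e1, ← e2, ← zpow_add, ← zpow_add, add_comm]
  have hAb : AbD G := ⟨hcomm⟩
  -- every subgroup of the derived subgroup is normal
  obtain ⟨z0, hz0⟩ := hc
  have hconj : ∀ g : G, ∃ n : ℤ, ∀ u ∈ commutator G, g * u * g⁻¹ = u ^ n := by
    intro g
    have hn : (commutator G).Normal := inferInstance
    obtain ⟨n, hn'⟩ := hz0 ⟨g * z0 * g⁻¹, hn.conj_mem _ z0.2 g⟩
    have hn'' : (z0 : G) ^ n = g * z0 * g⁻¹ := congrArg Subtype.val hn'
    refine ⟨n, ?_⟩
    intro u hu
    obtain ⟨m, hm⟩ := hz0 ⟨u, hu⟩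
    have e1 : (z0 : G) ^ m = u := congrArg Subtype.val hm
    rw [← e1, ← conj_zpow, ← hn'', ← zpow_mul, ← zpow_mul, mul_comm]
  have hgen : ∀ x y : G, Subgroup.closure {x, y} = ⊤ → ∀ u ∈ commutator G, ∃ n : ℤ,
      u = ⁅x, y⁆ ^ n := by
    intro x y hxy u hu
    have hN : (Subgroup.zpowers ⁅x, y⁆).Normal := by
      constructor
      rintro _ ⟨n, rfl⟩ g
      obtain ⟨m, hm⟩ := hconj g
      have e : g * ⁅x, y⁆ ^ n * g⁻¹ = (⁅x, y⁆ ^ n) ^ m := hm _ (zpow_mem (comm_mem x y) n)
      change g * ⁅x, y⁆ ^ n * g⁻¹ ∈ _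
      rw [e]
      exact zpow_mem (zpow_mem (Subgroup.mem_zpowers _) n) m
    obtain ⟨n, hn⟩ := commutator_le_of_normal hxy _ (Subgroup.mem_zpowers ⁅x, y⁆) hu
    exact ⟨n, hn.symm⟩
  have hord : ∀ x y : G, Subgroup.closure {x, y} = ⊤ → orderOf ⁅x, y⁆ = p ^ k := by
    intro x y hxy
    rw [← hk, ← Nat.card_zpowers]
    apply le_antisymm
    · exact Subgroup.card_le_of_le (by rw [Subgroup.zpowers_le]; exact comm_mem x y)
    · apply Subgroup.card_le_of_le
      intro u hu
      obtain ⟨n, hn⟩ := hgen x y hxy u hu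
      exact ⟨n, hn.symm⟩
  -- the main claim
  have main : ∀ x y : G, Subgroup.closure {x, y} = ⊤ → ∀ b : ℕ, ⁅x, y ^ b⁆ = 1 → p ^ k ∣ b := by
    intro x y hxy b hb
    obtain ⟨s, hs⟩ := hconj y
    have hz := hs _ (comm_mem x y)
    have hpow : ∀ i : ℕ, y ^ i * ⁅x, y⁆ * (y ^ i)⁻¹ = ⁅x, y⁆ ^ (s ^ i) := by
      intro i
      induction i with
      | zero => simp
      | succ i ih =>
        have e : y ^ (i + 1) * ⁅x, y⁆ * (y ^ (i + 1))⁻¹
            = y * (y ^ i * ⁅x, y⁆ * (y ^ i)⁻¹) * y⁻¹ := by rw [pow_succ']; group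
        rw [e, ih, ← conj_zpow, hz, ← zpow_mul, pow_succ']
    have hsum : ∀ b : ℕ, ⁅x, y ^ b⁆ = ⁅x, y⁆ ^ (∑ i ∈ Finset.range b, s ^ i) := by
      intro b
      induction b with
      | zero => simp
      | succ b ih =>
        have e : ⁅x, y ^ (b + 1)⁆ = ⁅x, y ^ b⁆ * (y ^ b * ⁅x, y⁆ * (y ^ b)⁻¹) := by
          rw [pow_succ]; simp only [commutatorElement_def]; group
        rw [e, ih, hpow, Finset.sum_range_succ, zpow_add]
    rw [hsum, ← orderOf_dvd_iff_zpow_eq_one, hord x y hxy] at hb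
    by_cases hk0 : k = 0
    · subst hk0; simp
    have hg3lt : ⁅y, ⁅x, y⁆⁆ = ⁅x, y⁆ ^ (s - 1) := by
      have e : ⁅y, ⁅x, y⁆⁆ = (y * ⁅x, y⁆ * y⁻¹) * ⁅x, y⁆⁻¹ := by
        rw [commutatorElement_def y]
      rw [e, hz, zpow_sub_one]
    have hps : (p : ℤ) ∣ s - 1 := by
      by_contra hcon
      -- then `g3 = commutator`
      have hco : IsCoprime (s - 1) ((p ^ k : ℕ) : ℤ) := by
        rw [isCoprime_comm]
        push_cast
        apply IsCoprime.pow_left
        exact (Prime.coprime_iff_not_dvd (Nat.prime_iff_prime_int.mp hp.out)).mpr hcon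
      obtain ⟨r, t, hrt⟩ := hco
      have h5 : ⁅x, y⁆ ∈ g3 G := by
        have e1 : ⁅x, y⁆ = (⁅x, y⁆ ^ (s - 1)) ^ r := by
          rw [← zpow_mul]
          have e2 : (s - 1) * r = 1 + ((p ^ k : ℕ) : ℤ) * (-t) := by linarith
          rw [e2, zpow_add, zpow_one, zpow_mul, zpow_natCast, ← hord x y hxy, pow_orderOf_eq_one,
            one_zpow, mul_one]
        rw [e1, ← hg3lt]
        exact zpow_mem (mem_g3 y (comm_mem x y)) r
      have h6 : commutator G ≤ g3 G := commutator_le_of_normal hxy (g3 G) h5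
      have h7 : commutator G ≤ ⊥ := nil_le ⊥ (commutator G) (by rw [bot_sup_eq]; exact h6)
      have h8 : ⁅x, y⁆ = 1 := Subgroup.mem_bot.1 (h7 (comm_mem x y))
      have h9 := hord x y hxy
      rw [h8, orderOf_one] at h9
      have := Nat.one_lt_pow hk0 hp.out.one_lt
      omega
    refine arith_aux hp.out k s b hps ?_ hb
    intro h2
    by_cases hk1 : k ≤ 1
    · exact Or.inr hk1
    left
    obtain ⟨v, hv, hv4⟩ := h4 h2 _ (comm_mem x y) y
    obtain ⟨n, hn⟩ := hgen x y hxy v hv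
    have e1 : ⁅x, y⁆ ^ (s - 1 + 4 * n) = 1 := by
      rw [zpow_add, ← hg3lt, ← commutatorElement_inv, hv4, hn, ← zpow_natCast, ← zpow_mul,
        mul_comm n]
      push_cast
      rw [inv_mul_cancel]
    rw [← orderOf_dvd_iff_zpow_eq_one, hord x y hxy] at e1
    have h5 : (4 : ℤ) ∣ ((p ^ k : ℕ) : ℤ) := by
      rw [h2]
      have : (4 : ℕ) ∣ 2 ^ k := by
        rw [show (4 : ℕ) = 2 ^ 2 by norm_num]
        exact Nat.pow_dvd_pow 2 (by omega)
      exact_mod_cast this
    have h6 := h5.trans e1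
    have h7 := dvd_sub h6 (Dvd.intro n rfl)
    rwa [add_sub_cancel_right] at h7
  -- `x^a y^b` central
  have hcentral : ∀ a b : ℤ, x ^ a * y ^ b ∈ Subgroup.center G →
      ((p ^ k : ℕ) : ℤ) ∣ a ∧ ((p ^ k : ℕ) : ℤ) ∣ b := by
    intro a b hab
    have hint : ∀ x y : G, Subgroup.closure {x, y} = ⊤ → ∀ b : ℤ, ⁅x, y ^ b⁆ = 1 →
        ((p ^ k : ℕ) : ℤ) ∣ b := by
      intro x y hxy b hb
      rcases Int.eq_nat_or_neg b with ⟨n, rfl | rfl⟩
      · rw [zpow_natCast] at hb
        exact_mod_cast main x y hxy n hb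
      · rw [dvd_neg]
        have h5 : ⁅x, y ^ n⁆ = 1 := by
          rw [commutatorElement_eq_one_iff_mul_comm] at hb ⊢
          rw [zpow_neg, zpow_natCast] at hb
          calc x * y ^ n = y ^ n * ((y ^ n)⁻¹ * x) * y ^ n := by group
            _ = y ^ n * (x * (y ^ n)⁻¹) * y ^ n := by rw [hb]
            _ = y ^ n * x := by group
        exact_mod_cast main x y hxy n h5
    have h5 := Subgroup.mem_center_iff.1 hab
    constructor
    · apply hint y x (closure_swap hxy)
      rw [commutatorElement_eq_one_iff_mul_comm]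
      have h6 := h5 y
      have e1 : y * (x ^ a * y ^ b) = (y * x ^ a) * y ^ b := by group
      have e2 : x ^ a * y ^ b * y = (x ^ a * y) * y ^ b := by
        rw [mul_assoc, ← zpow_add_one, mul_assoc, ← zpow_one_add, add_comm]
      rw [e1, e2] at h6
      exact mul_right_cancel h6
    · apply hint x y hxy
      rw [commutatorElement_eq_one_iff_mul_comm]
      have h6 := h5 x
      have e1 : x * (x ^ a * y ^ b) = x ^ a * (x * y ^ b) := by
        rw [← mul_assoc, ← zpow_one_add, add_comm, zpow_add_one, mul_assoc]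
      have e2 : x ^ a * y ^ b * x = x ^ a * (y ^ b * x) := by rw [mul_assoc]
      rw [e1, e2] at h6
      exact mul_left_cancel h6
  -- inner automorphisms
  have hinj : Function.Injective (fun ij : Fin (p ^ k) × Fin (p ^ k) =>
      (⟨MulAut.conj (x ^ (ij.1 : ℕ) * y ^ (ij.2 : ℕ)), fun w => isConj_iff.2 ⟨_, rfl⟩⟩ :
        {α : G ≃* G // CP α})) := by
    rintro ⟨i, j⟩ ⟨i', j'⟩ h
    have h1 : MulAut.conj (x ^ (i : ℕ) * y ^ (j : ℕ)) = MulAut.conj (x ^ (i' : ℕ) * y ^ (j' : ℕ)) :=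
      congrArg Subtype.val h
    have h2 : (x ^ (i' : ℕ) * y ^ (j' : ℕ))⁻¹ * (x ^ (i : ℕ) * y ^ (j : ℕ)) ∈
        Subgroup.center G := by
      rw [Subgroup.mem_center_iff]
      intro w
      have h0 := DFunLike.congr_fun h1 w
      rw [MulAut.conj_apply, MulAut.conj_apply] at h0
      set A := x ^ (i : ℕ) * y ^ (j : ℕ)
      set B := x ^ (i' : ℕ) * y ^ (j' : ℕ)
      calc w * (B⁻¹ * A) = B⁻¹ * (B * w * B⁻¹) * A := by group
        _ = B⁻¹ * (A * w * A⁻¹) * A := by rw [h0]
        _ = B⁻¹ * A * w := by group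
    have h3 : x ^ ((i : ℤ) - i') * y ^ ((j : ℤ) - j') ∈ Subgroup.center G := by
      have hn : (Subgroup.center G).Normal := inferInstance
      have h4 := hn.conj_mem _ h2 (y ^ (j' : ℕ))
      have h5 : y ^ (j' : ℕ) * ((x ^ (i' : ℕ) * y ^ (j' : ℕ))⁻¹ * (x ^ (i : ℕ) * y ^ (j : ℕ))) *
          (y ^ (j' : ℕ))⁻¹ = x ^ ((i : ℤ) - i') * y ^ ((j : ℤ) - j') := by
        rw [zpow_sub, zpow_sub, zpow_natCast, zpow_natCast, zpow_natCast, zpow_natCast]
        have e1 : x ^ (i : ℕ) * (x ^ (i' : ℕ))⁻¹ = (x ^ (i' : ℕ))⁻¹ * x ^ (i : ℕ) := by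
          rw [← zpow_natCast, ← zpow_natCast, ← zpow_neg, ← zpow_add, ← zpow_add, add_comm]
        rw [e1]; group
      rwa [h5] at h4
    obtain ⟨h5, h6⟩ := hcentral _ _ h3
    have h7 := i.2
    have h8 := i'.2
    have h9 := j.2
    have h10 := j'.2
    have h11 := Int.eq_zero_of_abs_lt_dvd h5 (by rw [abs_lt]; constructor <;> omega)
    have h12 := Int.eq_zero_of_abs_lt_dvd h6 (by rw [abs_lt]; constructor <;> omega)
    rw [Prod.mk.injEq]
    constructor
    · apply Fin.ext; omega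
    · apply Fin.ext; omega
  have h5 := Nat.card_le_card_of_injective _ hinj
  rw [Nat.card_prod, Nat.card_eq_fintype_card, Fintype.card_fin] at h5
  rw [hk, pow_two]
  exact h5

end Pool.Agent.Helper721_C
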