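import Mathlib
import Pool.Agent.Helper721_C.Suff2

/-!
# Sufficiency: two-generator 2-groups with elementary abelian derived subgroup and class at most three
-/

set_option autoImplicit false

open scoped commutatorElement
open Pool.Agent.Helper832.AutC

namespace Pool.Agent.Helper721_C

variable {G : Type} [Group G]

/-- the normal closure property of `[x, y]` -/
theorem gen_of [Finite G] [AbD G] {x y : G} (hxy : Subgroup.closure {x, y} = ⊤)
    (B : AddSubgroup (DA G)) (hz : cm x y ∈ B) (h1 : ∀ b ∈ B, act x b ∈ B)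
    (h2 : ∀ b ∈ B, act y b ∈ B) : ∀ u, u ∈ B := by
  let N : Subgroup G :=
    { carrier := {g | ∃ u ∈ B, val u = g}
      mul_mem' := by
        rintro _ _ ⟨u, hu, rfl⟩ ⟨v, hv, rfl⟩
        exact ⟨u + v, B.add_mem hu hv, rfl⟩
      one_mem' := ⟨0, B.zero_mem, rfl⟩
      inv_mem' := by
        rintro _ ⟨u, hu, rfl⟩
        exact ⟨-u, B.neg_mem hu, rfl⟩ }
  have hx : x ∈ Subgroup.normalizer (N : Set G) := by
    apply Subgroup.mem_normalizer_fintype
    rintro _ ⟨u, hu, rfl⟩
    exact ⟨act x u, h1 u hu, rfl⟩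
  have hy : y ∈ Subgroup.normalizer (N : Set G) := by
    apply Subgroup.mem_normalizer_fintype
    rintro _ ⟨u, hu, rfl⟩
    exact ⟨act y u, h2 u hu, rfl⟩
  have hN : N.Normal := by
    rw [← Subgroup.normalizer_eq_top_iff, eq_top_iff, ← hxy, Subgroup.closure_le]
    rintro g (rfl | rfl)
    · exact hx
    · exact hy
  have hle : commutator G ≤ N := commutator_le_of_normal hxy N ⟨cm x y, hz, rfl⟩
  intro u
  obtain ⟨v, hv, hvu⟩ := hle (val_mem u)
  rw [← val_inj hvu]
  exact hv

section
variable [Finite G] [AbD G] (h2 : ∀ u ∈ commutator G, u ^ 2 = 1) (h4 : g4 G = ⊥)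
include h2 h4

omit [Finite G] h4 in
theorem two_zero (u : DA G) : u + u = 0 := by
  apply val_inj
  rw [val_add, ← pow_two]
  exact h2 _ (val_mem u)

omit [Finite G] h2 in
theorem fix_diff (g h : G) (u : DA G) : act h (act g u - u) = act g u - u := by
  apply val_inj
  have e1 : val (act g u - u) = ⁅g, val u⁆ := by
    simp [commutatorElement_def]
  have h5 : ⁅h, val (act g u - u)⁆ ∈ g4 G := by
    rw [e1]
    exact mem_g4 h (mem_g3 g (val_mem u))
  rw [h4, Subgroup.mem_bot, commutatorElement_eq_one_iff_mul_comm] at h5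
  rw [val_act, h5, mul_inv_cancel_right]

/-- the elements `0, a, b, a + b` -/
def fourS (h2 : ∀ u ∈ commutator G, u ^ 2 = 1) (a b : DA G) : AddSubgroup (DA G) where
  carrier := {v | v = 0 ∨ v = a ∨ v = b ∨ v = a + b}
  add_mem' := by
    have ha := two_zero h2 a
    have hb := two_zero h2 b
    rintro u v (rfl | rfl | rfl | rfl) (rfl | rfl | rfl | rfl)
    · left; simp
    · right; left; simp
    · right; right; left; simp
    · right; right; right; simp
    · right; left; simp
    · left; exact ha
    · right; right; right; rfl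
    · right; right; left; rw [← add_assoc, ha, zero_add]
    · right; right; left; simp
    · right; right; right; rw [add_comm]
    · left; exact hb
    · right; left; rw [add_left_comm, hb, add_zero]
    · right; right; right; simp
    · right; right; left; rw [add_comm, ← add_assoc, ha, zero_add]
    · right; left; rw [add_assoc, hb, add_zero]
    · left; exact two_zero h2 _
  zero_mem' := Or.inl rfl
  neg_mem' := by
    have hn : ∀ u : DA G, -u = u := fun u => neg_eq_of_add_eq_zero_left (two_zero h2 u)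
    rintro u hu
    rw [hn]; exact hu

/-- all differences lie in `{0, a, b, a + b}` -/
theorem diff_mem {x y : G} (hxy : Subgroup.closure {x, y} = ⊤) (g : G) (u : DA G) :
    act g u - u ∈ fourS h2 (act x (cm x y) - cm x y) (act y (cm x y) - cm x y) := by
  set a := act x (cm x y) - cm x y with ha
  set b := act y (cm x y) - cm x y with hb
  have hfixa : ∀ g, act g a = a := fun g => fix_diff h4 x g _
  have hfixb : ∀ g, act g b = b := fun g => fix_diff h4 y g _
  have hinv : ∀ g, ∀ c ∈ fourS h2 a b, act g c ∈ fourS h2 a b := by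
    rintro g c (rfl | rfl | rfl | rfl)
    · left; exact map_zero _
    · right; left; exact hfixa g
    · right; right; left; exact hfixb g
    · right; right; right; rw [map_add, hfixa, hfixb]
  let B : AddSubgroup (DA G) :=
    { carrier := {v | act x v - v ∈ fourS h2 a b ∧ act y v - v ∈ fourS h2 a b}
      add_mem' := by
        rintro u v ⟨hu, hu'⟩ ⟨hv, hv'⟩
        constructor
        · have : act x (u + v) - (u + v) = (act x u - u) + (act x v - v) := by
            rw [map_add]; abel
          change act x (u + v) - (u + v) ∈ _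
          rw [this]; exact AddSubgroup.add_mem _ hu hv
        · have : act y (u + v) - (u + v) = (act y u - u) + (act y v - v) := by
            rw [map_add]; abel
          change act y (u + v) - (u + v) ∈ _
          rw [this]; exact AddSubgroup.add_mem _ hu' hv'
      zero_mem' := by
        constructor
        · rw [map_zero, sub_zero]; exact AddSubgroup.zero_mem _
        · rw [map_zero, sub_zero]; exact AddSubgroup.zero_mem _
      neg_mem' := by
        rintro u ⟨hu, hu'⟩
        constructor
        · have : act x (-u) - (-u) = -(act x u - u) := by rw [map_neg]; abel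
          change act x (-u) - (-u) ∈ _
          rw [this]; exact AddSubgroup.neg_mem _ hu
        · have : act y (-u) - (-u) = -(act y u - u) := by rw [map_neg]; abel
          change act y (-u) - (-u) ∈ _
          rw [this]; exact AddSubgroup.neg_mem _ hu' }
  have hB := gen_of hxy B ⟨Or.inr (Or.inl rfl), Or.inr (Or.inr (Or.inl rfl))⟩ (by
    rintro c ⟨hc, hc'⟩
    constructor
    · rw [← map_sub]; exact hinv x _ hc
    · rw [act_comm y x, ← map_sub]; exact hinv x _ hc') (by
    rintro c ⟨hc, hc'⟩
    constructor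
    · rw [act_comm x y, ← map_sub]; exact hinv y _ hc
    · rw [← map_sub]; exact hinv y _ hc')
  exact act_sub_mem hxy (fourS h2 a b) (fun u => (hB u).1) (fun u => (hB u).2) g u

/-- `γ₃` -/
theorem g3_cases {x y : G} (hxy : Subgroup.closure {x, y} = ⊤) {c : DA G} (hc : val c ∈ g3 G) :
    c ∈ fourS h2 (act x (cm x y) - cm x y) (act y (cm x y) - cm x y) := by
  let T : Subgroup G :=
    { carrier := {g | ∃ u ∈ fourS h2 (act x (cm x y) - cm x y) (act y (cm x y) - cm x y),
        val u = g}
      mul_mem' := by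
        rintro _ _ ⟨u, hu, rfl⟩ ⟨v, hv, rfl⟩
        exact ⟨u + v, AddSubgroup.add_mem _ hu hv, rfl⟩
      one_mem' := ⟨0, AddSubgroup.zero_mem _, rfl⟩
      inv_mem' := by
        rintro _ ⟨u, hu, rfl⟩
        exact ⟨-u, AddSubgroup.neg_mem _ hu, rfl⟩ }
  have hle : g3 G ≤ T := by
    unfold g3
    rw [Subgroup.commutator_comm, Subgroup.commutator_le]
    intro g _ u hu
    refine ⟨_, diff_mem h2 h4 hxy g (mk u hu), ?_⟩
    simp only [val_sub, val_act, val_mk, commutatorElement_def]
  obtain ⟨u, hu, huc⟩ := hle hc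
  rw [← val_inj huc]
  exact hu

/-- every element of `γ₃` is a commutator `[g, w]` -/
theorem g3_comm {w w' : G} (hxy : Subgroup.closure {w, w'} = ⊤) {c : DA G} (hc : val c ∈ g3 G) :
    ∃ g : G, ⁅g, w⁆ = val c := by
  have hn : ∀ u : DA G, -u = u := fun u => neg_eq_of_add_eq_zero_left (two_zero h2 u)
  have key1 : ⁅⁅w, w'⁆, w⁆ = val (act w (cm w w') - cm w w') := by
    rw [← hn (act w (cm w w') - cm w w')]
    simp only [val_neg, val_sub, val_act, val_cm]
    rw [← commutatorElement_inv]
    rfl
  have key2 : ⁅w' ^ 2, w⁆ = val (act w' (cm w w') - cm w w') := by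
    have e1 : ⁅w' ^ 2, w⁆ = (w' * ⁅w', w⁆ * w'⁻¹) * ⁅w', w⁆ := by
      rw [pow_two]; simp only [commutatorElement_def]; group
    have e2 : (w' * ⁅w', w⁆ * w'⁻¹) * ⁅w', w⁆ = val (act w' (cm w' w) + cm w' w) := rfl
    rw [e1, e2, cm_swap w w', map_neg]
    congr 1
    rw [hn (cm w w')]
    have : -act w' (cm w w') + cm w w' = -(act w' (cm w w') - cm w w') := by abel
    rw [this, hn]
  rcases g3_cases h2 h4 hxy hc with h5 | h5 | h5 | h5
  · exact ⟨1, by rw [h5, val_zero]; simp⟩
  · exact ⟨⁅w, w'⁆, by rw [h5, key1]⟩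
  · exact ⟨w' ^ 2, by rw [h5, key2]⟩
  · refine ⟨w' ^ 2 * ⁅w, w'⁆, ?_⟩
    have e1 : ⁅w' ^ 2 * ⁅w, w'⁆, w⁆ = (w' ^ 2 * ⁅⁅w, w'⁆, w⁆ * (w' ^ 2)⁻¹) * ⁅w' ^ 2, w⁆ := by
      simp only [commutatorElement_def]; group
    rw [e1, key1, key2, h5, val_add, ← val_act, fix_diff h4]

/-- case (C) -/
theorem suff_C (hG : IsPGroup 2 G) {x : Fin 2 → G} (hx : Subgroup.closure (Set.range x) = ⊤)
    (hd : 2 = Group.rank G) :
    Nat.card (commutator G) ^ 2 ≤ Nat.card {α : G ≃* G // CP α} := by
  classical
  have hp : Fact (Nat.Prime 2) := ⟨Nat.prime_two⟩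
  have hr : Set.range x = {x 0, x 1} := by
    ext w
    simp only [Set.mem_range, Fin.exists_fin_two, Set.mem_insert_iff, Set.mem_singleton_iff]
    constructor
    · rintro (h | h)
      · exact Or.inl h.symm
      · exact Or.inr h.symm
    · rintro (h | h)
      · exact Or.inl h.symm
      · exact Or.inr h.symm
  have hxy : Subgroup.closure {x 0, x 1} = ⊤ := by rw [← hr]; exact hx
  have hcen3 : ∀ c ∈ g3 G, ∀ g : G, g * c = c * g := by
    intro c hc g
    have h5 := mem_g4 g hc
    rwa [h4, Subgroup.mem_bot, commutatorElement_eq_one_iff_mul_comm] at h5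
  have hn : ∀ u : DA G, -u = u := fun u => neg_eq_of_add_eq_zero_left (two_zero h2 u)
  have hsq : ∀ c : DA G, ∀ n : ℤ, (2 : ℤ) ∣ n → val c ^ n = 1 := by
    rintro c _ ⟨m, rfl⟩
    rw [zpow_mul]
    have : val c ^ (2 : ℤ) = 1 := by exact_mod_cast h2 _ (val_mem c)
    rw [this, one_zpow]
  apply card_ge x
  intro g hg
  set z := cm (x 0) (x 1) with hz
  -- every element of the derived subgroup is `0` or `z` modulo `γ₃`
  have hmod : ∀ u : DA G, val u ∈ g3 G ∨ val (u - z) ∈ g3 G := by
    let B : AddSubgroup (DA G) :=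
      { carrier := {u | val u ∈ g3 G ∨ val (u - z) ∈ g3 G}
        add_mem' := by
          rintro u v (hu | hu) (hv | hv)
          · left; exact mul_mem hu hv
          · right
            have : u + v - z = u + (v - z) := by abel
            rw [this]; exact mul_mem hu hv
          · right
            have : u + v - z = (u - z) + v := by abel
            rw [this]; exact mul_mem hu hv
          · left
            have : u + v = (u - z) + (v - z) + (z + z) := by abel
            rw [this, two_zero h2 z, add_zero]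
            exact mul_mem hu hv
        zero_mem' := Or.inl (one_mem _)
        neg_mem' := by
          rintro u hu
          rw [hn]; exact hu }
    have hact : ∀ g : G, ∀ b ∈ B, act g b ∈ B := by
      rintro g b hb
      have e1 : val (act g b - b) ∈ g3 G := by
        have : val (act g b - b) = ⁅g, val b⁆ := by simp [commutatorElement_def]
        rw [this]; exact mem_g3 g (val_mem b)
      rcases hb with hb | hb
      · left
        have : act g b = (act g b - b) + b := by abel
        rw [this]; exact mul_mem e1 hb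
      · right
        have : act g b - z = (act g b - b) + (b - z) := by abel
        rw [this]; exact mul_mem e1 hb
    exact gen_of hxy B (Or.inr (by rw [← hz, sub_self]; exact one_mem _)) (hact _) (hact _)
  -- the inner automorphism
  have hinner : ∃ k : G, ∀ i, ∃ c ∈ g3 G, k * x i * k⁻¹ = x i * g i * c := by
    -- one coordinate at a time
    have hA : ∀ u ∈ commutator G, ∃ k : G, (∃ c ∈ g3 G, k * x 0 * k⁻¹ = x 0 * u * c) ∧
        k * x 1 * k⁻¹ = x 1 := by
      intro u hu
      rcases hmod (mk u hu) with h5 | h5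
      · refine ⟨1, ⟨u⁻¹, inv_mem h5, by group⟩, by group⟩
      · refine ⟨x 1, ⟨(x 0 * u)⁻¹ * (x 1 * x 0 * (x 1)⁻¹), ?_, by group⟩, by group⟩
        -- `x 1 x 0 x 1⁻¹ = z⁻¹ x 0`
        have e1 : (x 0 * u)⁻¹ * (x 1 * x 0 * (x 1)⁻¹)
            = u⁻¹ * ((x 0)⁻¹ * ⁅x 0, x 1⁆⁻¹ * x 0) := by
          simp only [commutatorElement_def]; group
        have e2 : u⁻¹ * ((x 0)⁻¹ * ⁅x 0, x 1⁆⁻¹ * x 0) = val (-(mk u hu) + act (x 0)⁻¹ (-z)) := by
          simp only [val_add, val_neg, val_act, val_mk, hz, val_cm, inv_inv]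
        rw [e1, e2]
        have e3 : -(mk u hu) + act (x 0)⁻¹ (-z) = (mk u hu - z) + (act (x 0)⁻¹ z - z)
            + (z + z) := by
          rw [hn, hn]; abel
        rw [e3, two_zero h2 z, add_zero]
        refine mul_mem h5 ?_
        change val (act (x 0)⁻¹ z - z) ∈ g3 G
        have : val (act (x 0)⁻¹ z - z) = ⁅(x 0)⁻¹, val z⁆ := by simp [commutatorElement_def]
        rw [this]; exact mem_g3 _ (val_mem z)
    have hB : ∀ u ∈ commutator G, ∃ k : G, (∃ c ∈ g3 G, k * x 1 * k⁻¹ = x 1 * u * c) ∧
        k * x 0 * k⁻¹ = x 0 := by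
      intro u hu
      rcases hmod (mk u hu) with h5 | h5
      · refine ⟨1, ⟨u⁻¹, inv_mem h5, by group⟩, by group⟩
      · refine ⟨x 0, ⟨(x 1 * u)⁻¹ * (x 0 * x 1 * (x 0)⁻¹), ?_, by group⟩, by group⟩
        have e1 : (x 1 * u)⁻¹ * (x 0 * x 1 * (x 0)⁻¹)
            = u⁻¹ * ((x 1)⁻¹ * ⁅x 0, x 1⁆ * x 1) := by
          simp only [commutatorElement_def]; group
        have e2 : u⁻¹ * ((x 1)⁻¹ * ⁅x 0, x 1⁆ * x 1) = val (-(mk u hu) + act (x 1)⁻¹ z) := by
          simp only [val_add, val_neg, val_act, val_mk, hz, val_cm, inv_inv]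
        rw [e1, e2]
        have e3 : -(mk u hu) + act (x 1)⁻¹ z = (mk u hu - z) + (act (x 1)⁻¹ z - z)
            + (z + z) := by
          rw [hn]; abel
        rw [e3, two_zero h2 z, add_zero]
        refine mul_mem h5 ?_
        change val (act (x 1)⁻¹ z - z) ∈ g3 G
        have : val (act (x 1)⁻¹ z - z) = ⁅(x 1)⁻¹, val z⁆ := by simp [commutatorElement_def]
        rw [this]; exact mem_g3 _ (val_mem z)
    obtain ⟨k0, ⟨c0, hc0, e0⟩, e0'⟩ := hA (g 0) (hg 0)
    obtain ⟨k1, ⟨c1, hc1, e1⟩, e1'⟩ := hB (g 1) (hg 1)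
    have hcn : (commutator G).Normal := inferInstance
    have hcomm : ∀ (k u : G), u ∈ commutator G → ∃ c ∈ g3 G, k * u * k⁻¹ = u * c := by
      intro k u hu
      refine ⟨⁅k, u⁆, mem_g3 k hu, ?_⟩
      have : k * u * k⁻¹ = ⁅k, u⁆ * u := by rw [commutatorElement_def]; group
      rw [this, hcen3 _ (mem_g3 k hu) u]
    refine ⟨k0 * k1, ?_⟩
    intro i
    fin_cases i
    · refine ⟨c0, hc0, ?_⟩
      change k0 * k1 * x 0 * (k0 * k1)⁻¹ = x 0 * g 0 * c0
      rw [← e0]
      calc k0 * k1 * x 0 * (k0 * k1)⁻¹ = k0 * (k1 * x 0 * k1⁻¹) * k0⁻¹ := by group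
        _ = _ := by rw [e1']
    · obtain ⟨c2, hc2, e2⟩ := hcomm k0 (g 1) (hg 1)
      refine ⟨c2 * c1, mul_mem hc2 hc1, ?_⟩
      change k0 * k1 * x 1 * (k0 * k1)⁻¹ = x 1 * g 1 * (c2 * c1)
      calc k0 * k1 * x 1 * (k0 * k1)⁻¹ = k0 * (k1 * x 1 * k1⁻¹) * k0⁻¹ := by group
        _ = k0 * (x 1 * g 1 * c1) * k0⁻¹ := by rw [e1]
        _ = (k0 * x 1 * k0⁻¹) * (k0 * g 1 * k0⁻¹) * (k0 * c1 * k0⁻¹) := by group
        _ = x 1 * (g 1 * c2) * c1 := by
          rw [e0', e2, hcen3 c1 hc1 k0, mul_inv_cancel_right]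
        _ = x 1 * g 1 * (c2 * c1) := by group
  obtain ⟨k, hk⟩ := hinner
  choose c hc hkc using hk
  -- the central automorphism
  obtain ⟨f, hf1, hf2⟩ := exists_hom x hx
    (fun i => (⟨(c i)⁻¹, g3_le (inv_mem (hc i))⟩ : commutator G)) (by
    intro a ha
    apply Finset.prod_eq_one
    intro i _
    apply Subtype.ext
    have hwF : (1 : G) ∈ frattini G := one_mem _
    have h5 := indep hG x hx hd a 1 (by rw [map_one, ha]) hwF i
    exact hsq (mk (c i)⁻¹ (g3_le (inv_mem (hc i)))) (a i) h5)
  have hf3 : ∀ w, (f w : G) ∈ g3 G := by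
    intro w
    have hsurj : Function.Surjective (Abelianization.of : G →* Abelianization G) :=
      QuotientGroup.mk'_surjective _
    obtain ⟨a, ha⟩ := exists_exp (fun i => Abelianization.of (x i)) (Abelianization.of w) (by
      have e1 : Set.range (fun i => Abelianization.of (x i)) = Abelianization.of '' Set.range x :=
        Set.range_comp Abelianization.of x
      rw [e1, ← MonoidHom.map_closure, hx, Subgroup.map_top_of_surjective _ hsurj]
      exact Subgroup.mem_top _)
    rw [hf2 w a ha, Fin.prod_univ_two]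
    exact mul_mem (zpow_mem (inv_mem (hc 0)) _) (zpow_mem (inv_mem (hc 1)) _)
  have hfF : ∀ w ∈ frattini G, f w = 1 := by
    intro w hw
    have hsurj : Function.Surjective (Abelianization.of : G →* Abelianization G) :=
      QuotientGroup.mk'_surjective _
    obtain ⟨a, ha⟩ := exists_exp (fun i => Abelianization.of (x i)) (Abelianization.of w) (by
      have e1 : Set.range (fun i => Abelianization.of (x i)) = Abelianization.of '' Set.range x :=
        Set.range_comp Abelianization.of x
      rw [e1, ← MonoidHom.map_closure, hx, Subgroup.map_top_of_surjective _ hsurj]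
      exact Subgroup.mem_top _)
    rw [hf2 w a ha]
    apply Finset.prod_eq_one
    intro i _
    apply Subtype.ext
    exact hsq (mk (c i)⁻¹ (g3_le (inv_mem (hc i)))) (a i) (indep hG x hx hd a w ha hw i)
  obtain ⟨α, hα⟩ := central_auto f (fun w g => hcen3 _ (hf3 w) g)
  have hCP : CP α := by
    intro w
    by_cases hw : w ∈ frattini G
    · rw [hα, hfF w hw, Subgroup.coe_one, mul_one]
    · obtain ⟨x', i, hx', hi⟩ := exchange hG x hx hw
      obtain ⟨w', hw'⟩ : ∃ w', Subgroup.closure {w, w'} = ⊤ := by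
        have hr' : Set.range x' = {x' 0, x' 1} := by
          ext w
          simp only [Set.mem_range, Fin.exists_fin_two, Set.mem_insert_iff, Set.mem_singleton_iff]
          constructor
          · rintro (h | h)
            · exact Or.inl h.symm
            · exact Or.inr h.symm
          · rintro (h | h)
            · exact Or.inl h.symm
            · exact Or.inr h.symm
        rw [hr'] at hx'
        fin_cases i
        · exact ⟨x' 1, by rw [← hi]; exact hx'⟩
        · exact ⟨x' 0, by rw [← hi]; exact closure_swap hx'⟩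
      obtain ⟨t, ht⟩ := g3_comm h2 h4 hw' (c := mk (f w : G) (f w).2) (hf3 w)
      rw [isConj_iff]
      refine ⟨t, ?_⟩
      have e : t * w * t⁻¹ = ⁅t, w⁆ * w := by rw [commutatorElement_def]; group
      rw [e, ht, hα, val_mk, hcen3 _ (hf3 w)]
  refine ⟨α.trans (MulAut.conj k), ?_, ?_⟩
  · intro w
    refine (hCP w).trans ?_
    exact isConj_iff.2 ⟨k, rfl⟩
  · intro i
    change k * α (x i) * k⁻¹ = x i * g i
    rw [hα, hf1]
    change k * (x i * (c i)⁻¹) * k⁻¹ = x i * g i
    calc k * (x i * (c i)⁻¹) * k⁻¹ = (k * x i * k⁻¹) * (k * (c i)⁻¹ * k⁻¹) := by group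
      _ = x i * g i * c i * (c i)⁻¹ := by
        rw [hkc i, hcen3 _ (inv_mem (hc i)) k, mul_inv_cancel_right]
      _ = x i * g i := by group

end

end Pool.Agent.Helper721_C
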