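import Mathlib
import Pool.Agent.Helper721_C.Suff3

/-!
# The classification
-/

set_option autoImplicit false

open scoped commutatorElement
open Pool.Agent.Helper832.AutC

namespace Pool.Agent.Helper721_C

variable {G : Type} [Group G]

/-- a minimal generating family -/
theorem exists_family [Finite G] :
    ∃ x : Fin (Group.rank G) → G, Subgroup.closure (Set.range x) = ⊤ := by
  obtain ⟨S, hS, hS'⟩ := Group.rank_spec G
  refine ⟨fun i => ((S.equivFinOfCardEq hS).symm i : G), ?_⟩
  rw [← hS']
  congr 1
  ext w
  constructor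
  · rintro ⟨i, rfl⟩
    exact ((S.equivFinOfCardEq hS).symm i).2
  · intro hw
    exact ⟨S.equivFinOfCardEq hS ⟨w, hw⟩, by simp⟩

/-- a family of at most one element generates a commutative group -/
theorem comm_of_small {d : ℕ} (hd : d ≤ 1) (x : Fin d → G)
    (hx : Subgroup.closure (Set.range x) = ⊤) : commutator G = ⊥ := by
  have h1 : ∀ i j, x i * x j = x j * x i := by
    intro i j
    have : i = j := Fin.ext (by omega)
    rw [this]
  have h2 : ∀ i, ∀ g : G, x i * g = g * x i := by
    intro i g
    have hg : g ∈ Subgroup.closure (Set.range x) := by rw [hx]; exact Subgroup.mem_top g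
    induction hg using Subgroup.closure_induction with
    | mem y hy =>
      obtain ⟨j, rfl⟩ := hy
      exact h1 i j
    | one => simp
    | mul a b _ _ ha hb => rw [← mul_assoc, ha, mul_assoc, hb, mul_assoc]
    | inv a _ ha =>
      rw [← mul_left_inj a, ← mul_right_inj a]
      calc a * (x i * a⁻¹ * a) = a * x i := by group
        _ = x i * a := ha.symm
        _ = a * (a⁻¹ * x i * a) := by group
  have h3 : ∀ a b : G, a * b = b * a := by
    intro a b
    have hb : b ∈ Subgroup.closure (Set.range x) := by rw [hx]; exact Subgroup.mem_top b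
    induction hb using Subgroup.closure_induction with
    | mem y hy =>
      obtain ⟨j, rfl⟩ := hy
      exact (h2 j a).symm
    | one => simp
    | mul u v _ _ hu hv => rw [← mul_assoc, hu, mul_assoc, hv, mul_assoc]
    | inv u _ hu =>
      rw [← mul_left_inj u, ← mul_right_inj u]
      calc u * (a * u⁻¹ * u) = u * a := by group
        _ = a * u := hu.symm
        _ = u * (u⁻¹ * a * u) := by group
  rw [eq_bot_iff, commutator_def, Subgroup.commutator_le]
  intro a _ b _
  rw [Subgroup.mem_bot, commutatorElement_eq_one_iff_mul_comm]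
  exact h3 a b

theorem g3_bot_of {d : ℕ} (hd : d ≤ 1) (x : Fin d → G)
    (hx : Subgroup.closure (Set.range x) = ⊤) : g3 G = ⊥ := by
  have h := comm_of_small hd x hx
  rw [eq_bot_iff, ← h]
  exact g3_le

omit [Group G] in
theorem range_two (x : Fin 2 → G) : Set.range x = {x 0, x 1} := by
  ext w
  simp only [Set.mem_range, Fin.exists_fin_two, Set.mem_insert_iff, Set.mem_singleton_iff]
  constructor
  · rintro (h | h)
    · exact Or.inl h.symm
    · exact Or.inr h.symm
  · rintro (h | h)
    · exact Or.inl h.symm
    · exact Or.inr h.symm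

theorem classification (p : ℕ) [hp : Fact p.Prime] [Finite G] (hG : IsPGroup p G) :
    Nat.card {α : G ≃* G // CP α} = Nat.card (commutator G) ^ Group.rank G ↔
      (g3 G = ⊥ ∧ ∀ x : G, x ∉ frattini G → ∀ u ∈ commutator G, IsConj x (x * u)) ∨
      (Group.rank G = 2 ∧ IsCyclic (commutator G) ∧
        (p = 2 → ∀ u ∈ commutator G, ∀ g : G, ∃ v ∈ commutator G, ⁅u, g⁆ = v ^ 4)) ∨
      (p = 2 ∧ Group.rank G = 2 ∧ (∀ u ∈ commutator G, u ^ 2 = 1) ∧ g4 G = ⊥) := by
  classical
  obtain ⟨x, hx⟩ := exists_family (G := G)
  constructor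
  · intro h
    have hPP := PP_of_card h
    by_cases h3 : g3 G = ⊥
    · left
      refine ⟨h3, ?_⟩
      intro w hw u hu
      obtain ⟨x', i, hx', hi⟩ := exchange hG x hx hw
      obtain ⟨α, hα, hα'⟩ := hPP x' hx' (Function.update (fun _ => 1) i u) (by
        intro j
        by_cases hj : j = i
        · subst hj; simpa using hu
        · simp [Function.update_of_ne hj, one_mem])
      have h1 := hα' i
      rw [Function.update_self, hi] at h1
      rw [← h1]
      exact hα w
    · right
      -- reduce modulo `γ₄`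
      have hgr : Group.IsNilpotent G := hG.isNilpotent
      have h4F : g4 G ≤ frattini G := g4_le.trans (g3_le.trans (comm_le_frattini hG))
      have hsur := QuotientGroup.mk'_surjective (g4 G)
      have hP4 := hPP.quot (g4 G) h4F
      have h4Q : g4 (G ⧸ g4 G) = ⊥ := by
        rw [← map_g4 hsur, Subgroup.map_eq_bot_iff, QuotientGroup.ker_mk']
      have h3Q : g3 (G ⧸ g4 G) ≠ ⊥ := by
        intro h5
        apply h3
        rw [← map_g3 hsur, Subgroup.map_eq_bot_iff, QuotientGroup.ker_mk'] at h5
        rw [eq_bot_iff]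
        apply nil_le ⊥ (g3 G)
        rw [bot_sup_eq]
        exact h5
      have hxQ : Subgroup.closure (Set.range (fun i => QuotientGroup.mk' (g4 G) (x i))) = ⊤ := by
        have e1 : Set.range (fun i => QuotientGroup.mk' (g4 G) (x i))
            = QuotientGroup.mk' (g4 G) '' Set.range x := Set.range_comp _ x
        rw [e1, ← MonoidHom.map_closure, hx, Subgroup.map_top_of_surjective _ hsur]
      have hd2 := d_le_two (hG.to_quotient (g4 G)) hP4 _ hxQ h4Q h3Q
      have hd : Group.rank G = 2 := by
        by_contra hne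
        exact h3 (g3_bot_of (by omega) x hx)
      have hPP2 : PP G 2 := hd ▸ hPP
      obtain ⟨y, hy⟩ : ∃ y : Fin 2 → G, Subgroup.closure (Set.range y) = ⊤ := by
        rw [← hd]; exact ⟨x, hx⟩
      rw [range_two] at hy
      by_cases hp2 : p = 2
      · subst hp2
        by_cases hc : IsCyclic (commutator G)
        · left
          exact ⟨hd, hc, fun _ => nec_two_cyc hG hPP2 hy hc⟩
        · right
          have h5 := nec_two hG hPP2 hy hc
          rw [sup_eq_bot_iff] at h5
          refine ⟨rfl, hd, ?_, h5.2⟩
          intro u hu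
          have h6 := mem_pw 2 hu
          rwa [h5.1, Subgroup.mem_bot] at h6
      · left
        exact ⟨hd, nec_odd hp2 hG hPP2 hy, fun h5 => absurd h5 hp2⟩
  · rintro (⟨h3, hs⟩ | ⟨hd, hc, h4⟩ | ⟨hp2, hd, h2, h4⟩)
    · refine le_antisymm (card_le x hx) (suff_A hG h3 ?_ x hx rfl)
      intro w hw z hz
      have hw' : w⁻¹ ∉ frattini G := fun h => hw (by simpa using inv_mem h)
      obtain ⟨c, hc⟩ := isConj_iff.1 (hs w⁻¹ hw' z hz)
      refine ⟨c, ?_⟩
      rw [commutatorElement_def]
      calc w * c * w⁻¹ * c⁻¹ = w * (c * w⁻¹ * c⁻¹) := by group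
        _ = w * (w⁻¹ * z) := by rw [hc]
        _ = z := by group
    · refine le_antisymm (card_le x hx) ?_
      obtain ⟨y, hy⟩ : ∃ y : Fin 2 → G, Subgroup.closure (Set.range y) = ⊤ := by
        rw [← hd]; exact ⟨x, hx⟩
      rw [range_two] at hy
      rw [hd]
      exact suff_B hG hy hc h4
    · subst hp2
      refine le_antisymm (card_le x hx) ?_
      obtain ⟨y, hy⟩ : ∃ y : Fin 2 → G, Subgroup.closure (Set.range y) = ⊤ := by
        rw [← hd]; exact ⟨x, hx⟩
      have hy' := hy
      rw [range_two] at hy'
      have hAbD : AbD G := abD_of hy' (by rw [h4]; exact bot_le)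
      rw [hd]
      exact suff_C h2 h4 hG hy hd.symm

end Pool.Agent.Helper721_C
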